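import Pool.Agent.Work.MP_46fa68_86.EndM

/-! # endgame with constants `β = K / m`, `p = 1 - P / m`, for all `m = t + 1` at once (helper86) -/

set_option autoImplicit false

open Finset Equiv

namespace Pool.EG

variable {n t : ℕ}

/-- the gap from two certificates -/
theorem gap_union {θ β p p' p'' : ℝ} (h1 : Gap n t θ β p') (h2 : Gap n t θ p'' p) (hp : p'' < p') :
    Gap n t θ β p := by
  intro A hA hc x y
  rcases h1 A hA hc x y with h | h
  · exact Or.inl h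
  rcases h2 A hA hc x y with h' | h'
  · left
    have ha : (0 : ℝ) ≤ A.card := Nat.cast_nonneg _
    have hle : p' * (A.card : ℝ) ≤ p'' * A.card := h.trans h'
    have h0 : (A.card : ℝ) = 0 := by
      by_contra hne
      have hpos : (0 : ℝ) < A.card := lt_of_le_of_ne ha (Ne.symm hne)
      have := mul_lt_mul_of_pos_right hp hpos
      linarith
    have h3 : ((thr A x y).card : ℝ) ≤ A.card := by exact_mod_cast thr_le A x y
    rw [h0] at h3 ⊢
    linarith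
  · exact Or.inr h'

/-- weaker constants -/
theorem Gap.mono {θ θ' β β' p p' : ℝ} (h : Gap n t θ β p) (hθ : θ ≤ θ') (hβ : β ≤ β') (hp : p' ≤ p) :
    Gap n t θ' β' p' := by
  intro A hA hc x y
  have ha : (0 : ℝ) ≤ A.card := Nat.cast_nonneg _
  have hf : (0 : ℝ) ≤ ((n - t).factorial : ℝ) := Nat.cast_nonneg _
  rcases h A hA ((mul_le_mul_of_nonneg_right hθ hf).trans hc) x y with h1 | h1
  · exact Or.inl (h1.trans (mul_le_mul_of_nonneg_right hβ ha))
  · exact Or.inr ((mul_le_mul_of_nonneg_right hp ha).trans h1)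

/-- the inequalities between the constants, denominators cleared (`m = t + 1`) -/
structure Consts (t : ℕ) (K0 P0 K1 P1 : ℝ) : Prop where
  ht : 5 ≤ t
  hK0 : 0 ≤ K0
  hK1 : 0 ≤ K1
  hP0 : 0 ≤ P0
  hP1 : 0 ≤ P1
  h2 : 2 * P0 < t + 1
  h2' : P1 < t + 1
  h3 : 2 * t * K0 < (t - 1) * (t + 1)
  h4 : K1 < 2
  h5 : (t : ℝ) + 1 < (2 * (t + 1) - P1 - K1 * t) * (t + 1 - P0)
  h6 : ((t : ℝ) + 1) * (t + 1 + 3 / 8 * (t * (t - 1))) <
    t * ((2 * (t + 1) - P1 - K1 * (t - 1)) * (t + 1 - P0))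
  h7 : (9 * (t : ℝ) + 8) * (t + 1) < 24 * ((2 * (t + 1) - K1 * t) * (t + 1 - P0))
  h8 : ((t : ℝ) + 1) * (2 + (t + 2) * (t - 1)) <
    (2 * (t + 1) - (t + 2) * P1) * (t + 1 - P0) * (t * (t - 1))
  h9 : K0 * (t + 1) < (t + 1 - P0) * (t + 1 - P1)
  h10 : K1 * (t + 1 - P0) < (t + 1) * (t + 1 - 2 * P0)

theorem consts_num {K0 P0 K1 P1 : ℝ} (C : Consts t K0 P0 K1 P1) :
    NumM t (K0 / (t + 1)) (1 - P0 / (t + 1)) (K1 / (t + 1)) (K1 / (t + 1) / (1 - P1 / (t + 1)))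
      ((1 - P0 / (t + 1)) * (1 - P1 / (t + 1))) (1 - (1 - P1 / (t + 1))) ∧
    YLink t (1 - P0 / (t + 1)) (1 - P1 / (t + 1)) ∧
    K0 / (t + 1) < (1 - P0 / (t + 1)) * (1 - P1 / (t + 1)) ∧
    K1 / (t + 1) * (1 - P0 / (t + 1)) < 2 * (1 - P0 / (t + 1)) - 1 ∧
    0 < 1 - P1 / ((t : ℝ) + 1) := by
  obtain ⟨ht, hK0, hK1, hP0, hP1, h2, h2', h3, h4, h5, h6, h7, h8, h9, h10⟩ := C
  have htR : (5 : ℝ) ≤ t := by exact_mod_cast ht
  set m : ℝ := (t : ℝ) + 1 with hm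
  have hm0 : 0 < m := by linarith
  have hmne : m ≠ 0 := hm0.ne'
  have hmm : 0 < m * m := mul_pos hm0 hm0
  have ht0 : (0 : ℝ) < t := by linarith
  have hp0 : 1 - P0 / m = (m - P0) / m := by field_simp
  have hp1 : 1 - P1 / m = (m - P1) / m := by field_simp
  have hp0pos : 0 < (m - P0) / m := div_pos (by linarith) hm0
  have hp1pos : 0 < (m - P1) / m := div_pos (by linarith) hm0
  have hhalf : 1 / 2 < (m - P0) / m := by
    rw [lt_div_iff₀ hm0]
    linarith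
  refine ⟨⟨ht, div_nonneg hK0 hm0.le, div_nonneg hK1 hm0.le, ?_, ?_, ?_, ?_, ?_, ?_, ?_, ?_⟩,
    ?_, ?_, ?_, ?_⟩
  · rw [hp1]
    exact div_nonneg (div_nonneg hK1 hm0.le) hp1pos.le
  · rw [hp0, hp1]
    exact mul_pos hp0pos hp1pos
  · rw [hp0]
    exact hhalf
  · rw [div_mul_eq_mul_div, div_lt_iff₀ hm0]
    calc K0 * (2 * t) = 2 * t * K0 := by ring
      _ < _ := h3
  · rw [← hm, div_mul_cancel₀ _ hmne]
    exact h4
  · right
    rw [hp0]
    have e : (2 - (1 - (1 - P1 / m)) - K1 / m * t) * ((m - P0) / m) =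
        ((2 * m - P1 - K1 * t) * (m - P0)) / (m * m) := by
      field_simp
      ring
    rw [e, ← hm, lt_div_iff₀ hmm]
    calc 1 / m * (m * m) = m := by field_simp
      _ < _ := h5
  · right
    rw [hp0]
    have e : (2 - (1 - (1 - P1 / m)) - K1 / m * (t - 1)) * ((m - P0) / m) =
        (t * ((2 * m - P1 - K1 * (t - 1)) * (m - P0))) / (t * (m * m)) := by
      field_simp
      ring
    rw [e, ← hm, lt_div_iff₀ (mul_pos ht0 hmm)]
    have e2 : (1 + 1 / (t : ℝ) + 3 / 8 * (t - 1)) / m * (t * (m * m)) =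
        m * (m + 3 / 8 * (t * (t - 1))) := by
      rw [hm]
      field_simp
    rw [e2]
    exact h6
  · left
    unfold phi
    rw [hp0]
    have e : (2 - K1 / m * t) * ((m - P0) / m) =
        (24 * ((2 * m - K1 * t) * (m - P0))) / (24 * (m * m)) := by
      field_simp
    rw [e, ← hm, div_lt_div_iff₀ (by positivity) (by positivity)]
    nlinarith [mul_lt_mul_of_pos_right h7 (show (0 : ℝ) < 24 * m by positivity)]
  · unfold YLink
    rw [hp0]
    have e : (2 - ((t : ℝ) + 2) * (1 - (1 - P1 / m))) * ((m - P0) / m * (m * t * (t - 1))) =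
        ((2 * m - (t + 2) * P1) * (m - P0) * (t * (t - 1))) / m := by
      field_simp
      ring
    rw [← hm, e, lt_div_iff₀ hm0]
    calc (2 + ((t : ℝ) + 2) * (t - 1)) * m = m * (2 + (t + 2) * (t - 1)) := by ring
      _ < _ := h8
  · rw [hp0, hp1, div_mul_div_comm, div_lt_div_iff₀ hm0 hmm]
    nlinarith [mul_lt_mul_of_pos_right h9 hm0]
  · rw [hp0]
    have e : 2 * ((m - P0) / m) - 1 = (m * (m - 2 * P0)) / (m * m) := by
      field_simp
      ring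
    rw [e, div_mul_div_comm, div_lt_div_iff₀ hmm hmm]
    exact mul_lt_mul_of_pos_right h10 hmm
  · rw [hp1]
    exact hp1pos

/-- the endgame with constants -/
theorem holds_consts {K0 P0 K1 P1 : ℝ} (C : Consts t K0 P0 K1 P1)
    (hG0 : Gap (2 * t + 1) t 1 (K0 / (t + 1)) (1 - P0 / (t + 1)))
    (hG1 : Gap (2 * t) (t - 1) (1 - P0 / (t + 1)) (K1 / (t + 1)) (1 - P1 / (t + 1)))
    (hLink : Link t) (hK : ∀ n' t' : ℕ, 2 * t' + 3 ≤ n' → Holds n' t') : Holds (2 * t + 1) t := by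
  obtain ⟨N, hY, hB, hB', hp1⟩ := consts_num C
  have ht := C.ht
  exact endM N hG0 (inputM_one (by omega) N.hb0 N.hb1 N.hp0 hp1 hB hB' hG1 (Or.inr hY)) hLink hK

/-- constants `2, 2.63, 1.5, 1.8` for `m ≥ 16` -/
theorem consts_a (ht : 15 ≤ t) : Consts t 2 (263 / 100) (3 / 2) (9 / 5) := by
  obtain ⟨d, rfl⟩ := Nat.exists_eq_add_of_le ht
  refine ⟨by omega, by norm_num, by norm_num, by norm_num, by norm_num, ?_, ?_, ?_, by norm_num,
    ?_, ?_, ?_, ?_, ?_, ?_⟩ <;> push_cast <;> have hd : (0 : ℝ) ≤ d := Nat.cast_nonneg _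
  · nlinarith
  · nlinarith
  · nlinarith
  · nlinarith
  · nlinarith [mul_nonneg hd hd, mul_nonneg (mul_nonneg hd hd) hd]
  · nlinarith
  · nlinarith [mul_nonneg hd hd, mul_nonneg (mul_nonneg hd hd) hd,
      mul_nonneg (mul_nonneg hd hd) (mul_nonneg hd hd)]
  · nlinarith
  · nlinarith

/-- **all large `m` from two gaps** with constants `2, 2.63, 1.5, 1.8` (`m = t + 1 ≥ 16`) -/
theorem holds_large {t₀ : ℕ} (h15 : 15 ≤ t₀)
    (hG0 : ∀ t : ℕ, t₀ ≤ t → Gap (2 * t + 1) t 1 (2 / (t + 1)) (1 - 263 / 100 / (t + 1)))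
    (hG1 : ∀ t : ℕ, t₀ ≤ t →
      Gap (2 * t) (t - 1) (1 - 263 / 100 / (t + 1)) (3 / 2 / (t + 1)) (1 - 9 / 5 / (t + 1)))
    (hLink : ∀ t : ℕ, 1 ≤ t → Link t) (hK : ∀ n' t' : ℕ, 2 * t' + 3 ≤ n' → Holds n' t') :
    ∀ t : ℕ, t₀ ≤ t → Holds (2 * t + 1) t := fun t ht =>
  holds_consts (consts_a (h15.trans ht)) (hG0 t ht) (hG1 t ht) (hLink t (by omega)) hK

end Pool.EG
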