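import Pool.Agent.Work.MP_46fa68_86.EndM2

/-! # endgame: one gap for all large `m`, and gaps from a product bound (helper86) -/

set_option autoImplicit false

open Finset Equiv

namespace Pool.EG

variable {n t : ℕ}

/-- the product bound at every cell -/
def ProdBound (n t : ℕ) (Λ : ℝ) : Prop :=
  ∀ A : Finset (Perm (Fin n)), TInt t A → ∀ x y : Fin n,
    ((thr A x y).card : ℝ) * ((A.card : ℝ) - ((thr A x y).card : ℝ)) ≤
      Λ * ((n - t).factorial : ℝ) ^ 2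

theorem ProdBound.mono {Λ Λ' : ℝ} (h : ProdBound n t Λ) (hΛ : Λ ≤ Λ') : ProdBound n t Λ' :=
  fun A hA x y => (h A hA x y).trans (mul_le_mul_of_nonneg_right hΛ (by positivity))

/-- gaps from the product bound -/
theorem gap_of_prod {Λ θ β p : ℝ} (h : ProdBound n t Λ) (hθ : 0 < θ) (hβ0 : 0 ≤ β) (hp1 : p ≤ 1)
    (hβ : Λ ≤ β * (1 - β) * θ ^ 2) (hp : Λ ≤ p * (1 - p) * θ ^ 2) : Gap n t θ β p := by
  intro A hA hc x y
  have hA0 := h A hA x y
  set a : ℝ := (A.card : ℝ) with ha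
  set q : ℝ := ((thr A x y).card : ℝ) with hq
  set F : ℝ := ((n - t).factorial : ℝ) with hF
  have hF0 : 0 < F := by rw [hF]; exact_mod_cast Nat.factorial_pos _
  by_contra hcon
  push Not at hcon
  obtain ⟨h1, h2⟩ := hcon
  have hq0 : 0 ≤ q := by rw [hq]; exact Nat.cast_nonneg _
  have ha0 : 0 < a := lt_of_lt_of_le (mul_pos hθ hF0) hc
  have hθF : θ ^ 2 * F ^ 2 ≤ a ^ 2 := by
    have : (θ * F) ^ 2 ≤ a ^ 2 := by
      apply pow_le_pow_left₀ (mul_pos hθ hF0).le hc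
    calc θ ^ 2 * F ^ 2 = (θ * F) ^ 2 := by ring
      _ ≤ _ := this
  -- q (a - q) is larger than one of the two end point values
  have hβp : β < p := by
    by_contra hle
    push Not at hle
    have := mul_le_mul_of_nonneg_right hle ha0.le
    linarith
  rcases le_or_gt (β + p) 1 with hs | hs
  · -- β is the worse end
    have h3 : β * (1 - β) * a ^ 2 < q * (a - q) := by
      have h4 : 0 < (q - β * a) * ((1 - β) * a - q) := by
        apply mul_pos (by linarith)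
        have : p * a ≤ (1 - β) * a := mul_le_mul_of_nonneg_right (by linarith) ha0.le
        linarith
      nlinarith
    have h4 : 0 ≤ β * (1 - β) := mul_nonneg hβ0 (by linarith)
    have h5 : β * (1 - β) * (θ ^ 2 * F ^ 2) ≤ β * (1 - β) * a ^ 2 := mul_le_mul_of_nonneg_left hθF h4
    have h6 : Λ * F ^ 2 ≤ β * (1 - β) * θ ^ 2 * F ^ 2 := mul_le_mul_of_nonneg_right hβ (by positivity)
    nlinarith
  · have h3 : p * (1 - p) * a ^ 2 < q * (a - q) := by
      have h4 : 0 < (q - (1 - p) * a) * (p * a - q) := by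
        apply mul_pos _ (by linarith)
        have : (1 - p) * a ≤ β * a := mul_le_mul_of_nonneg_right (by linarith) ha0.le
        linarith
      nlinarith
    have h4 : 0 ≤ p * (1 - p) := mul_nonneg (by linarith) (by linarith)
    have h5 : p * (1 - p) * (θ ^ 2 * F ^ 2) ≤ p * (1 - p) * a ^ 2 := mul_le_mul_of_nonneg_left hθF h4
    have h6 : Λ * F ^ 2 ≤ p * (1 - p) * θ ^ 2 * F ^ 2 := mul_le_mul_of_nonneg_right hp (by positivity)
    nlinarith

/-- the inequalities for one gap `β0 = K / m`, `p0 = 1 - P / m` (`m = t + 1`), all linear in `K`, `P` -/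
structure ConstsT (t : ℕ) (K P : ℝ) : Prop where
  ht : 5 ≤ t
  hK : 0 ≤ K
  hP : 0 ≤ P
  h1 : 4 * P < t + 1
  h2 : K * (2 * t) < (t - 1) * (t + 1)
  h3 : K * (t + 1) < 2 * (t + 1 - P)
  h4 : 1 < 2 * ((t : ℝ) + 1) - 4 * P - K * t
  h5 : (t : ℝ) + 1 + 3 / 8 * (t * (t - 1)) < t * (2 * (t + 1) - 3 * P - K * (t - 1))
  h6 : 9 * (t : ℝ) + 8 < 24 * (2 * (t + 1) - 2 * P - K * t)
  h7 : 2 + ((t : ℝ) + 3) * (t - 1) < (2 * (t + 1) - (t + 3) * P) * (t * (t - 1))

theorem constsT_num {K P : ℝ} (C : ConstsT t K P) :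
    NumM t (K / (t + 1)) (1 - P / (t + 1)) (K / (t + 1) / (1 - P / (t + 1)))
      (K / (t + 1) / (2 * (1 - P / (t + 1)) - 1)) (2 * (1 - P / (t + 1)) - 1)
      ((1 - (1 - P / (t + 1))) / (1 - P / (t + 1))) ∧
    YTop t (1 - P / (t + 1)) ∧ 1 / 2 < 1 - P / ((t : ℝ) + 1) ∧ 1 - P / ((t : ℝ) + 1) ≤ 1 := by
  obtain ⟨ht, hK, hP, h1, h2, h3, h4, h5, h6, h7⟩ := C
  have htR : (5 : ℝ) ≤ t := by exact_mod_cast ht
  set m : ℝ := (t : ℝ) + 1 with hm
  have hm0 : 0 < m := by linarith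
  have hmne : m ≠ 0 := hm0.ne'
  have ht0 : (0 : ℝ) < t := by linarith
  have htne : (t : ℝ) ≠ 0 := ht0.ne'
  have hp0 : 1 - P / m = (m - P) / m := by field_simp
  have hmP : 0 < m - P := by linarith
  have hp0pos : 0 < (m - P) / m := div_pos hmP hm0
  have hθ : 2 * ((m - P) / m) - 1 = (m - 2 * P) / m := by field_simp; ring
  have hmP2 : 0 < m - 2 * P := by linarith
  have hθpos : 0 < (m - 2 * P) / m := div_pos hmP2 hm0
  have hhalf : 1 / 2 < (m - P) / m := by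
    rw [lt_div_iff₀ hm0]
    linarith
  have hmPne : m - P ≠ 0 := hmP.ne'
  have hmP2ne : m - 2 * P ≠ 0 := hmP2.ne'
  rw [hp0, hθ]
  have hK1 : K / m / ((m - P) / m) = K / (m - P) := by field_simp
  have hK2 : K / m / ((m - 2 * P) / m) = K / (m - 2 * P) := by field_simp
  rw [hK1, hK2]
  refine ⟨⟨ht, div_nonneg hK hm0.le, div_nonneg hK hmP.le, div_nonneg hK hmP2.le, hθpos, hhalf,
    ?_, ?_, ?_, ?_, ?_⟩, ?_, hhalf, ?_⟩
  · rw [div_mul_eq_mul_div, div_lt_iff₀ hm0]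
    exact h2
  · rw [← hm, div_mul_eq_mul_div, div_lt_iff₀ hmP]
    exact h3
  · left
    have e : (2 - K / (m - 2 * P) * t) * ((m - 2 * P) / m) * m = 2 * m - 4 * P - K * t := by
      field_simp
      ring
    rw [← hm, e]
    exact h4
  · right
    have e : (2 - (1 - (m - P) / m) / ((m - P) / m) - K / (m - P) * (t - 1)) * ((m - P) / m) =
        (t * (2 * m - 3 * P - K * (t - 1))) / t / m := by
      field_simp
      ring
    rw [e, ← hm]
    apply div_lt_div_of_pos_right _ hm0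
    rw [lt_div_iff₀ ht0]
    have e2 : (1 + 1 / (t : ℝ) + 3 / 8 * (t - 1)) * t = t + 1 + 3 / 8 * (t * (t - 1)) := by
      field_simp
    rw [e2]
    exact h5
  · left
    unfold phi
    have e : (2 - K / (m - P) * t) * ((m - P) / m) = (24 * (2 * m - 2 * P - K * t)) / (24 * m) := by
      field_simp
    rw [e, ← hm]
    exact div_lt_div_of_pos_right h6 (by positivity)
  · unfold YTop
    have e : (2 - ((t : ℝ) + 3) * (1 - (m - P) / m)) * (m * t * (t - 1)) =
        (2 * m - (t + 3) * P) * (t * (t - 1)) := by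
      field_simp
      ring
    rw [← hm, e]
    exact h7
  · rw [div_le_one hm0]
    linarith

/-- one gap -/
theorem holds_constsT {K P : ℝ} (C : ConstsT t K P)
    (hG0 : Gap (2 * t + 1) t 1 (K / (t + 1)) (1 - P / (t + 1)))
    (hLink : Link t) (hK : ∀ n' t' : ℕ, 2 * t' + 3 ≤ n' → Holds n' t') : Holds (2 * t + 1) t := by
  obtain ⟨N, hY, h1, h2⟩ := constsT_num C
  have ht := C.ht
  exact endM N hG0 (inputM_top (by omega) N.hb0 h1 h2 hY) hLink hK

/-- `K = P = 31 / 20` for all `m ≥ 25` -/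
theorem constsT_a (ht : 24 ≤ t) : ConstsT t (31 / 20) (31 / 20) := by
  obtain ⟨d, rfl⟩ := Nat.exists_eq_add_of_le ht
  have hd : (0 : ℝ) ≤ d := Nat.cast_nonneg _
  refine ⟨by omega, by norm_num, by norm_num, ?_, ?_, ?_, ?_, ?_, ?_, ?_⟩ <;> push_cast
  · nlinarith
  · nlinarith
  · nlinarith
  · nlinarith
  · nlinarith
  · nlinarith
  · nlinarith [mul_nonneg hd hd, mul_nonneg (mul_nonneg hd hd) hd]

/-- `K = 31 / 20`, `P = 13 / 10` for all `m ≥ 16` -/
theorem constsT_b (ht : 15 ≤ t) : ConstsT t (31 / 20) (13 / 10) := by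
  obtain ⟨d, rfl⟩ := Nat.exists_eq_add_of_le ht
  have hd : (0 : ℝ) ≤ d := Nat.cast_nonneg _
  refine ⟨by omega, by norm_num, by norm_num, ?_, ?_, ?_, ?_, ?_, ?_, ?_⟩ <;> push_cast
  · nlinarith
  · nlinarith
  · nlinarith
  · nlinarith
  · nlinarith
  · nlinarith
  · nlinarith [mul_nonneg hd hd, mul_nonneg (mul_nonneg hd hd) hd]

/-- `K = 3 / 2`, `P = 9 / 5` for all `m ≥ 24` -/
theorem constsT_c (ht : 23 ≤ t) : ConstsT t (3 / 2) (9 / 5) := by
  obtain ⟨d, rfl⟩ := Nat.exists_eq_add_of_le ht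
  have hd : (0 : ℝ) ≤ d := Nat.cast_nonneg _
  refine ⟨by omega, by norm_num, by norm_num, ?_, ?_, ?_, ?_, ?_, ?_, ?_⟩ <;> push_cast
  · nlinarith
  · nlinarith
  · nlinarith
  · nlinarith
  · nlinarith
  · nlinarith
  · nlinarith [mul_nonneg hd hd, mul_nonneg (mul_nonneg hd hd) hd]

/-- **one line, one gap** `(1.55 / m, 1 - 1.3 / m)` for all `m ≥ 16` -/
theorem holds_large_top {t₀ : ℕ} (h15 : 15 ≤ t₀)
    (hG0 : ∀ t : ℕ, t₀ ≤ t → Gap (2 * t + 1) t 1 (31 / 20 / (t + 1)) (1 - 13 / 10 / (t + 1)))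
    (hLink : ∀ t : ℕ, 1 ≤ t → Link t) (hK : ∀ n' t' : ℕ, 2 * t' + 3 ≤ n' → Holds n' t') :
    ∀ t : ℕ, t₀ ≤ t → Holds (2 * t + 1) t := fun t ht =>
  holds_constsT (constsT_b (h15.trans ht)) (hG0 t ht) (hLink t (by omega)) hK

/-- **one line**: all `m ≥ 25` from the product bound with the constant `1.453 / m` -/
theorem holds_large_prod {t₀ : ℕ} (h24 : 24 ≤ t₀)
    (hP : ∀ t : ℕ, t₀ ≤ t → ProdBound (2 * t + 1) t (1453 / 1000 / (t + 1)))
    (hLink : ∀ t : ℕ, 1 ≤ t → Link t) (hK : ∀ n' t' : ℕ, 2 * t' + 3 ≤ n' → Holds n' t') :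
    ∀ t : ℕ, t₀ ≤ t → Holds (2 * t + 1) t := fun t ht => by
  have ht24 : 24 ≤ t := h24.trans ht
  have htR : (24 : ℝ) ≤ t := by exact_mod_cast ht24
  have hm0 : (0 : ℝ) < (t : ℝ) + 1 := by linarith
  have key : 1453 / 1000 / ((t : ℝ) + 1) ≤ 31 / 20 / (t + 1) * (1 - 31 / 20 / (t + 1)) := by
    have e : 31 / 20 / ((t : ℝ) + 1) * (1 - 31 / 20 / (t + 1)) =
        (31 / 20 * (1 - 31 / 20 / (t + 1))) / (t + 1) := by ring
    rw [e]
    apply div_le_div_of_nonneg_right _ hm0.le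
    have h1 : 31 / 20 / ((t : ℝ) + 1) ≤ 31 / 20 / 25 := by
      apply div_le_div_of_nonneg_left (by norm_num) (by norm_num)
      linarith
    linarith
  refine holds_constsT (constsT_a ht24) (gap_of_prod (hP t ht) one_pos ?_ ?_ ?_ ?_)
    (hLink t (by omega)) hK
  · exact div_nonneg (by norm_num) hm0.le
  · have : 0 ≤ 31 / 20 / ((t : ℝ) + 1) := div_nonneg (by norm_num) hm0.le
    linarith
  · rw [one_pow, mul_one]
    exact key
  · rw [one_pow, mul_one]
    calc _ ≤ 31 / 20 / ((t : ℝ) + 1) * (1 - 31 / 20 / (t + 1)) := key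
      _ = _ := by ring

end Pool.EG
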