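import Pool.Agent.Work.MP_46fa68_86.Unif4
import Pool.Agent.Work.MP_46fa68_74.DS11

/-! # the dense-sparse endgame of helper74 from the product bound: `K = 2 - 8 / m` (helper86) -/

set_option autoImplicit false

open Finset Equiv

namespace Pool.EG

variable {n t : ℕ}

/-- the constant `2 - 8 / m`, `m = t + 1` -/
noncomputable def KD (t : ℕ) : ℝ := 2 - 8 / ((t : ℝ) + 1)

theorem KD_bounds (ht : 20 ≤ t) : 3 / 2 ≤ KD t ∧ KD t < 2 ∧ 0 < 1 / ((t : ℝ) + 1) ∧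
    1 / ((t : ℝ) + 1) ≤ 1 / 21 := by
  have htR : (20 : ℝ) ≤ t := by exact_mod_cast ht
  have h1 : 0 < 1 / ((t : ℝ) + 1) := by positivity
  have h2 : 1 / ((t : ℝ) + 1) ≤ 1 / 21 := by
    apply one_div_le_one_div_of_le (by norm_num)
    linarith
  have h3 : 8 / ((t : ℝ) + 1) = 8 * (1 / ((t : ℝ) + 1)) := by ring
  unfold KD
  rw [h3]
  refine ⟨by linarith, by linarith, h1, h2⟩

/-- `Holds` from the product bound for families of size exactly `(t + 1)!`, dense-sparse endgame -/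
theorem holds_D (ht : 20 ≤ t) {Λ : ℝ} (hP : ProdOne (2 * t + 1) t Λ)
    (hΛ : Λ ≤ KD t / (t + 1) * (1 - KD t / (t + 1)))
    (hLink : Link t) (hK : ∀ n' t' : ℕ, 2 * t' + 3 ≤ n' → Holds n' t') : Holds (2 * t + 1) t := by
  obtain ⟨b1, b2, b3, b4⟩ := KD_bounds ht
  have htR : (20 : ℝ) ≤ t := by exact_mod_cast ht
  have hd : KD t / ((t : ℝ) + 1) = KD t * (1 / ((t : ℝ) + 1)) := by ring
  have h0 : 0 ≤ KD t / ((t : ℝ) + 1) := div_nonneg (by linarith) (by linarith)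
  have h1 : KD t / ((t : ℝ) + 1) ≤ 1 / 4 := by
    rw [hd]
    calc KD t * (1 / ((t : ℝ) + 1)) ≤ 2 * (1 / 21) :=
          mul_le_mul b2.le b4 b3.le (by norm_num)
      _ ≤ 1 / 4 := by norm_num
  have hfac : (720 : ℝ) ≤ ((2 * t + 1 - t).factorial : ℝ) := by
    have h : (6).factorial ≤ (2 * t + 1 - t).factorial := Nat.factorial_le (by omega)
    have h' : (720 : ℕ) ≤ (2 * t + 1 - t).factorial := h
    exact_mod_cast h'
  have hG : Gap (2 * t + 1) t 1 (KD t / ((t : ℝ) + 1)) (1 - KD t / ((t : ℝ) + 1)) := by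
    refine gap_of_prodOne hP h0 (by linarith) ?_ hΛ ?_
    · nlinarith
    · calc Λ ≤ _ := hΛ
        _ = _ := by ring
  have hle : KD t ≤ 2 - 8 / ((t : ℝ) + 1) := le_rfl
  exact holds_largeD ht hle hle hG hLink hK

/-- the final inequality from ONE numerical test (at `m = t₀ + 1`) -/
theorem LamF_leD {t₀ : ℕ} (h20 : 20 ≤ t₀) (ht : t₀ ≤ t) {W η c A C : ℝ} (hW : 0 ≤ W) (hη : 0 ≤ η) (hη1 : η < 1)
    (hA : (W + η) / (1 - η) ^ 2 ≤ A) (hC : c ^ 2 * (((t₀ : ℝ) + 1) / t₀) ≤ C) (h0 : A * W ≤ 2)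
    (h1 : A * (W * (1 - 1 / ((t₀ : ℝ) + 1)) + η * (1 / ((t₀ : ℝ) + 1))) + C * (1 / ((t₀ : ℝ) + 1)) ^ 2 ≤
      2 - 12 * (1 / ((t₀ : ℝ) + 1)) + 32 * (1 / ((t₀ : ℝ) + 1)) ^ 2 - 64 * (1 / ((t₀ : ℝ) + 1)) ^ 3) :
    LamF t W η c ≤ KD t / (t + 1) * (1 - KD t / (t + 1)) := by
  have ht0R : (20 : ℝ) ≤ t₀ := by exact_mod_cast h20
  have htR : (t₀ : ℝ) ≤ t := by exact_mod_cast ht
  have hm : (0 : ℝ) < (t : ℝ) + 1 := by linarith
  have e1 := LamF_mul (t := t) (by omega) W c hη1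
  set x : ℝ := 1 / ((t : ℝ) + 1) with hx
  set x0 : ℝ := 1 / ((t₀ : ℝ) + 1) with hx0
  have hx1 : 0 < x := by rw [hx]; positivity
  have hx01 : 0 < x0 := by rw [hx0]; positivity
  have hxx : x ≤ x0 := by
    rw [hx, hx0]
    apply one_div_le_one_div_of_le <;> linarith
  have hx02 : x0 ≤ 1 / 21 := by
    rw [hx0]
    apply one_div_le_one_div_of_le <;> linarith
  have hcc : c ^ 2 * (((t : ℝ) + 1) / t) ≤ C := by
    refine le_trans (mul_le_mul_of_nonneg_left ?_ (sq_nonneg c)) hC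
    rw [div_le_div_iff₀ (by linarith) (by linarith)]
    nlinarith
  have hC0 : 0 ≤ C := le_trans (by positivity) hcc
  have hin : 0 ≤ W * (1 - x) + η * x := by
    apply add_nonneg (mul_nonneg hW (by linarith)) (mul_nonneg hη hx1.le)
  have hL : LamF t W η c * ((t : ℝ) + 1) ≤ A * (W * (1 - x) + η * x) + C * x ^ 2 := by
    rw [e1]
    exact add_le_add (mul_le_mul_of_nonneg_right hA hin) (mul_le_mul_of_nonneg_right hcc (sq_nonneg x))
  have hA0 : 0 ≤ A := le_trans (div_nonneg (add_nonneg hW hη) (sq_nonneg _)) hA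
  have key : A * (W * (1 - x) + η * x) + C * x ^ 2 ≤ 2 - 12 * x + 32 * x ^ 2 - 64 * x ^ 3 := by
    have hAη : 0 ≤ A * η := mul_nonneg hA0 hη
    have hbr : 0 ≤ (12 - A * W + A * η) - (32 - C) * (x + x0) + 64 * (x ^ 2 + x * x0 + x0 ^ 2) := by
      have h2 : 0 ≤ C * (x + x0) := mul_nonneg hC0 (by linarith)
      have h3 : 0 ≤ 64 * (x ^ 2 + x * x0 + x0 ^ 2) := by positivity
      nlinarith
    have h4 := mul_nonneg (sub_nonneg.2 hxx) hbr
    nlinarith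
  have hR : KD t / ((t : ℝ) + 1) * (1 - KD t / (t + 1)) * (t + 1) = 2 - 12 * x + 32 * x ^ 2 - 64 * x ^ 3 := by
    have hK : KD t = 2 - 8 * x := by
      unfold KD
      rw [hx]
      ring
    have hd : KD t / ((t : ℝ) + 1) = KD t * x := by rw [hx]; ring
    have hd2 : KD t * x * (1 - KD t * x) * ((t : ℝ) + 1) = KD t * (1 - KD t * x) * (x * ((t : ℝ) + 1)) := by ring
    have hd3 : x * ((t : ℝ) + 1) = 1 := by
      rw [hx]
      field_simp
    rw [hd, hd2, hd3, hK]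
    ring
  have hfin : LamF t W η c * ((t : ℝ) + 1) ≤ KD t / ((t : ℝ) + 1) * (1 - KD t / (t + 1)) * (t + 1) := by
    rw [hR]
    exact hL.trans key
  exact le_of_mul_le_mul_right hfin hm

/-- all `t ≥ t₀` from helper27's constant and helper74's endgame -/
theorem holds_D_cd {t₀ : ℕ} (h20 : 20 ≤ t₀) {W η c A C : ℝ} (hW : 0 ≤ W) (hη : 0 ≤ η) (hη1 : η < 1)
    (hA : (W + η) / (1 - η) ^ 2 ≤ A) (hC : c ^ 2 * (((t₀ : ℝ) + 1) / t₀) ≤ C) (h0 : A * W ≤ 2)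
    (h1 : A * (W * (1 - 1 / ((t₀ : ℝ) + 1)) + η * (1 / ((t₀ : ℝ) + 1))) + C * (1 / ((t₀ : ℝ) + 1)) ^ 2 ≤
      2 - 12 * (1 / ((t₀ : ℝ) + 1)) + 32 * (1 / ((t₀ : ℝ) + 1)) ^ 2 - 64 * (1 / ((t₀ : ℝ) + 1)) ^ 3)
    (ht : t₀ ≤ t) (hP : ProdOne (2 * t + 1) t (LamF t W η c))
    (hLink : Link t) (hK : ∀ n' t' : ℕ, 2 * t' + 3 ≤ n' → Holds n' t') : Holds (2 * t + 1) t :=
  holds_D (h20.trans ht) hP (LamF_leD h20 ht hW hη hη1 hA hC h0 h1) hLink hK

/-- `W = 1.27`, `η ≤ 1 / 1000`, `c ≤ 2.6`: all `m ≥ 25` -/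
theorem LamF_127 (ht : 24 ≤ t) : LamF t (127 / 100) (1 / 1000) (26 / 10) ≤ KD t / (t + 1) * (1 - KD t / (t + 1)) :=
  LamF_leD (t₀ := 24) (A := 12736 / 10000) (C := 705 / 100) (by norm_num) ht (by norm_num) (by norm_num)
    (by norm_num) (by norm_num) (by norm_num) (by norm_num) (by norm_num)

/-- `W = 1.26`, `η ≤ 1 / 1000`, `c ≤ 3`: all `m ≥ 24` -/
theorem LamF_126 (ht : 23 ≤ t) : LamF t (126 / 100) (1 / 1000) 3 ≤ KD t / (t + 1) * (1 - KD t / (t + 1)) :=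
  LamF_leD (t₀ := 23) (A := 12636 / 10000) (C := 94 / 10) (by norm_num) ht (by norm_num) (by norm_num)
    (by norm_num) (by norm_num) (by norm_num) (by norm_num) (by norm_num)

end Pool.EG
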