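import Pool.Agent.Work.MP_46fa68_86.EndG2

/-! # endgame: general version, assembly (helper86) -/

set_option autoImplicit false

open Finset Equiv

namespace Pool.EG

variable {t : ℕ}

/-- no member misses two popular cells -/
def NoTwo {n : ℕ} (A : Finset (Perm (Fin n))) (g : Perm (Fin n)) (T : Finset (Fin n)) : Prop :=
  ∀ σ ∈ A, ∀ i ∈ T, ∀ j ∈ T, i ≠ j → σ i ≠ g i → σ j = g j

/-- upper bound for the number of members containing all popular cells, if there are `t` of them and somebody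
misses one -/
def Spec (t : ℕ) (κ : ℝ) : Prop :=
  ∀ (A : Finset (Perm (Fin (2 * t + 1)))) (g : Perm (Fin (2 * t + 1))) (T : Finset (Fin (2 * t + 1))),
    TInt t A → T.card = t → NoTwo A g T → ((t + 1).factorial : ℝ) ≤ A.card →
    (∃ s ∈ A, ∃ x ∈ T, s x ≠ g x) →
    ((A.filter (fun σ => ∀ i ∈ T, σ i = g i)).card : ℝ) ≤ κ * ((t + 1).factorial : ℝ)

/-- the bound for exactly one hit -/
noncomputable def phi (t : ℕ) : ℝ := (9 * (t : ℝ) + 8) / (24 * (t + 1))

theorem phi_nonneg (t : ℕ) : 0 ≤ phi t := by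
  unfold phi
  positivity

/-- the cell of density at most `β` on the boundary: level one from the top gap -/
theorem low1_top {n : ℕ} {A : Finset (Perm (Fin n))} {β0 p0 : ℝ} (hb0 : 0 ≤ β0) (hp0 : 0 < p0)
    (hgap : ∀ x y, ((thr A x y).card : ℝ) ≤ β0 * A.card ∨ p0 * A.card ≤ ((thr A x y).card : ℝ))
    {g : Perm (Fin n)} {T : Finset (Fin n)}
    (hpop : ∀ x y, p0 * A.card ≤ ((thr A x y).card : ℝ) ↔ (x ∈ T ∧ y = g x)) :
    Low1 A g T (β0 / p0) := by
  classical
  intro x hx i j hij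
  have h1 : ((thr A i j).card : ℝ) ≤ β0 * A.card := by
    rcases hgap i j with h | h
    · exact h
    · exact absurd ((hpop i j).1 h) hij
  have h2 : ((thr (thr A x (g x)) i j).card : ℝ) ≤ ((thr A i j).card : ℝ) := by
    have : (thr (thr A x (g x)) i j).card ≤ (thr A i j).card := by
      apply card_le_card
      intro σ hσ
      obtain ⟨h3, h4⟩ := mem_filter.1 hσ
      exact mem_filter.2 ⟨(mem_filter.1 h3).1, h4⟩
    exact_mod_cast this
  have h3 := (hpop x (g x)).2 ⟨hx, rfl⟩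
  calc ((thr (thr A x (g x)) i j).card : ℝ) ≤ β0 * A.card := h2.trans h1
    _ = β0 / p0 * (p0 * A.card) := by field_simp
    _ ≤ β0 / p0 * ((thr A x (g x)).card : ℝ) :=
        mul_le_mul_of_nonneg_left h3 (div_nonneg hb0 hp0.le)

theorem inter_ge {n : ℕ} {A : Finset (Perm (Fin n))} {p0 : ℝ} {x y x' y' : Fin n}
    (hx : p0 * A.card ≤ ((thr A x y).card : ℝ)) (hx' : p0 * A.card ≤ ((thr A x' y').card : ℝ)) :
    (2 * p0 - 1) * A.card ≤ ((thr A x y ∩ thr A x' y').card : ℝ) := by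
  classical
  have h1 := card_union_add_card_inter (thr A x y) (thr A x' y')
  have h2 : (thr A x y ∪ thr A x' y').card ≤ A.card :=
    card_le_card (union_subset (filter_subset _ _) (filter_subset _ _))
  have h3 : (thr A x y).card + (thr A x' y').card ≤ A.card + (thr A x y ∩ thr A x' y').card := by omega
  have h4 : ((thr A x y).card : ℝ) + ((thr A x' y').card : ℝ) ≤
      A.card + ((thr A x y ∩ thr A x' y').card : ℝ) := by exact_mod_cast h3
  linarith

/-- level two from the top gap -/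
theorem low2_top {n : ℕ} {A : Finset (Perm (Fin n))} {β0 p0 : ℝ} (hb0 : 0 ≤ β0) (hp0 : 1 / 2 < p0)
    (hgap : ∀ x y, ((thr A x y).card : ℝ) ≤ β0 * A.card ∨ p0 * A.card ≤ ((thr A x y).card : ℝ))
    {g : Perm (Fin n)} {T : Finset (Fin n)}
    (hpop : ∀ x y, p0 * A.card ≤ ((thr A x y).card : ℝ) ↔ (x ∈ T ∧ y = g x)) :
    Low2 A g T (β0 / (2 * p0 - 1)) := by
  classical
  intro x hx x' hx' _ i j hij
  have h1 : ((thr A i j).card : ℝ) ≤ β0 * A.card := by
    rcases hgap i j with h | h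
    · exact h
    · exact absurd ((hpop i j).1 h) hij
  have h2 : ((thr (thr A x (g x) ∩ thr A x' (g x')) i j).card : ℝ) ≤ ((thr A i j).card : ℝ) := by
    have : (thr (thr A x (g x) ∩ thr A x' (g x')) i j).card ≤ (thr A i j).card := by
      apply card_le_card
      intro σ hσ
      obtain ⟨h3, h4⟩ := mem_filter.1 hσ
      exact mem_filter.2 ⟨(mem_filter.1 (mem_inter.1 h3).1).1, h4⟩
    exact_mod_cast this
  have h3 := inter_ge ((hpop x (g x)).2 ⟨hx, rfl⟩) ((hpop x' (g x')).2 ⟨hx', rfl⟩)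
  have hθ : 0 < 2 * p0 - 1 := by linarith
  calc ((thr (thr A x (g x) ∩ thr A x' (g x')) i j).card : ℝ) ≤ β0 * A.card := h2.trans h1
    _ = β0 / (2 * p0 - 1) * ((2 * p0 - 1) * A.card) := by field_simp
    _ ≤ β0 / (2 * p0 - 1) * ((thr A x (g x) ∩ thr A x' (g x')).card : ℝ) :=
        mul_le_mul_of_nonneg_left h3 (div_nonneg hb0 hθ.le)

/-- level two from level one -/
theorem low2_of_low1 {n : ℕ} {A : Finset (Perm (Fin n))} {β1 p0 : ℝ} (hb1 : 0 ≤ β1) (hp0 : 1 / 2 < p0)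
    {g : Perm (Fin n)} {T : Finset (Fin n)}
    (hpop : ∀ x y, p0 * A.card ≤ ((thr A x y).card : ℝ) ↔ (x ∈ T ∧ y = g x))
    (hL : Low1 A g T β1) : Low2 A g T (β1 * p0 / (2 * p0 - 1)) := by
  classical
  intro x hx x' hx' _ i j hij
  have h1 := hL x hx i j hij
  have h2 : ((thr (thr A x (g x) ∩ thr A x' (g x')) i j).card : ℝ) ≤
      ((thr (thr A x (g x)) i j).card : ℝ) := by
    have : (thr (thr A x (g x) ∩ thr A x' (g x')) i j).card ≤ (thr (thr A x (g x)) i j).card := by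
      apply card_le_card
      intro σ hσ
      obtain ⟨h3, h4⟩ := mem_filter.1 hσ
      exact mem_filter.2 ⟨(mem_inter.1 h3).1, h4⟩
    exact_mod_cast this
  have hx3 := (hpop x (g x)).2 ⟨hx, rfl⟩
  have hx4 := (hpop x' (g x')).2 ⟨hx', rfl⟩
  have hθ : 0 < 2 * p0 - 1 := by linarith
  -- |A_x| (2 p0 - 1) ≤ p0 |A_x ∩ A_x'|
  have h3 : (2 * p0 - 1) * ((thr A x (g x)).card : ℝ) ≤
      p0 * ((thr A x (g x) ∩ thr A x' (g x')).card : ℝ) := by
    have h4 := card_union_add_card_inter (thr A x (g x)) (thr A x' (g x'))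
    have h5 : (thr A x (g x) ∪ thr A x' (g x')).card ≤ A.card :=
      card_le_card (union_subset (filter_subset _ _) (filter_subset _ _))
    have h6 : (thr A x (g x)).card + (thr A x' (g x')).card ≤
        A.card + (thr A x (g x) ∩ thr A x' (g x')).card := by omega
    have h7 : ((thr A x (g x)).card : ℝ) + ((thr A x' (g x')).card : ℝ) ≤
        A.card + ((thr A x (g x) ∩ thr A x' (g x')).card : ℝ) := by exact_mod_cast h6
    have hp1 : p0 ≤ 1 ∨ 1 < p0 := le_or_gt p0 1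
    rcases hp1 with hp1 | hp1
    · nlinarith [mul_nonneg (sub_nonneg.2 hp1) (sub_nonneg.2 hx3)]
    · have h8 : ((thr A x (g x)).card : ℝ) ≤ A.card := by exact_mod_cast thr_le A x (g x)
      have h9 : (A.card : ℝ) ≤ 0 := by
        by_contra hcon
        push Not at hcon
        nlinarith
      have h10 : ((thr A x (g x)).card : ℝ) = 0 := le_antisymm (h8.trans h9) (Nat.cast_nonneg _)
      rw [h10, mul_zero]
      exact mul_nonneg (by linarith) (Nat.cast_nonneg _)
  calc ((thr (thr A x (g x) ∩ thr A x' (g x')) i j).card : ℝ) ≤ β1 * ((thr A x (g x)).card : ℝ) :=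
        h2.trans h1
    _ = β1 / (2 * p0 - 1) * ((2 * p0 - 1) * ((thr A x (g x)).card : ℝ)) := by field_simp
    _ ≤ β1 / (2 * p0 - 1) * (p0 * ((thr A x (g x) ∩ thr A x' (g x')).card : ℝ)) :=
        mul_le_mul_of_nonneg_left h3 (div_nonneg hb1 hθ.le)
    _ = _ := by ring

/-- level one from a gap in `(2 t, t - 1)` -/
theorem low1_gap (ht : 1 ≤ t) {A : Finset (Perm (Fin (2 * t + 1)))} (hA : TInt t A)
    (hF : ((t + 1).factorial : ℝ) ≤ A.card) {β0 p0 β1 p1 : ℝ} (hb0 : 0 ≤ β0) (hb1 : 0 ≤ β1)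
    (hp0 : 0 < p0) (hB : β0 < p0 * p1)
    (hgap : ∀ x y, ((thr A x y).card : ℝ) ≤ β0 * A.card ∨ p0 * A.card ≤ ((thr A x y).card : ℝ))
    (hG1 : Gap (2 * t) (t - 1) p0 β1 p1)
    {g : Perm (Fin (2 * t + 1))} {T : Finset (Fin (2 * t + 1))}
    (hpop : ∀ x y, p0 * A.card ≤ ((thr A x y).card : ℝ) ↔ (x ∈ T ∧ y = g x)) :
    Low1 A g T β1 := by
  classical
  intro x hx i j hij
  have hfac : (0 : ℝ) < ((t + 1).factorial : ℝ) := by exact_mod_cast Nat.factorial_pos _
  have ha0 : (0 : ℝ) < (A.card : ℝ) := lt_of_lt_of_le hfac hF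
  set X := thr A x (g x) with hXdef
  have hXc : p0 * A.card ≤ (X.card : ℝ) := (hpop x (g x)).2 ⟨hx, rfl⟩
  have hXA : ∀ σ ∈ X, σ ∈ A ∧ σ x = g x := fun σ hσ => mem_filter.1 hσ
  have hp1 : 0 < p1 := by
    by_contra hcon
    push Not at hcon
    nlinarith
  have h1 : ((thr A i j).card : ℝ) ≤ β0 * A.card := by
    rcases hgap i j with h | h
    · exact h
    · exact absurd ((hpop i j).1 h) hij
  by_cases hix : i = x
  · have h2 : thr X i j = ∅ := by
      rw [eq_empty_iff_forall_notMem]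
      intro σ hσ
      obtain ⟨h3, h4⟩ := mem_filter.1 hσ
      apply hij
      rw [hix] at h4 ⊢
      exact ⟨hx, by rw [← h4, (hXA σ h3).2]⟩
    rw [h2, card_empty, Nat.cast_zero]
    exact mul_nonneg hb1 (Nat.cast_nonneg _)
  · have hTX : TInt t X := fun σ hσ τ hτ => hA σ (hXA σ hσ).1 τ (hXA τ hτ).1
    have h2 := gap_star hG1 hb1 (t := t) (k := 1) (n := 2 * t + 1) (by omega) rfl ht (by omega)
      (g := g) (T := {x}) (card_singleton x) hTX (by
        intro σ hσ k hk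
        rw [mem_singleton] at hk
        rw [hk]
        exact (hXA σ hσ).2) (by
        rw [sub_eq]
        exact (mul_le_mul_of_nonneg_left hF hp0.le).trans hXc) i j (by
        rw [mem_singleton]
        exact hix)
    rcases h2 with h2 | h2
    · exact h2
    · exfalso
      have h3 : ((thr X i j).card : ℝ) ≤ ((thr A i j).card : ℝ) := by
        have : (thr X i j).card ≤ (thr A i j).card := by
          apply card_le_card
          intro σ hσ
          obtain ⟨h3, h4⟩ := mem_filter.1 hσ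
          exact mem_filter.2 ⟨(hXA σ h3).1, h4⟩
        exact_mod_cast this
      have h4 : β0 * A.card < β0 * A.card := by
        calc β0 * A.card < p0 * p1 * A.card := mul_lt_mul_of_pos_right hB ha0
          _ = p1 * (p0 * A.card) := by ring
          _ ≤ p1 * X.card := mul_le_mul_of_nonneg_left hXc hp1.le
          _ ≤ _ := h2
          _ ≤ _ := h3
          _ ≤ _ := h1
      exact lt_irrefl _ h4

/-- level two from a gap in `(2 t - 1, t - 2)` -/
theorem low2_gap (ht : 2 ≤ t) {A : Finset (Perm (Fin (2 * t + 1)))} (hA : TInt t A)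
    (hF : ((t + 1).factorial : ℝ) ≤ A.card) {β0 p0 β2 p2 : ℝ} (hb0 : 0 ≤ β0) (hb2 : 0 ≤ β2)
    (hp0 : 1 / 2 < p0) (hB : β0 < (2 * p0 - 1) * p2)
    (hgap : ∀ x y, ((thr A x y).card : ℝ) ≤ β0 * A.card ∨ p0 * A.card ≤ ((thr A x y).card : ℝ))
    (hG2 : Gap (2 * t - 1) (t - 2) (2 * p0 - 1) β2 p2)
    {g : Perm (Fin (2 * t + 1))} {T : Finset (Fin (2 * t + 1))}
    (hpop : ∀ x y, p0 * A.card ≤ ((thr A x y).card : ℝ) ↔ (x ∈ T ∧ y = g x)) :
    Low2 A g T β2 := by
  classical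
  intro x hx x' hx' hxx i j hij
  have hfac : (0 : ℝ) < ((t + 1).factorial : ℝ) := by exact_mod_cast Nat.factorial_pos _
  have ha0 : (0 : ℝ) < (A.card : ℝ) := lt_of_lt_of_le hfac hF
  have hθ : 0 < 2 * p0 - 1 := by linarith
  set X := thr A x (g x) ∩ thr A x' (g x') with hXdef
  have hXc : (2 * p0 - 1) * A.card ≤ (X.card : ℝ) :=
    inter_ge ((hpop x (g x)).2 ⟨hx, rfl⟩) ((hpop x' (g x')).2 ⟨hx', rfl⟩)
  have hXA : ∀ σ ∈ X, σ ∈ A ∧ σ x = g x ∧ σ x' = g x' := by
    intro σ hσ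
    obtain ⟨h1, h2⟩ := mem_inter.1 hσ
    exact ⟨(mem_filter.1 h1).1, (mem_filter.1 h1).2, (mem_filter.1 h2).2⟩
  have hp1 : 0 < p2 := by
    by_contra hcon
    push Not at hcon
    nlinarith
  have h1 : ((thr A i j).card : ℝ) ≤ β0 * A.card := by
    rcases hgap i j with h | h
    · exact h
    · exact absurd ((hpop i j).1 h) hij
  set Z : Finset (Fin (2 * t + 1)) := {x, x'} with hZ
  have hZc : Z.card = 2 := card_pair hxx
  have hXZ : ∀ σ ∈ X, ∀ i ∈ Z, σ i = g i := by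
    intro σ hσ i hi
    rw [hZ, mem_insert, mem_singleton] at hi
    rcases hi with rfl | rfl
    · exact (hXA σ hσ).2.1
    · exact (hXA σ hσ).2.2
  by_cases hix : i ∈ Z
  · have h2 : thr X i j = ∅ := by
      rw [eq_empty_iff_forall_notMem]
      intro σ hσ
      obtain ⟨h3, h4⟩ := mem_filter.1 hσ
      apply hij
      refine ⟨?_, by rw [← h4, hXZ σ h3 i hix]⟩
      rw [hZ, mem_insert, mem_singleton] at hix
      rcases hix with rfl | rfl
      · exact hx
      · exact hx'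
    rw [h2, card_empty, Nat.cast_zero]
    exact mul_nonneg hb2 (Nat.cast_nonneg _)
  · have hTX : TInt t X := fun σ hσ τ hτ => hA σ (hXA σ hσ).1 τ (hXA τ hτ).1
    have h2 := gap_star hG2 hb2 (t := t) (k := 2) (n := 2 * t + 1) (by omega) rfl ht (by omega)
      (g := g) (T := Z) hZc hTX hXZ (by
        rw [sub_eq]
        exact (mul_le_mul_of_nonneg_left hF hθ.le).trans hXc) i j hix
    rcases h2 with h2 | h2
    · exact h2
    · exfalso
      have h3 : ((thr X i j).card : ℝ) ≤ ((thr A i j).card : ℝ) := by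
        have : (thr X i j).card ≤ (thr A i j).card := by
          apply card_le_card
          intro σ hσ
          obtain ⟨h3, h4⟩ := mem_filter.1 hσ
          exact mem_filter.2 ⟨(hXA σ h3).1, h4⟩
        exact_mod_cast this
      have h4 : β0 * A.card < β0 * A.card := by
        calc β0 * A.card < (2 * p0 - 1) * p2 * A.card := mul_lt_mul_of_pos_right hB ha0
          _ = p2 * ((2 * p0 - 1) * A.card) := by ring
          _ ≤ p2 * X.card := mul_le_mul_of_nonneg_left hXc hp1.le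
          _ ≤ _ := h2
          _ ≤ _ := h3
          _ ≤ _ := h1
      exact lt_irrefl _ h4

/-- the number of popular cells is at most `t + 2` -/
theorem step_y (ht : 2 ≤ t) {A : Finset (Perm (Fin (2 * t + 1)))} {p0 : ℝ}
    (hF : ((t + 1).factorial : ℝ) ≤ A.card)
    {g : Perm (Fin (2 * t + 1))} {T : Finset (Fin (2 * t + 1))}
    (hpop : ∀ i ∈ T, p0 * A.card ≤ ((thr A i (g i)).card : ℝ))
    (hY : 2 + ((t : ℝ) + 3) * (t - 1) < (2 - (t + 3) * (1 - p0)) * ((t + 1) * t * (t - 1))) :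
    T.card ≤ t + 2 := by
  classical
  by_contra hcon
  obtain ⟨U, hUT, hUc⟩ := exists_subset_card_eq (show t + 3 ≤ T.card by omega)
  have h1 := core_many (h := t + 1) (p := p0) (by omega) (fun i hi => hpop i (hUT hi))
  rw [show 2 * t + 1 - (t + 1 + 2) = t - 2 by omega, show 2 * t + 1 - (t + 1 + 1) = t - 1 by omega] at h1
  push_cast at h1
  obtain ⟨hf1, hf2, hf3⟩ := fac3 (t := t) ht
  have hff : (0 : ℝ) < ((t - 2).factorial : ℝ) := by exact_mod_cast Nat.factorial_pos _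
  have htR : (2 : ℝ) ≤ t := by exact_mod_cast ht
  have hpos : 0 < 2 - ((t : ℝ) + 3) * (1 - p0) := by
    by_contra hneg
    push Not at hneg
    have h2 : (0 : ℝ) < ((t : ℝ) + 1) * t * (t - 1) := by
      have : (0 : ℝ) < t - 1 := by linarith
      positivity
    have h3 : (2 - ((t : ℝ) + 3) * (1 - p0)) * ((t + 1) * t * (t - 1)) ≤ 0 :=
      mul_nonpos_of_nonpos_of_nonneg hneg h2.le
    nlinarith
  have h2 : (2 - ((t : ℝ) + 3) * (1 - p0)) * ((t + 1).factorial : ℝ) ≤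
      (2 - ((t : ℝ) + 3) * (1 - p0)) * A.card := mul_le_mul_of_nonneg_left hF hpos.le
  have h3 := mul_lt_mul_of_pos_left hY hff
  rw [hf1] at h2
  rw [hf3] at h1
  nlinarith

/-- nobody misses two popular cells: the end -/
theorem endG_aux (ht : 5 ≤ t) {A : Finset (Perm (Fin (2 * t + 1)))} (hA : TInt t A)
    (hF : ((t + 1).factorial : ℝ) ≤ A.card)
    (hLink : Link t) (hK : ∀ n' t' : ℕ, 2 * t' + 3 ≤ n' → Holds n' t')
    {p0 β1 : ℝ} (hb1 : 0 ≤ β1) (hp0 : 0 < p0) (hB : β1 * (t + 1) < 2)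
    {g : Perm (Fin (2 * t + 1))} {T : Finset (Fin (2 * t + 1))} (hT2 : 2 ≤ T.card)
    (hpop : ∀ i ∈ T, p0 * A.card ≤ ((thr A i (g i)).card : ℝ))
    (hL1 : Low1 A g T β1) (hN : NoTwo A g T)
    (hE : phi t < (2 - β1 * t) * p0 ∨
      1 < (2 - β1 * t) * p0 + (t - 1) * (1 - phi t / (2 - β1 * t)) ∨
      ∃ κ, Spec t κ ∧ κ < (2 - β1 * t) * p0) : Good t A := by
  classical
  have htR : (5 : ℝ) ≤ t := by exact_mod_cast ht
  have hfac : (0 : ℝ) < ((t + 1).factorial : ℝ) := by exact_mod_cast Nat.factorial_pos _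
  have ha0 : (0 : ℝ) < (A.card : ℝ) := lt_of_lt_of_le hfac hF
  by_cases hall : ∀ σ ∈ A, ∀ i ∈ T, σ i = g i
  · exact good_of_star rfl hK hT2 hA hall
  push Not at hall
  obtain ⟨s0, hs0, x0, hx0, hsx0⟩ := hall
  have hmiss : ∀ U ⊆ T, ∀ σ ∈ A, U.card ≤ (U.filter (fun i => σ i = g i)).card + 1 := by
    intro U hU σ hσ
    have h2 := card_filter_add_card_filter_not (s := U) (fun i => σ i = g i)
    have h3 : (U.filter (fun i => ¬ σ i = g i)).card ≤ 1 := by
      rw [card_le_one]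
      intro i hi j hj
      by_contra hij
      exact (mem_filter.1 hj).2
        (hN σ hσ i (hU (mem_filter.1 hi).1) j (hU (mem_filter.1 hj).1) hij (mem_filter.1 hi).2)
    omega
  have hXne : ∀ x ∈ T, (thr A x (g x)).Nonempty := by
    intro x hx
    rw [← card_pos]
    have h1 : (0 : ℝ) < ((thr A x (g x)).card : ℝ) := lt_of_lt_of_le (mul_pos hp0 ha0) (hpop x hx)
    exact_mod_cast h1
  rcases Nat.lt_or_ge T.card (t + 1) with hTc | hTc
  · -- y = t
    have hb := fun (s : Perm (Fin (2 * t + 1))) (hs : s ∈ A) (x : Fin (2 * t + 1)) (hx : x ∈ T)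
      (hsx : s x ≠ g x) => step_bH (by omega) hA hb1 hB hL1 hs hx hsx (hXne x hx)
    have hfil : ∀ s ∈ A, ∀ x ∈ T, s x ≠ g x → T.filter (fun i => s i = g i) = T.erase x := by
      intro s hs x hx hsx
      ext i
      rw [mem_filter, mem_erase]
      constructor
      · rintro ⟨h1, h2⟩
        refine ⟨?_, h1⟩
        rintro rfl
        exact hsx h2
      · rintro ⟨h1, h2⟩
        exact ⟨h2, hN s hs x hx i h2 (fun h => h1 h.symm) hsx⟩
    have hTt : T.card = t := by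
      have h1 := (hb s0 hs0 x0 hx0 hsx0).1
      rw [hfil s0 hs0 x0 hx0 hsx0, card_erase_of_mem hx0] at h1
      omega
    set A0 := A.filter (fun σ => ∀ i ∈ T, σ i = g i) with hA0
    have hk : 0 ≤ 2 - β1 * t := by nlinarith
    have hkey : ∀ x ∈ T, ∀ s ∈ A, s x ≠ g x →
        (2 - β1 * t) * ((thr A x (g x)).card : ℝ) ≤ phi t * ((t + 1).factorial : ℝ) ∧
        (2 - β1 * t) * ((thr A x (g x)).card : ℝ) ≤ (A0.card : ℝ) := by
      intro x hx s hs hsx
      obtain ⟨_, h2⟩ := hb s hs x hx hsx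
      have h3 := hfil s hs x hx hsx
      rw [h3] at h2
      have h4 := h2 (by rw [card_erase_of_mem hx]; omega)
      have hsT : ∀ i ∈ T.erase x, s i = g i := by
        intro i hi
        rw [← h3] at hi
        exact (mem_filter.1 hi).2
      have h5 : (((univ.erase x).erase (s⁻¹ (g x))) \ T.erase x) = Tᶜ.erase (s⁻¹ (g x)) := by
        ext i
        simp only [mem_sdiff, mem_erase, mem_compl, mem_univ, and_true]
        constructor
        · rintro ⟨⟨h6, h7⟩, h8⟩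
          exact ⟨h6, fun h9 => h8 ⟨h7, h9⟩⟩
        · rintro ⟨h6, h7⟩
          refine ⟨⟨h6, ?_⟩, fun h8 => h7 h8.2⟩
          rintro rfl
          exact h7 hx
      rw [h5] at h4
      have hin : ∀ σ ∈ thr A x (g x), (∀ i ∈ T.erase x, σ i = s i) → σ ∈ A0 := by
        intro σ hσ h6
        obtain ⟨h7, h8⟩ := mem_filter.1 hσ
        refine mem_filter.2 ⟨h7, fun i hi => ?_⟩
        by_cases hix : i = x
        · rw [hix, h8]
        · rw [h6 i (mem_erase.2 ⟨hix, hi⟩), hsT i (mem_erase.2 ⟨hix, hi⟩)]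
      constructor
      · refine h4.trans ?_
        have h6 := step_e1 ht hTt hx hsx hsT
        unfold phi
        refine le_trans ?_ h6
        have h7 : ((thr A x (g x)).filter (fun σ => (∀ i ∈ T.erase x, σ i = s i) ∧
            ((Tᶜ.erase (s⁻¹ (g x))).filter (fun i => σ i = s i)).card = 1)).card ≤
            ((star g T).filter (fun σ =>
              ((Tᶜ.erase (s⁻¹ (g x))).filter (fun i => σ i = s i)).card = 1)).card := by
          apply card_le_card
          intro σ hσ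
          obtain ⟨h8, h9, h10⟩ := mem_filter.1 hσ
          exact mem_filter.2 ⟨mem_star.2 (mem_filter.1 (hin σ h8 h9)).2, h10⟩
        exact_mod_cast h7
      · refine h4.trans ?_
        have h7 : ((thr A x (g x)).filter (fun σ => (∀ i ∈ T.erase x, σ i = s i) ∧
            ((Tᶜ.erase (s⁻¹ (g x))).filter (fun i => σ i = s i)).card = 1)).card ≤ A0.card := by
          apply card_le_card
          intro σ hσ
          obtain ⟨h8, h9, _⟩ := mem_filter.1 hσ
          exact hin σ h8 h9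
        exact_mod_cast h7
    have hlow : (2 - β1 * t) * p0 * (A.card : ℝ) ≤ (A0.card : ℝ) := by
      calc (2 - β1 * t) * p0 * (A.card : ℝ) = (2 - β1 * t) * (p0 * A.card) := by ring
        _ ≤ (2 - β1 * t) * ((thr A x0 (g x0)).card : ℝ) :=
            mul_le_mul_of_nonneg_left (hpop x0 hx0) hk
        _ ≤ _ := (hkey x0 hx0 s0 hs0 hsx0).2
    rcases hE with hE | hE | ⟨κ, hS, hE⟩
    · exfalso
      have h1 := (hkey x0 hx0 s0 hs0 hsx0).1
      have h2 : (2 - β1 * t) * p0 * ((t + 1).factorial : ℝ) ≤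
          (2 - β1 * t) * ((thr A x0 (g x0)).card : ℝ) := by
        calc (2 - β1 * t) * p0 * ((t + 1).factorial : ℝ)
            = (2 - β1 * t) * (p0 * ((t + 1).factorial : ℝ)) := by ring
          _ ≤ (2 - β1 * t) * (p0 * A.card) :=
              mul_le_mul_of_nonneg_left (mul_le_mul_of_nonneg_left hF hp0.le) hk
          _ ≤ _ := mul_le_mul_of_nonneg_left (hpop x0 hx0) hk
      have h3 := mul_lt_mul_of_pos_right hE hfac
      linarith
    · have hk' : 0 < 2 - β1 * t := by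
        rcases hk.lt_or_eq with h | h
        · exact h
        · exfalso
          rw [← h] at hlow
          have h5 : (0 : ℝ) < t := by linarith
          nlinarith
      exact missed_many (by omega) hA hK hTt hN hk' (phi_nonneg t) hfac hF
        (fun x hx s hs hsx => (hkey x hx s hs hsx).1) (fun _ => hlow) hE
    · exfalso
      have h1 := hS A g T hA hTt hN hF ⟨s0, hs0, x0, hx0, hsx0⟩
      have h2 : (2 - β1 * t) * p0 * ((t + 1).factorial : ℝ) ≤ (A0.card : ℝ) := by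
        refine le_trans ?_ hlow
        exact mul_le_mul_of_nonneg_left hF (mul_nonneg hk hp0.le)
      have h3 := mul_lt_mul_of_pos_right hE hfac
      linarith
  · -- y ≥ t + 1
    obtain ⟨U, hUT, hUc⟩ := exists_subset_card_eq hTc
    obtain ⟨h2, h3⟩ := hLink A g U hUc hA (fun σ hσ => by
      have := hmiss U hUT σ hσ
      omega)
    refine ⟨by rw [sub_eq]; exact h2, fun heq => ?_⟩
    rw [sub_eq] at heq
    obtain ⟨y, hy, h4⟩ := h3 heq
    exact ⟨g, U.erase y, by rw [card_erase_of_mem hy]; omega, h4⟩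

/-- the inequalities of the general endgame -/
structure NumG (t : ℕ) (β0 p0 β1 β2 : ℝ) : Prop where
  ht : 5 ≤ t
  hb0 : 0 ≤ β0
  hb1 : 0 ≤ β1
  hb2 : 0 ≤ β2
  hp0 : 1 / 2 < p0
  ha : β0 * (2 * t) < t - 1
  hB : β1 * (t + 1) < 2
  hY : 2 + ((t : ℝ) + 3) * (t - 1) < (2 - (t + 3) * (1 - p0)) * ((t + 1) * t * (t - 1))
  hC1 : 1 < (2 - β2 * t) * (2 * p0 - 1) * (t + 1)
  hC2 : 2 + 3 / 8 * ((t : ℝ) * (t - 1)) < (2 - β2 * (t - 1)) * (2 * p0 - 1) * (t * (t + 1))
  hE : phi t < (2 - β1 * t) * p0 ∨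
      1 < (2 - β1 * t) * p0 + (t - 1) * (1 - phi t / (2 - β1 * t)) ∨
      ∃ κ, Spec t κ ∧ κ < (2 - β1 * t) * p0

/-- the general endgame -/
theorem endG {β0 p0 β1 β2 : ℝ} (N : NumG t β0 p0 β1 β2) (hG0 : Gap (2 * t + 1) t 1 β0 p0)
    (hL : ∀ (A : Finset (Perm (Fin (2 * t + 1)))) (g : Perm (Fin (2 * t + 1)))
      (T : Finset (Fin (2 * t + 1))), TInt t A → ((t + 1).factorial : ℝ) ≤ A.card →
      (∀ x y, ((thr A x y).card : ℝ) ≤ β0 * A.card ∨ p0 * A.card ≤ ((thr A x y).card : ℝ)) →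
      (∀ x y, p0 * A.card ≤ ((thr A x y).card : ℝ) ↔ (x ∈ T ∧ y = g x)) →
      Low1 A g T β1 ∧ Low2 A g T β2)
    (hLink : Link t) (hK : ∀ n' t' : ℕ, 2 * t' + 3 ≤ n' → Holds n' t') : Holds (2 * t + 1) t := by
  classical
  have ht := N.ht
  have htR : (5 : ℝ) ≤ t := by exact_mod_cast ht
  apply holds_of_good
  intro A hA
  by_cases hF' : A.card < (2 * t + 1 - t).factorial
  · exact good_of_lt hF'
  rw [not_lt, sub_eq] at hF'
  have hF : ((t + 1).factorial : ℝ) ≤ A.card := by exact_mod_cast hF'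
  have hfac : (0 : ℝ) < ((t + 1).factorial : ℝ) := by exact_mod_cast Nat.factorial_pos _
  have ha0 : (0 : ℝ) < (A.card : ℝ) := lt_of_lt_of_le hfac hF
  have hne : A.Nonempty := by
    rw [← card_pos]
    exact_mod_cast ha0
  have hgap : ∀ x y, ((thr A x y).card : ℝ) ≤ β0 * A.card ∨
      p0 * A.card ≤ ((thr A x y).card : ℝ) :=
    hG0 A hA (by rw [sub_eq, one_mul]; exact hF)
  obtain ⟨g, T, hpop, hcard⟩ := exists_pop hne N.hp0
  have hβ1 : β0 ≤ 1 := by nlinarith [N.ha, N.hb0]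
  have h1 := pop_ge hA hne hβ1 hgap
  rw [hcard] at h1
  push_cast at h1
  have hT2 : 2 ≤ T.card := by
    by_contra hcon
    push Not at hcon
    have h2 : (T.card : ℝ) ≤ 1 := by exact_mod_cast (by omega : T.card ≤ 1)
    nlinarith [N.ha, N.hb0]
  obtain ⟨hL1, hL2⟩ := hL A g T hA hF hgap hpop
  have hpop' : ∀ i ∈ T, p0 * A.card ≤ ((thr A i (g i)).card : ℝ) := fun i hi =>
    (hpop i (g i)).2 ⟨hi, rfl⟩
  have hTc := step_y (by omega) hF hpop' N.hY
  have hXne : ∀ x ∈ T, (thr A x (g x)).Nonempty := by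
    intro x hx
    rw [← card_pos]
    have h1 : (0 : ℝ) < ((thr A x (g x)).card : ℝ) :=
      lt_of_lt_of_le (mul_pos (by linarith [N.hp0]) ha0) (hpop' x hx)
    exact_mod_cast h1
  have hN : NoTwo A g T := by
    intro σ hσ i hi j hj hij h2
    by_contra h3
    exact step_cH ht hA hF N.hb2 N.hp0 N.hC1 N.hC2 hL2 hTc hi hj hij (hpop' i hi) (hpop' j hj)
      hσ h2 h3 (step_bH (by omega) hA N.hb1 N.hB hL1 hσ hi h2 (hXne i hi)).1
  exact endG_aux ht hA hF hLink hK N.hb1 (by linarith [N.hp0]) N.hB hT2 hpop' hL1 hN N.hE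

/-- one gap only -/
theorem endG_top {β0 p0 : ℝ} (N : NumG t β0 p0 (β0 / p0) (β0 / (2 * p0 - 1)))
    (hG0 : Gap (2 * t + 1) t 1 β0 p0) (hLink : Link t)
    (hK : ∀ n' t' : ℕ, 2 * t' + 3 ≤ n' → Holds n' t') : Holds (2 * t + 1) t :=
  endG N hG0 (fun _ _ _ _ _ hgap hpop =>
    ⟨low1_top N.hb0 (by linarith [N.hp0]) hgap hpop, low2_top N.hb0 N.hp0 hgap hpop⟩) hLink hK

/-- two gaps: level two from level one -/
theorem endG_one {β0 p0 β1 p1 : ℝ} (N : NumG t β0 p0 β1 (β1 * p0 / (2 * p0 - 1)))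
    (hB : β0 < p0 * p1) (hG0 : Gap (2 * t + 1) t 1 β0 p0) (hG1 : Gap (2 * t) (t - 1) p0 β1 p1)
    (hLink : Link t) (hK : ∀ n' t' : ℕ, 2 * t' + 3 ≤ n' → Holds n' t') : Holds (2 * t + 1) t :=
  endG N hG0 (fun A g T hA hF hgap hpop => by
    have h1 := low1_gap (le_trans (by norm_num) N.ht) hA hF N.hb0 N.hb1 (by linarith [N.hp0]) hB hgap hG1 hpop
    exact ⟨h1, low2_of_low1 N.hb1 N.hp0 hpop h1⟩) hLink hK

/-- two gaps: level one from the top gap -/
theorem endG_one' {β0 p0 β2 p2 : ℝ} (N : NumG t β0 p0 (β0 / p0) β2)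
    (hB : β0 < (2 * p0 - 1) * p2) (hG0 : Gap (2 * t + 1) t 1 β0 p0)
    (hG2 : Gap (2 * t - 1) (t - 2) (2 * p0 - 1) β2 p2)
    (hLink : Link t) (hK : ∀ n' t' : ℕ, 2 * t' + 3 ≤ n' → Holds n' t') : Holds (2 * t + 1) t :=
  endG N hG0 (fun A g T hA hF hgap hpop =>
    ⟨low1_top N.hb0 (by linarith [N.hp0]) hgap hpop,
      low2_gap (le_trans (by norm_num) N.ht) hA hF N.hb0 N.hb2 N.hp0 hB hgap hG2 hpop⟩) hLink hK

/-- three gaps -/
theorem endG_two {β0 p0 β1 p1 β2 p2 : ℝ} (N : NumG t β0 p0 β1 β2)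
    (hB1 : β0 < p0 * p1) (hB2 : β0 < (2 * p0 - 1) * p2) (hG0 : Gap (2 * t + 1) t 1 β0 p0)
    (hG1 : Gap (2 * t) (t - 1) p0 β1 p1) (hG2 : Gap (2 * t - 1) (t - 2) (2 * p0 - 1) β2 p2)
    (hLink : Link t) (hK : ∀ n' t' : ℕ, 2 * t' + 3 ≤ n' → Holds n' t') : Holds (2 * t + 1) t :=
  endG N hG0 (fun A g T hA hF hgap hpop =>
    ⟨low1_gap (le_trans (by norm_num) N.ht) hA hF N.hb0 N.hb1 (by linarith [N.hp0]) hB1 hgap hG1 hpop,
      low2_gap (le_trans (by norm_num) N.ht) hA hF N.hb0 N.hb2 N.hp0 hB2 hgap hG2 hpop⟩) hLink hK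

end Pool.EG
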