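import Pool.Agent.Work.MP_46fa68_86.OneHit

/-! # endgame: general version, the lemmas (helper86, on top of helper76's EndA-EndC) -/

set_option autoImplicit false

open Finset Equiv

namespace Pool.EG

variable {n : ℕ}

/-- like `core`, the popular rows given as a set -/
theorem core_H {X : Finset (Perm (Fin n))} {s : Perm (Fin n)} {R H : Finset (Fin n)} {t : ℕ} {β : ℝ}
    (hR : R.card ≤ 2 * t - 1) (ht : 1 ≤ t) (hHR : H ⊆ R)
    (hX : ∀ σ ∈ X, t ≤ (R.filter (fun i => σ i = s i)).card)
    (hgap : ∀ i ∈ R, i ∉ H → ((thr X i (s i)).card : ℝ) ≤ β * X.card)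
    (hβ : 0 ≤ β) (hβ2 : β * (t + 1) < 2) (hne : X.Nonempty) :
    t ≤ H.card + 1 := by
  classical
  set a : ℝ := (X.card : ℝ) with ha
  have ha0 : 0 < a := by rw [ha]; exact_mod_cast card_pos.2 hne
  have h1 : (t : ℝ) * a ≤ ∑ i ∈ R, ((thr X i (s i)).card : ℝ) := by
    have h2 : t * X.card ≤ ∑ i ∈ R, (thr X i (s i)).card := by
      rw [sum_thr_hits]
      calc t * X.card = ∑ σ ∈ X, t := by rw [sum_const, smul_eq_mul, mul_comm]
        _ ≤ _ := sum_le_sum hX
    rw [ha]
    exact_mod_cast h2
  have h2 : ∑ i ∈ R, ((thr X i (s i)).card : ℝ) ≤ ∑ i ∈ R, (β * a + if i ∈ H then (1 - β) * a else 0) := by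
    refine sum_le_sum fun i hi => ?_
    split_ifs with h3
    · have : ((thr X i (s i)).card : ℝ) ≤ a := by rw [ha]; exact_mod_cast thr_le X i (s i)
      linarith
    · have := hgap i hi h3
      linarith
  have h3 : ∑ i ∈ R, (β * a + if i ∈ H then (1 - β) * a else 0) =
      R.card * (β * a) + H.card * ((1 - β) * a) := by
    rw [sum_add_distrib, sum_const, nsmul_eq_mul, sum_ite_mem,
      inter_eq_right.2 hHR, sum_const, nsmul_eq_mul]
  have h4 : (t : ℝ) ≤ R.card * β + H.card * (1 - β) := by
    have h5 : (t : ℝ) * a ≤ (R.card * β + H.card * (1 - β)) * a := by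
      calc (t : ℝ) * a ≤ _ := h1
        _ ≤ _ := h2
        _ = _ := by rw [h3]; ring
    exact le_of_mul_le_mul_right h5 ha0
  by_contra hcon
  push Not at hcon
  have h5 : (H.card : ℝ) + 2 ≤ t := by exact_mod_cast hcon
  have h6 : (R.card : ℝ) ≤ 2 * t - 1 := by
    have : R.card + 1 ≤ 2 * t := by omega
    have : (R.card : ℝ) + 1 ≤ 2 * t := by exact_mod_cast this
    linarith
  have ht2 : (1 : ℝ) ≤ t := by exact_mod_cast ht
  have hβ1 : β ≤ 1 := by nlinarith
  nlinarith [mul_le_mul_of_nonneg_right h6 hβ, mul_le_mul_of_nonneg_right h5 (sub_nonneg.2 hβ1)]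

/-- `h = t`, with `3/8` in place of `1/2` -/
theorem core_t4 {t : ℕ} (hn : n = 2 * t + 1) (ht : 5 ≤ t) {X : Finset (Perm (Fin n))}
    {g s : Perm (Fin n)} {Z R H : Finset (Fin n)} {β : ℝ}
    (hZ : Z.card = 2) (hXZ : ∀ σ ∈ X, ∀ i ∈ Z, σ i = g i) (hZR : Disjoint Z R)
    (hcR : ∀ i ∈ R, ∀ j ∈ Z, s i ≠ g j)
    (hR : R.card ≤ 2 * t - 1) (hHR : H ⊆ R) (hH : H.card = t)
    (hX : ∀ σ ∈ X, t ≤ (R.filter (fun i => σ i = s i)).card)
    (hgap : ∀ i ∈ R, i ∉ H → ((thr X i (s i)).card : ℝ) ≤ β * X.card) (hβ : 0 ≤ β) :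
    (2 - β * (t - 1)) * X.card ≤
      2 * ((t - 1).factorial : ℝ) + 3 / 8 * (t * (t - 1) * ((t - 1).factorial : ℝ)) := by
  classical
  set a : ℝ := (X.card : ℝ) with ha
  have ha0 : 0 ≤ a := Nat.cast_nonneg _
  set O := R \ H with hO
  have hOc : O.card ≤ t - 1 := by
    rw [hO, card_sdiff_of_subset hHR]
    omega
  have ht1 : ((t - 1 : ℕ) : ℝ) = t - 1 := by
    rw [Nat.cast_sub (by omega)]
    simp
  -- the sum of u
  have h1 : ∑ σ ∈ X, ((O.filter (fun i => σ i = s i)).card : ℝ) ≤ (t - 1) * (β * a) := by
    have h2 : ∑ σ ∈ X, ((O.filter (fun i => σ i = s i)).card : ℝ) =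
        ∑ i ∈ O, ((thr X i (s i)).card : ℝ) := by
      have := sum_thr_hits X s O
      exact_mod_cast this.symm
    rw [h2]
    calc ∑ i ∈ O, ((thr X i (s i)).card : ℝ) ≤ ∑ i ∈ O, β * a :=
          sum_le_sum fun i hi => hgap i (mem_sdiff.1 hi).1 (mem_sdiff.1 hi).2
      _ = O.card * (β * a) := by rw [sum_const, nsmul_eq_mul]
      _ ≤ (t - 1) * (β * a) := by
          have h4 : (O.card : ℝ) ≤ t - 1 := by rw [← ht1]; exact_mod_cast hOc
          exact mul_le_mul_of_nonneg_right h4 (mul_nonneg hβ ha0)
  -- bad members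
  let B : Fin n → Fin n → Finset (Perm (Fin n)) := fun i0 i1 =>
    X.filter (fun σ => (∀ i ∈ insert i1 (H.erase i0), σ i = s i) ∧
      ∀ i ∈ insert i0 (O.erase i1), σ i ≠ s i)
  let B' : Finset (Perm (Fin n)) := (H ×ˢ O).biUnion (fun c => B c.1 c.2)
  have h2 : ∀ σ ∈ X, (2 : ℝ) - 2 * (if (∀ i ∈ H, σ i = s i) then 1 else 0) -
      (if σ ∈ B' then 1 else 0) ≤ ((O.filter (fun i => σ i = s i)).card : ℝ) := by
    intro σ hσ
    have h3 : (R.filter (fun i => σ i = s i)).card =
        (H.filter (fun i => σ i = s i)).card + (O.filter (fun i => σ i = s i)).card := by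
      rw [← card_union_of_disjoint (disjoint_filter_filter disjoint_sdiff), ← filter_union,
        union_sdiff_of_subset hHR]
    have h4 := hX σ hσ
    have hnn : (0 : ℝ) ≤ ((O.filter (fun i => σ i = s i)).card : ℝ) := Nat.cast_nonneg _
    by_cases h5 : ∀ i ∈ H, σ i = s i
    · rw [if_pos h5]
      split_ifs <;> linarith
    · rw [if_neg h5]
      have h6 : (H.filter (fun i => σ i = s i)).card < H.card := by
        apply card_lt_card
        refine (filter_subset _ _).ssubset_of_ne ?_
        intro h7
        exact h5 fun i hi => by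
          rw [← h7] at hi
          exact (mem_filter.1 hi).2
      by_cases h7 : 2 ≤ (O.filter (fun i => σ i = s i)).card
      · have h8 : (2 : ℝ) ≤ ((O.filter (fun i => σ i = s i)).card : ℝ) := by exact_mod_cast h7
        split_ifs <;> linarith
      · have h8 : (O.filter (fun i => σ i = s i)).card = 1 := by omega
        have h9 : (H.filter (fun i => σ i = s i)).card + 1 = H.card := by omega
        -- the missed row
        have h10 : (H \ H.filter (fun i => σ i = s i)).card = 1 := by
          rw [card_sdiff_of_subset (filter_subset _ _)]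
          omega
        obtain ⟨i0, hi0⟩ := card_eq_one.1 h10
        obtain ⟨i1, hi1⟩ := card_eq_one.1 h8
        have hi0H : i0 ∈ H ∧ σ i0 ≠ s i0 := by
          have : i0 ∈ H \ H.filter (fun i => σ i = s i) := by rw [hi0]; exact mem_singleton_self _
          rw [mem_sdiff, mem_filter] at this
          exact ⟨this.1, fun h => this.2 ⟨this.1, h⟩⟩
        have hi1O : i1 ∈ O ∧ σ i1 = s i1 := by
          have : i1 ∈ O.filter (fun i => σ i = s i) := by rw [hi1]; exact mem_singleton_self _
          exact mem_filter.1 this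
        have h11 : σ ∈ B' := by
          refine mem_biUnion.2 ⟨(i0, i1), mem_product.2 ⟨hi0H.1, hi1O.1⟩, ?_⟩
          refine mem_filter.2 ⟨hσ, ?_, ?_⟩
          · intro i hi
            rcases mem_insert.1 hi with rfl | hi
            · exact hi1O.2
            · by_contra hcon
              have h12 : i ∈ H \ H.filter (fun i => σ i = s i) :=
                mem_sdiff.2 ⟨(mem_erase.1 hi).2, fun h => hcon (mem_filter.1 h).2⟩
              rw [hi0, mem_singleton] at h12
              exact (mem_erase.1 hi).1 h12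
          · intro i hi
            rcases mem_insert.1 hi with rfl | hi
            · exact hi0H.2
            · intro hcon
              have h12 : i ∈ O.filter (fun i => σ i = s i) :=
                mem_filter.2 ⟨(mem_erase.1 hi).2, hcon⟩
              rw [hi1, mem_singleton] at h12
              exact (mem_erase.1 hi).1 h12
        rw [if_pos h11]
        have h12 : ((O.filter (fun i => σ i = s i)).card : ℝ) = 1 := by rw [h8]; simp
        rw [h12]
        norm_num
  -- number of members containing H
  have h3 : ((X.filter (fun σ => ∀ i ∈ H, σ i = s i)).card : ℝ) ≤ ((t - 1).factorial : ℝ) := by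
    have h4 : (X.filter (fun σ => ∀ i ∈ H, σ i = s i)).card ≤ (t - 1).factorial := by
      calc (X.filter (fun σ => ∀ i ∈ H, σ i = s i)).card
          ≤ ((star g Z).filter (fun σ => ∀ i ∈ H, σ i = s i)).card := by
            apply card_le_card
            intro σ hσ
            rw [mem_filter] at hσ ⊢
            exact ⟨mem_star.2 (hXZ σ hσ.1), hσ.2⟩
        _ = (n - (Z.card + H.card)).factorial :=
            card_two (disjoint_of_subset_right hHR hZR) (fun i hi j hj => hcR i (hHR hi) j hj)
        _ = (t - 1).factorial := by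
            rw [hZ, hH]
            congr 1
            omega
    exact_mod_cast h4
  -- number of bad members
  have h4 : ((B'.card : ℕ) : ℝ) ≤ 3 / 8 * (t * (t - 1) * ((t - 1).factorial : ℝ)) := by
    have h5 : B'.card ≤ ∑ c ∈ H ×ˢ O, (B c.1 c.2).card := card_biUnion_le
    -- each one
    have h6 : ∀ i0 ∈ H, ∀ i1 ∈ O, (O.card : ℝ) * ((B i0 i1).card : ℝ) ≤
        3 / 8 * (((t - 1 : ℕ) : ℝ) * ((t - 1).factorial : ℝ)) := by
      intro i0 hi0 i1 hi1
      have hi1H : i1 ∉ H := (mem_sdiff.1 hi1).2
      have hi1R : i1 ∈ R := (mem_sdiff.1 hi1).1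
      set S := insert i1 (H.erase i0) with hS
      have hSR : S ⊆ R := by
        intro i hi
        rcases mem_insert.1 hi with rfl | hi
        · exact hi1R
        · exact hHR (mem_erase.1 hi).2
      have hScard : S.card = t := by
        rw [hS, card_insert_of_notMem (fun h => hi1H (mem_erase.1 h).2), card_erase_of_mem hi0, hH]
        omega
      have hZS : Disjoint Z S := disjoint_of_subset_right hSR hZR
      obtain ⟨g', hg'⟩ := exists_ext (Z ∪ S) (fun i => if i ∈ Z then g i else s i) (by
        intro i hi j hj hij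
        have hi' := mem_union.1 (mem_coe.1 hi)
        have hj' := mem_union.1 (mem_coe.1 hj)
        simp only at hij
        split_ifs at hij with h1 h2 h2
        · exact g.injective hij
        · exact absurd hij.symm (hcR j (hSR (hj'.resolve_left h2)) i h1)
        · exact absurd hij (hcR i (hSR (hi'.resolve_left h1)) j h2)
        · exact s.injective hij)
      have hg1 : ∀ i ∈ Z, g' i = g i := fun i hi => by
        rw [hg' i (mem_union_left _ hi), if_pos hi]
      have hg2 : ∀ i ∈ S, g' i = s i := fun i hi => by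
        rw [hg' i (mem_union_right _ hi), if_neg (fun h => disjoint_left.1 hZS h hi)]
      set R' := insert i0 (O.erase i1) with hR'
      have hi0O : i0 ∉ O := fun h => (mem_sdiff.1 h).2 hi0
      have hR'R : R' ⊆ R := by
        intro i hi
        rcases mem_insert.1 hi with rfl | hi
        · exact hHR hi0
        · exact (mem_sdiff.1 (mem_erase.1 hi).2).1
      have hR'card : R'.card = O.card := by
        rw [hR', card_insert_of_notMem (fun h => hi0O (mem_erase.1 h).2), card_erase_of_mem hi1]
        have : 0 < O.card := card_pos.2 ⟨i1, hi1⟩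
        omega
      have hSR' : Disjoint S R' := by
        rw [disjoint_left]
        intro i hi hi2
        rcases mem_insert.1 hi with rfl | hi
        · rcases mem_insert.1 hi2 with h | h
          · exact hi1H (h ▸ hi0)
          · exact (mem_erase.1 h).1 rfl
        · rcases mem_insert.1 hi2 with h | h
          · exact (mem_erase.1 hi).1 h
          · exact (mem_sdiff.1 (mem_erase.1 h).2).2 (mem_erase.1 hi).2
      have hdis : Disjoint (Z ∪ S) R' := by
        rw [disjoint_union_left]
        exact ⟨disjoint_of_subset_right hR'R hZR, hSR'⟩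
      have hcR' : ∀ i ∈ R', ∀ j ∈ Z ∪ S, s i ≠ g' j := by
        intro i hi j hj
        rcases mem_union.1 hj with hj | hj
        · rw [hg1 j hj]
          exact hcR i (hR'R hi) j hj
        · rw [hg2 j hj]
          intro h
          have := s.injective h
          subst this
          exact disjoint_left.1 hSR' hj hi
      have h7 := avoid_le4 hdis hcR'
      have hTc : (Z ∪ S).card = t + 2 := by
        rw [card_union_of_disjoint hZS, hZ, hScard]
        omega
      rw [hTc, hR'card, show n - (t + 2) = t - 1 by omega, show n - (t + 2 + 1) = t - 1 - 1 by omega,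
        show n - (t + 2 + 2) = t - 1 - 2 by omega, show n - (t + 2 + 3) = t - 1 - 3 by omega,
        show n - (t + 2 + 4) = t - 1 - 4 by omega] at h7
      have h8 : (B i0 i1).card ≤ ((star g' (Z ∪ S)).filter (fun σ => ∀ i ∈ R', σ i ≠ s i)).card := by
        apply card_le_card
        intro σ hσ
        obtain ⟨hσ1, hσ2, hσ3⟩ := mem_filter.1 hσ
        refine mem_filter.2 ⟨mem_star.2 fun i hi => ?_, hσ3⟩
        rcases mem_union.1 hi with hi | hi
        · rw [hXZ σ hσ1 i hi, hg1 i hi]
        · rw [hσ2 i hi, hg2 i hi]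
      have h9 : (B i0 i1).card + O.card * (t - 1 - 1).factorial + O.card.choose 3 * (t - 1 - 3).factorial ≤
          (t - 1).factorial + O.card.choose 2 * (t - 1 - 2).factorial +
            O.card.choose 4 * (t - 1 - 4).factorial := by
        refine le_trans (Nat.add_le_add_right (Nat.add_le_add_right h8 _) _) h7
      exact one_hit4 (by omega) hOc h9
    rcases Nat.eq_zero_or_pos O.card with h7 | h7
    · have h8 : B'.card = 0 := by
        have h9 : H ×ˢ O = ∅ := by rw [card_eq_zero.1 h7, product_empty]
        have h10 : B' = ∅ := by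
          change (H ×ˢ O).biUnion (fun c => B c.1 c.2) = ∅
          rw [h9, biUnion_empty]
        rw [h10, card_empty]
      rw [h8, Nat.cast_zero]
      have : (0 : ℝ) ≤ t - 1 := by rw [← ht1]; exact Nat.cast_nonneg _
      positivity
    · have h8 : (B'.card : ℝ) ≤ ∑ c ∈ H ×ˢ O, ((B c.1 c.2).card : ℝ) := by exact_mod_cast h5
      have hOpos : (0 : ℝ) < O.card := by exact_mod_cast h7
      have h9 : ∑ c ∈ H ×ˢ O, ((B c.1 c.2).card : ℝ) ≤
          ∑ c ∈ H ×ˢ O, (3 / 8 * (((t - 1 : ℕ) : ℝ) * ((t - 1).factorial : ℝ)) / O.card) := by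
        refine sum_le_sum fun c hc => ?_
        rw [mem_product] at hc
        rw [le_div_iff₀ hOpos, mul_comm]
        exact h6 c.1 hc.1 c.2 hc.2
      rw [sum_const, card_product, hH, nsmul_eq_mul] at h9
      calc (B'.card : ℝ) ≤ _ := h8
        _ ≤ _ := h9
        _ = 3 / 8 * (t * (t - 1) * ((t - 1).factorial : ℝ)) := by
            rw [ht1]
            push_cast
            field_simp
  have h5 := sum_le_sum h2
  rw [sum_sub_distrib, sum_sub_distrib, ← mul_sum, sum_const, nsmul_eq_mul, sum_boole,
    sum_boole] at h5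
  have h6 : ((X.filter (fun σ => σ ∈ B')).card : ℝ) ≤ (B'.card : ℝ) := by
    have : (X.filter (fun σ => σ ∈ B')).card ≤ B'.card :=
      card_le_card fun σ hσ => (mem_filter.1 hσ).2
    exact_mod_cast this
  linarith

end Pool.EG
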