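import Pool.Agent.Work.MP_46fa68_86.EndG1
import Pool.Agent.Work.MP_46fa68_76.EndD
import Pool.Agent.Work.MP_46fa68_76.EndE

/-! # endgame: general version (helper86, on top of helper76's EndA-EndE)

`A` is `t`-intersecting in `S_(2t+1)`, `|A| ≥ (t+1)!`, `Y` = popular cells (density `≥ p0`), given by `g` on `T`,
all other cells have density `≤ β0`.  The only further input is: cells which are not popular have density `≤ β1`
in `A_c`, `c` popular (`Low1`), and density `≤ β2` in `A_c ∩ A_c'`, `c, c'` popular (`Low2`).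
-/

set_option autoImplicit false

open Finset Equiv

namespace Pool.EG

variable {n t : ℕ}

/-- density at most `β` of the unpopular cells inside a popular cell -/
def Low1 (A : Finset (Perm (Fin n))) (g : Perm (Fin n)) (T : Finset (Fin n)) (β : ℝ) : Prop :=
  ∀ x ∈ T, ∀ i j : Fin n, ¬ (i ∈ T ∧ j = g i) →
    ((thr (thr A x (g x)) i j).card : ℝ) ≤ β * ((thr A x (g x)).card : ℝ)

/-- density at most `β` of the unpopular cells inside two popular cells -/
def Low2 (A : Finset (Perm (Fin n))) (g : Perm (Fin n)) (T : Finset (Fin n)) (β : ℝ) : Prop :=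
  ∀ x ∈ T, ∀ x' ∈ T, x ≠ x' → ∀ i j : Fin n, ¬ (i ∈ T ∧ j = g i) →
    ((thr (thr A x (g x) ∩ thr A x' (g x')) i j).card : ℝ) ≤
      β * ((thr A x (g x) ∩ thr A x' (g x')).card : ℝ)

/-- exactly `t - 1` popular cells on `s`: many members contain them all and hit `s` exactly once more -/
theorem core_eq1 {X : Finset (Perm (Fin n))} {s : Perm (Fin n)} {R H : Finset (Fin n)} {β : ℝ}
    (hR : R.card ≤ 2 * t - 1) (hHR : H ⊆ R) (hH : H.card + 1 = t)
    (hX : ∀ σ ∈ X, t ≤ (R.filter (fun i => σ i = s i)).card)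
    (hgap : ∀ i ∈ R, i ∉ H → ((thr X i (s i)).card : ℝ) ≤ β * X.card)
    (hβ : 0 ≤ β) :
    (2 - β * t) * X.card ≤ ((X.filter (fun σ => (∀ i ∈ H, σ i = s i) ∧
      ((R \ H).filter (fun i => σ i = s i)).card = 1)).card : ℝ) := by
  classical
  set a : ℝ := (X.card : ℝ) with ha
  have h1 : ∑ σ ∈ X, (((R \ H).filter (fun i => σ i = s i)).card : ℝ) ≤ t * (β * a) := by
    have h2 : ∑ σ ∈ X, (((R \ H).filter (fun i => σ i = s i)).card : ℝ) =
        ∑ i ∈ R \ H, ((thr X i (s i)).card : ℝ) := by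
      have := sum_thr_hits X s (R \ H)
      exact_mod_cast this.symm
    rw [h2]
    calc ∑ i ∈ R \ H, ((thr X i (s i)).card : ℝ) ≤ ∑ i ∈ R \ H, β * a :=
          sum_le_sum fun i hi => hgap i (mem_sdiff.1 hi).1 (mem_sdiff.1 hi).2
      _ = (R \ H).card * (β * a) := by rw [sum_const, nsmul_eq_mul]
      _ ≤ t * (β * a) := by
          have h3 : (R \ H).card ≤ t := by
            rw [card_sdiff_of_subset hHR]
            omega
          have h4 : ((R \ H).card : ℝ) ≤ t := by exact_mod_cast h3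
          exact mul_le_mul_of_nonneg_right h4 (mul_nonneg hβ (by rw [ha]; positivity))
  have h2 : ∀ σ ∈ X, (2 : ℝ) - (if ((∀ i ∈ H, σ i = s i) ∧
      ((R \ H).filter (fun i => σ i = s i)).card = 1) then 1 else 0) ≤
      (((R \ H).filter (fun i => σ i = s i)).card : ℝ) := by
    intro σ hσ
    have h3 : (R.filter (fun i => σ i = s i)).card =
        (H.filter (fun i => σ i = s i)).card + ((R \ H).filter (fun i => σ i = s i)).card := by
      rw [← card_union_of_disjoint (disjoint_filter_filter disjoint_sdiff), ← filter_union,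
        union_sdiff_of_subset hHR]
    have h4 := hX σ hσ
    have h6 : (H.filter (fun i => σ i = s i)).card ≤ H.card := card_filter_le _ _
    have h7 : 1 ≤ ((R \ H).filter (fun i => σ i = s i)).card := by omega
    have h8 : (1 : ℝ) ≤ (((R \ H).filter (fun i => σ i = s i)).card : ℝ) := by exact_mod_cast h7
    split_ifs with h5
    · linarith
    · have h9 : 2 ≤ ((R \ H).filter (fun i => σ i = s i)).card := by
        by_contra hcon
        have h10 : ((R \ H).filter (fun i => σ i = s i)).card = 1 := by omega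
        apply h5
        refine ⟨?_, h10⟩
        by_contra h11
        have h12 : (H.filter (fun i => σ i = s i)).card < H.card := by
          apply card_lt_card
          refine (filter_subset _ _).ssubset_of_ne ?_
          intro h7
          exact h11 fun i hi => by
            rw [← h7] at hi
            exact (mem_filter.1 hi).2
        omega
      have h10 : (2 : ℝ) ≤ (((R \ H).filter (fun i => σ i = s i)).card : ℝ) := by exact_mod_cast h9
      linarith
  have h3 : ∑ σ ∈ X, ((2 : ℝ) - (if ((∀ i ∈ H, σ i = s i) ∧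
      ((R \ H).filter (fun i => σ i = s i)).card = 1) then 1 else 0)) =
      2 * a - ((X.filter (fun σ => (∀ i ∈ H, σ i = s i) ∧
      ((R \ H).filter (fun i => σ i = s i)).card = 1)).card : ℝ) := by
    rw [sum_sub_distrib, sum_const, nsmul_eq_mul, sum_boole]
    ring
  have h4 := sum_le_sum h2
  rw [h3] at h4
  linarith

/-- at most `t + 2` popular cells: the count -/
theorem core_many {n : ℕ} {A : Finset (Perm (Fin n))} {g : Perm (Fin n)} {U : Finset (Fin n)} {p : ℝ}
    {h : ℕ} (hU : U.card = h + 2)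
    (hpop : ∀ i ∈ U, p * A.card ≤ ((thr A i (g i)).card : ℝ)) :
    (2 - (h + 2) * (1 - p)) * A.card ≤
      2 * ((n - (h + 2)).factorial : ℝ) + (h + 2) * ((n - (h + 1)).factorial : ℝ) := by
  classical
  set a : ℝ := (A.card : ℝ) with ha
  have h1 : ((h : ℝ) + 2) * (p * a) ≤ ∑ σ ∈ A, ((U.filter (fun i => σ i = g i)).card : ℝ) := by
    have h2 : ∑ σ ∈ A, ((U.filter (fun i => σ i = g i)).card : ℝ) =
        ∑ i ∈ U, ((thr A i (g i)).card : ℝ) := by
      have := sum_thr_hits A g U
      exact_mod_cast this.symm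
    rw [h2]
    calc ((h : ℝ) + 2) * (p * a) = ∑ i ∈ U, p * a := by
          rw [sum_const, hU, nsmul_eq_mul]
          push_cast
          ring
      _ ≤ _ := sum_le_sum hpop
  let B' : Finset (Perm (Fin n)) := U.biUnion (fun i0 => A.filter (fun σ => ∀ i ∈ U.erase i0, σ i = g i))
  have h2 : ∀ σ ∈ A, ((U.filter (fun i => σ i = g i)).card : ℝ) ≤
      (h : ℝ) + 2 * (if (∀ i ∈ U, σ i = g i) then 1 else 0) + (if σ ∈ B' then 1 else 0) := by
    intro σ hσ
    have h3 : (U.filter (fun i => σ i = g i)).card ≤ U.card := card_filter_le _ _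
    by_cases h5 : ∀ i ∈ U, σ i = g i
    · rw [if_pos h5]
      have h6 : ((U.filter (fun i => σ i = g i)).card : ℝ) ≤ h + 2 := by
        rw [hU] at h3
        exact_mod_cast h3
      split_ifs <;> linarith
    · rw [if_neg h5]
      have h6 : (U.filter (fun i => σ i = g i)).card < U.card := by
        apply card_lt_card
        refine (filter_subset _ _).ssubset_of_ne ?_
        intro h7
        exact h5 fun i hi => by
          rw [← h7] at hi
          exact (mem_filter.1 hi).2
      by_cases h7 : (U.filter (fun i => σ i = g i)).card ≤ h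
      · have h8 : ((U.filter (fun i => σ i = g i)).card : ℝ) ≤ h := by exact_mod_cast h7
        split_ifs <;> linarith
      · have h8 : (U.filter (fun i => σ i = g i)).card = h + 1 := by omega
        have h10 : (U \ U.filter (fun i => σ i = g i)).card = 1 := by
          rw [card_sdiff_of_subset (filter_subset _ _)]
          omega
        obtain ⟨i0, hi0⟩ := card_eq_one.1 h10
        have hi0U : i0 ∈ U := by
          have : i0 ∈ U \ U.filter (fun i => σ i = g i) := by rw [hi0]; exact mem_singleton_self _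
          exact (mem_sdiff.1 this).1
        have h11 : σ ∈ B' := by
          refine mem_biUnion.2 ⟨i0, hi0U, mem_filter.2 ⟨hσ, ?_⟩⟩
          intro i hi
          by_contra hcon
          have h12 : i ∈ U \ U.filter (fun i => σ i = g i) :=
            mem_sdiff.2 ⟨(mem_erase.1 hi).2, fun h => hcon (mem_filter.1 h).2⟩
          rw [hi0, mem_singleton] at h12
          exact (mem_erase.1 hi).1 h12
        rw [if_pos h11, h8]
        push_cast
        linarith
  have hcnt : ∀ S ⊆ U, (A.filter (fun σ => ∀ i ∈ S, σ i = g i)).card ≤ (n - S.card).factorial := by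
    intro S hS
    rw [← card_star g S]
    apply card_le_card
    intro σ hσ
    exact mem_star.2 (mem_filter.1 hσ).2
  have h3 : ((A.filter (fun σ => ∀ i ∈ U, σ i = g i)).card : ℝ) ≤ ((n - (h + 2)).factorial : ℝ) := by
    have h4 := hcnt U (Subset.refl _)
    rw [hU] at h4
    exact_mod_cast h4
  have h4 : (B'.card : ℝ) ≤ (h + 2) * ((n - (h + 1)).factorial : ℝ) := by
    have h5 : B'.card ≤ ∑ i0 ∈ U, (A.filter (fun σ => ∀ i ∈ U.erase i0, σ i = g i)).card :=
      card_biUnion_le
    have h6 : ∑ i0 ∈ U, (A.filter (fun σ => ∀ i ∈ U.erase i0, σ i = g i)).card ≤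
        ∑ i0 ∈ U, (n - (h + 1)).factorial := by
      refine sum_le_sum fun i0 hi0 => ?_
      have h7 := hcnt (U.erase i0) (erase_subset _ _)
      rw [card_erase_of_mem hi0, hU, show h + 2 - 1 = h + 1 by omega] at h7
      exact h7
    rw [sum_const, hU, smul_eq_mul] at h6
    have h7 := le_trans h5 h6
    exact_mod_cast h7
  have h5 := sum_le_sum h2
  rw [sum_add_distrib, sum_add_distrib, ← mul_sum, sum_const, nsmul_eq_mul, sum_boole,
    sum_boole] at h5
  have h6 : ((A.filter (fun σ => σ ∈ B')).card : ℝ) ≤ (B'.card : ℝ) := by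
    have : (A.filter (fun σ => σ ∈ B')).card ≤ B'.card :=
      card_le_card fun σ hσ => (mem_filter.1 hσ).2
    exact_mod_cast this
  nlinarith

/-- (b) -/
theorem step_bH (ht : 1 ≤ t) {A : Finset (Perm (Fin (2 * t + 1)))} (hA : TInt t A) {β1 : ℝ}
    (hb1 : 0 ≤ β1) (hB1 : β1 * (t + 1) < 2)
    {g : Perm (Fin (2 * t + 1))} {T : Finset (Fin (2 * t + 1))} (hL : Low1 A g T β1)
    {s : Perm (Fin (2 * t + 1))} (hs : s ∈ A) {x : Fin (2 * t + 1)} (hx : x ∈ T)
    (hsx : s x ≠ g x) (hne : (thr A x (g x)).Nonempty) :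
    t ≤ (T.filter (fun i => s i = g i)).card + 1 ∧
      ((T.filter (fun i => s i = g i)).card + 1 = t →
        (2 - β1 * t) * ((thr A x (g x)).card : ℝ) ≤
          (((thr A x (g x)).filter (fun σ => (∀ i ∈ T.filter (fun i => s i = g i), σ i = s i) ∧
            ((((univ.erase x).erase (s⁻¹ (g x))) \ T.filter (fun i => s i = g i)).filter
              (fun i => σ i = s i)).card = 1)).card : ℝ)) := by
  classical
  set X := thr A x (g x) with hXdef
  have hXA : ∀ σ ∈ X, σ ∈ A ∧ σ x = g x := fun σ hσ => mem_filter.1 hσ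
  set R : Finset (Fin (2 * t + 1)) := (univ.erase x).erase (s⁻¹ (g x)) with hR
  set H : Finset (Fin (2 * t + 1)) := T.filter (fun i => s i = g i) with hH
  have hne' : s⁻¹ (g x) ≠ x := by
    intro h
    apply hsx
    rw [← h, ap_inv, h]
  have hRc : R.card ≤ 2 * t - 1 := by
    rw [hR, card_erase_of_mem (mem_erase.2 ⟨hne', mem_univ _⟩), card_erase_of_mem (mem_univ _),
      card_univ, Fintype.card_fin]
    omega
  have hXR : ∀ σ ∈ X, t ≤ (R.filter (fun i => σ i = s i)).card := by
    intro σ hσ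
    refine le_trans (hA σ (hXA σ hσ).1 s hs) ?_
    unfold ag
    apply card_le_card
    intro i hi
    have hi2 := (mem_filter.1 hi).2
    refine mem_filter.2 ⟨mem_erase.2 ⟨?_, mem_erase.2 ⟨?_, mem_univ _⟩⟩, hi2⟩
    · intro h
      have h1 : s i = g x := by rw [h, ap_inv]
      have h2 : σ i = σ x := by rw [hi2, h1, (hXA σ hσ).2]
      have h3 := σ.injective h2
      apply hsx
      rw [← h1, h3]
    · rintro rfl
      apply hsx
      rw [← hi2, (hXA σ hσ).2]
  have hHR : H ⊆ R := by
    intro i hi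
    obtain ⟨hiT, hig⟩ := mem_filter.1 hi
    have hix : i ≠ x := by
      rintro rfl
      exact hsx hig
    refine mem_erase.2 ⟨?_, mem_erase.2 ⟨hix, mem_univ _⟩⟩
    intro h
    have h1 : s i = g x := by rw [h, ap_inv]
    rw [h1] at hig
    exact hix (g.injective hig).symm
  have hgapX : ∀ i ∈ R, i ∉ H → ((thr X i (s i)).card : ℝ) ≤ β1 * X.card := by
    intro i hi hiH
    apply hL x hx i (s i)
    rintro ⟨h1, h2⟩
    exact hiH (mem_filter.2 ⟨h1, h2⟩)
  exact ⟨core_H hRc ht hHR hXR hgapX hb1 hB1 hne,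
    fun hcard => core_eq1 hRc hHR hcard hXR hgapX hb1⟩

/-- (c) -/
theorem step_cH (ht : 5 ≤ t) {A : Finset (Perm (Fin (2 * t + 1)))} (hA : TInt t A)
    {p0 β2 : ℝ} (hF : ((t + 1).factorial : ℝ) ≤ A.card) (hb2 : 0 ≤ β2)
    (hp0 : 1 / 2 < p0)
    (hC1 : 1 < (2 - β2 * t) * (2 * p0 - 1) * (t + 1))
    (hC2 : 2 + 3 / 8 * ((t : ℝ) * (t - 1)) < (2 - β2 * (t - 1)) * (2 * p0 - 1) * (t * (t + 1)))
    {g : Perm (Fin (2 * t + 1))} {T : Finset (Fin (2 * t + 1))} (hL : Low2 A g T β2)
    (hTc : T.card ≤ t + 2)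
    {x x' : Fin (2 * t + 1)} (hxT : x ∈ T) (hxT' : x' ∈ T) (hxx : x ≠ x')
    (hx : p0 * A.card ≤ ((thr A x (g x)).card : ℝ))
    (hx' : p0 * A.card ≤ ((thr A x' (g x')).card : ℝ))
    {s : Perm (Fin (2 * t + 1))} (hs : s ∈ A) (hsx : s x ≠ g x) (hsx' : s x' ≠ g x')
    (hlow : t ≤ (T.filter (fun i => s i = g i)).card + 1) : False := by
  classical
  set X := thr A x (g x) ∩ thr A x' (g x') with hXdef
  have hfac : (0 : ℝ) < ((t + 1).factorial : ℝ) := by exact_mod_cast Nat.factorial_pos _
  have ha0 : (0 : ℝ) < (A.card : ℝ) := lt_of_lt_of_le hfac hF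
  have hθ : 0 < 2 * p0 - 1 := by linarith
  have hXc : (2 * p0 - 1) * A.card ≤ (X.card : ℝ) := by
    have h1 := card_union_add_card_inter (thr A x (g x)) (thr A x' (g x'))
    have h2 : (thr A x (g x) ∪ thr A x' (g x')).card ≤ A.card :=
      card_le_card (union_subset (filter_subset _ _) (filter_subset _ _))
    rw [← hXdef] at h1
    have h3 : (thr A x (g x)).card + (thr A x' (g x')).card ≤ A.card + X.card := by omega
    have h4 : ((thr A x (g x)).card : ℝ) + ((thr A x' (g x')).card : ℝ) ≤ A.card + X.card := by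
      exact_mod_cast h3
    linarith
  have hXF : (2 * p0 - 1) * ((t + 1).factorial : ℝ) ≤ (X.card : ℝ) :=
    le_trans (mul_le_mul_of_nonneg_left hF hθ.le) hXc
  have hXA : ∀ σ ∈ X, σ ∈ A ∧ σ x = g x ∧ σ x' = g x' := by
    intro σ hσ
    obtain ⟨h1, h2⟩ := mem_inter.1 hσ
    exact ⟨(mem_filter.1 h1).1, (mem_filter.1 h1).2, (mem_filter.1 h2).2⟩
  set Z : Finset (Fin (2 * t + 1)) := {x, x'} with hZ
  have hZc : Z.card = 2 := card_pair hxx
  have hXZ : ∀ σ ∈ X, ∀ i ∈ Z, σ i = g i := by
    intro σ hσ i hi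
    rw [hZ, mem_insert, mem_singleton] at hi
    rcases hi with rfl | rfl
    · exact (hXA σ hσ).2.1
    · exact (hXA σ hσ).2.2
  set R : Finset (Fin (2 * t + 1)) := Zᶜ.filter (fun i => ∀ j ∈ Z, s i ≠ g j) with hR
  have hZR : Disjoint Z R := by
    rw [disjoint_left]
    intro i hi hi2
    exact (mem_compl.1 (mem_filter.1 hi2).1) hi
  have hcR : ∀ i ∈ R, ∀ j ∈ Z, s i ≠ g j := fun i hi => (mem_filter.1 hi).2
  have hRc : R.card ≤ 2 * t - 1 := by
    refine le_trans (card_filter_le _ _) ?_
    rw [card_compl, hZc, Fintype.card_fin]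
    omega
  have hsZ : ∀ j ∈ Z, s j ≠ g j := by
    intro j hj
    rw [hZ, mem_insert, mem_singleton] at hj
    rcases hj with rfl | rfl
    · exact hsx
    · exact hsx'
  have hXR : ∀ σ ∈ X, t ≤ (R.filter (fun i => σ i = s i)).card := by
    intro σ hσ
    refine le_trans (hA σ (hXA σ hσ).1 s hs) ?_
    unfold ag
    apply card_le_card
    intro i hi
    have hi2 := (mem_filter.1 hi).2
    refine mem_filter.2 ⟨mem_filter.2 ⟨mem_compl.2 ?_, ?_⟩, hi2⟩
    · intro h
      exact hsZ i h (by rw [← hi2, hXZ σ hσ i h])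
    · intro j hj h
      have h1 : σ i = σ j := by rw [hi2, h, hXZ σ hσ j hj]
      have h2 := σ.injective h1
      exact hsZ j hj (by rw [← h, h2])
  set H : Finset (Fin (2 * t + 1)) := T.filter (fun i => s i = g i) with hH
  have hHZ : ∀ i ∈ H, i ∉ Z := by
    intro i hi hiZ
    exact hsZ i hiZ (mem_filter.1 hi).2
  have hHR : H ⊆ R := by
    intro i hi
    refine mem_filter.2 ⟨mem_compl.2 (hHZ i hi), ?_⟩
    intro j hj h
    rw [(mem_filter.1 hi).2] at h
    have := g.injective h
    subst this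
    exact hHZ _ hi hj
  have hgH : ∀ i ∈ R, i ∉ H → ((thr X i (s i)).card : ℝ) ≤ β2 * X.card := by
    intro i hi hiH
    apply hL x hxT x' hxT' hxx i (s i)
    rintro ⟨h1, h2⟩
    exact hiH (mem_filter.2 ⟨h1, h2⟩)
  have hHc : H.card ≤ t := by
    have h1 : Disjoint H Z := by
      rw [disjoint_left]
      exact hHZ
    have h2 : H ∪ Z ⊆ T := by
      intro i hi
      rcases mem_union.1 hi with hi | hi
      · exact (mem_filter.1 hi).1
      · rw [hZ, mem_insert, mem_singleton] at hi
        rcases hi with rfl | rfl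
        · exact hxT
        · exact hxT'
    have h3 := card_le_card h2
    rw [card_union_of_disjoint h1, hZc] at h3
    omega
  obtain ⟨hf1, hf2, hf3⟩ := fac3 (t := t) (by omega)
  have hff : (0 : ℝ) < ((t - 2).factorial : ℝ) := by exact_mod_cast Nat.factorial_pos _
  have htR : (5 : ℝ) ≤ t := by exact_mod_cast ht
  have hk : 0 < 2 - β2 * t := by
    by_contra hcon
    push Not at hcon
    have h3 : (2 - β2 * t) * (2 * p0 - 1) * ((t : ℝ) + 1) ≤ 0 :=
      mul_nonpos_of_nonpos_of_nonneg (mul_nonpos_of_nonpos_of_nonneg hcon hθ.le) (by linarith)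
    linarith
  rcases Nat.lt_or_ge H.card t with h | h
  · -- h = t - 1
    have hcard : H.card + 1 = t := by omega
    have h1 := core_eq hRc hHR hcard hXR hgH hb2
    have h2 : (X.filter (fun σ => ∀ i ∈ H, σ i = s i)).card ≤ t.factorial := by
      calc (X.filter (fun σ => ∀ i ∈ H, σ i = s i)).card
          ≤ ((star g Z).filter (fun σ => ∀ i ∈ H, σ i = s i)).card := by
            apply card_le_card
            intro σ hσ
            rw [mem_filter] at hσ ⊢
            exact ⟨mem_star.2 (hXZ σ hσ.1), hσ.2⟩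
        _ = (2 * t + 1 - (Z.card + H.card)).factorial :=
            card_two (disjoint_of_subset_right hHR hZR) (fun i hi j hj => hcR i (hHR hi) j hj)
        _ = t.factorial := by
            rw [hZc]
            congr 1
            omega
    have h3 : ((X.filter (fun σ => ∀ i ∈ H, σ i = s i)).card : ℝ) ≤ (t.factorial : ℝ) := by
      exact_mod_cast h2
    have h5 : (2 - β2 * t) * ((2 * p0 - 1) * ((t + 1).factorial : ℝ)) ≤ (2 - β2 * t) * X.card :=
      mul_le_mul_of_nonneg_left hXF hk.le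
    have h6 : (t.factorial : ℝ) * 1 <
        (t.factorial : ℝ) * ((2 - β2 * t) * (2 * p0 - 1) * (t + 1)) :=
      mul_lt_mul_of_pos_left hC1 (by exact_mod_cast Nat.factorial_pos _)
    have h7 : ((t + 1).factorial : ℝ) = (t + 1) * (t.factorial : ℝ) := by
      rw [Nat.factorial_succ]
      push_cast
      ring
    rw [h7] at h5
    nlinarith
  · -- h = t
    have hcard : H.card = t := by omega
    have h1 := core_t4 rfl ht hZc hXZ hZR hcR hRc hHR hcard hXR hgH hb2
    have h4 : 0 ≤ 2 - β2 * (t - 1) := by nlinarith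
    have h5 : (2 - β2 * (t - 1)) * ((2 * p0 - 1) * ((t + 1).factorial : ℝ)) ≤
        (2 - β2 * (t - 1)) * X.card := mul_le_mul_of_nonneg_left hXF h4
    have hff1 : (0 : ℝ) < (t - 1) * ((t - 2).factorial : ℝ) := by
      apply mul_pos _ hff
      linarith
    have h6 := mul_lt_mul_of_pos_left hC2 hff1
    rw [hf1] at h5
    rw [hf3] at h1
    have h7 : (t - 1) * ((t - 2).factorial : ℝ) * ((2 - β2 * (t - 1)) * (2 * p0 - 1) * (t * (t + 1)))
        = (2 - β2 * (t - 1)) * ((2 * p0 - 1) * ((t + 1) * t * (t - 1) * ((t - 2).factorial : ℝ))) := by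
      ring
    have h8 : 2 * ((t - 1) * ((t - 2).factorial : ℝ)) +
        3 / 8 * (t * (t - 1) * ((t - 1) * ((t - 2).factorial : ℝ))) =
        (t - 1) * ((t - 2).factorial : ℝ) * (2 + 3 / 8 * ((t : ℝ) * (t - 1))) := by ring
    rw [h7] at h6
    rw [h8] at h1
    linarith

/-- (e): exactly one hit -/
theorem step_e1 (ht : 5 ≤ t) {g s : Perm (Fin (2 * t + 1))} {T : Finset (Fin (2 * t + 1))}
    (hT : T.card = t) {x : Fin (2 * t + 1)} (hx : x ∈ T) (hsx : s x ≠ g x)
    (hsT : ∀ i ∈ T.erase x, s i = g i) :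
    (((star g T).filter (fun σ => ((Tᶜ.erase (s⁻¹ (g x))).filter (fun i => σ i = s i)).card = 1)).card : ℝ) ≤
      (9 * (t : ℝ) + 8) / (24 * (t + 1)) * ((t + 1).factorial : ℝ) := by
  classical
  set R : Finset (Fin (2 * t + 1)) := Tᶜ.erase (s⁻¹ (g x)) with hR
  have hnot : s⁻¹ (g x) ∈ Tᶜ := by
    rw [mem_compl]
    intro h
    by_cases h1 : s⁻¹ (g x) = x
    · apply hsx
      rw [← h1, ap_inv, h1]
    · have h2 := hsT _ (mem_erase.2 ⟨h1, h⟩)
      rw [ap_inv] at h2
      exact h1 (g.injective h2).symm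
  have hRc : R.card = t := by
    rw [hR, card_erase_of_mem hnot, card_compl, hT, Fintype.card_fin]
    omega
  have hTR : Disjoint T R := by
    rw [disjoint_left]
    intro i hi hi2
    exact (mem_compl.1 (mem_erase.1 hi2).2) hi
  have hcR : ∀ i ∈ R, ∀ j ∈ T, s i ≠ g j := by
    intro i hi j hj h
    by_cases hjx : j = x
    · subst hjx
      apply (mem_erase.1 hi).1
      rw [← h]
      exact (s.symm_apply_apply i).symm
    · rw [← hsT j (mem_erase.2 ⟨hjx, hj⟩)] at h
      have := s.injective h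
      subst this
      exact disjoint_left.1 hTR hj hi
  have h1 := exact_le hTR hcR
  rw [hT, hRc, show 2 * t + 1 - (t + 1) = t by omega, show 2 * t + 1 - (t + 2) = t - 1 by omega,
    show 2 * t + 1 - (t + 3) = t - 2 by omega, show 2 * t + 1 - (t + 4) = t - 3 by omega,
    show 2 * t + 1 - (t + 5) = t - 4 by omega] at h1
  set c := ((star g T).filter (fun σ => (R.filter (fun i => σ i = s i)).card = 1)).card with hc
  obtain ⟨f1, f2, f3, f4⟩ := fact_four (N := t) (by omega)
  have h2 : (c : ℝ) + 2 * ((t.choose 2 : ℝ) * ((t - 1).factorial : ℝ)) +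
      4 * ((t.choose 4 : ℝ) * ((t - 3).factorial : ℝ)) ≤ t * (t.factorial : ℝ) +
      3 * ((t.choose 3 : ℝ) * ((t - 2).factorial : ℝ)) +
      5 * ((t.choose 5 : ℝ) * ((t - 4).factorial : ℝ)) := by exact_mod_cast h1
  rw [Nat.cast_choose_two ℝ t, cast_choose3, cast_choose4, cast_choose5, f1, f2, f3, f4] at h2
  have h3 : ((t + 1).factorial : ℝ) =
      (t + 1) * (t * (t - 1) * (t - 2) * (t - 3) * ((t - 4).factorial : ℝ)) := by
    rw [Nat.factorial_succ, Nat.cast_mul, f4]
    push_cast
    ring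
  rw [h3]
  have h4 : (9 * (t : ℝ) + 8) / (24 * (t + 1)) *
      ((t + 1) * (t * (t - 1) * (t - 2) * (t - 3) * ((t - 4).factorial : ℝ))) =
      (9 * (t : ℝ) + 8) / 24 * (t * (t - 1) * (t - 2) * (t - 3) * ((t - 4).factorial : ℝ)) := by
    field_simp
  rw [h4]
  have h5 : (9 * (t : ℝ) + 8) / 24 * (t * (t - 1) * (t - 2) * (t - 3) * ((t - 4).factorial : ℝ)) =
      t * (t * (t - 1) * (t - 2) * (t - 3) * ((t - 4).factorial : ℝ)) +
      3 * (t * (t - 1) * (t - 2) / 6 * ((t - 2) * (t - 3) * ((t - 4).factorial : ℝ))) +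
      5 * (t * (t - 1) * (t - 2) * (t - 3) * (t - 4) / 120 * ((t - 4).factorial : ℝ)) -
      2 * (t * (t - 1) / 2 * ((t - 1) * (t - 2) * (t - 3) * ((t - 4).factorial : ℝ))) -
      4 * (t * (t - 1) * (t - 2) * (t - 3) / 24 * ((t - 3) * ((t - 4).factorial : ℝ))) := by
    ring
  rw [h5]
  linarith

end Pool.EG
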