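import Pool.Agent.Work.MP_46fa68_86.EndG3

/-! # endgame: weaker alternatives for (c1), (c2), and the general assembly `endG_gen` (helper86) -/

set_option autoImplicit false

open Finset Equiv

namespace Pool.EG

variable {n t : ℕ}

/-- the members which miss exactly one of the `t` cells of `H` and hit `s` exactly once in the rest -/
theorem card_bad (hn : n = 2 * t + 1) (ht : 5 ≤ t) {X : Finset (Perm (Fin n))}
    {g s : Perm (Fin n)} {Z R H : Finset (Fin n)}
    (hZ : Z.card = 2) (hXZ : ∀ σ ∈ X, ∀ i ∈ Z, σ i = g i) (hZR : Disjoint Z R)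
    (hcR : ∀ i ∈ R, ∀ j ∈ Z, s i ≠ g j)
    (hR : R.card ≤ 2 * t - 1) (hHR : H ⊆ R) (hH : H.card = t) :
    ((X.filter (fun σ => (H.filter (fun i => σ i = s i)).card + 1 = H.card ∧
      ((R \ H).filter (fun i => σ i = s i)).card = 1)).card : ℝ) ≤
      3 / 8 * (t * (t - 1) * ((t - 1).factorial : ℝ)) := by
  classical
  set O := R \ H with hO
  have hOc : O.card ≤ t - 1 := by
    rw [hO, card_sdiff_of_subset hHR]
    omega
  have ht1 : ((t - 1 : ℕ) : ℝ) = t - 1 := by
    rw [Nat.cast_sub (by omega)]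
    simp
  let B : Fin n → Fin n → Finset (Perm (Fin n)) := fun i0 i1 =>
    X.filter (fun σ => (∀ i ∈ insert i1 (H.erase i0), σ i = s i) ∧
      ∀ i ∈ insert i0 (O.erase i1), σ i ≠ s i)
  let B' : Finset (Perm (Fin n)) := (H ×ˢ O).biUnion (fun c => B c.1 c.2)
  have hsub : X.filter (fun σ => (H.filter (fun i => σ i = s i)).card + 1 = H.card ∧
      (O.filter (fun i => σ i = s i)).card = 1) ⊆ B' := by
    intro σ hσ'
    obtain ⟨hσ, h9, h8⟩ := mem_filter.1 hσ'
    have h10 : (H \ H.filter (fun i => σ i = s i)).card = 1 := by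
      rw [card_sdiff_of_subset (filter_subset _ _)]
      omega
    obtain ⟨i0, hi0⟩ := card_eq_one.1 h10
    obtain ⟨i1, hi1⟩ := card_eq_one.1 h8
    have hi0H : i0 ∈ H ∧ σ i0 ≠ s i0 := by
      have : i0 ∈ H \ H.filter (fun i => σ i = s i) := by rw [hi0]; exact mem_singleton_self _
      rw [mem_sdiff, mem_filter] at this
      exact ⟨this.1, fun h => this.2 ⟨this.1, h⟩⟩
    have hi1O : i1 ∈ O ∧ σ i1 = s i1 := by
      have : i1 ∈ O.filter (fun i => σ i = s i) := by rw [hi1]; exact mem_singleton_self _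
      exact mem_filter.1 this
    refine mem_biUnion.2 ⟨(i0, i1), mem_product.2 ⟨hi0H.1, hi1O.1⟩, ?_⟩
    refine mem_filter.2 ⟨hσ, ?_, ?_⟩
    · intro i hi
      rcases mem_insert.1 hi with rfl | hi
      · exact hi1O.2
      · by_contra hcon
        have h12 : i ∈ H \ H.filter (fun i => σ i = s i) :=
          mem_sdiff.2 ⟨(mem_erase.1 hi).2, fun h => hcon (mem_filter.1 h).2⟩
        rw [hi0, mem_singleton] at h12
        exact (mem_erase.1 hi).1 h12
    · intro i hi
      rcases mem_insert.1 hi with rfl | hi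
      · exact hi0H.2
      · intro hcon
        have h12 : i ∈ O.filter (fun i => σ i = s i) :=
          mem_filter.2 ⟨(mem_erase.1 hi).2, hcon⟩
        rw [hi1, mem_singleton] at h12
        exact (mem_erase.1 hi).1 h12
  have h5 : B'.card ≤ ∑ c ∈ H ×ˢ O, (B c.1 c.2).card := card_biUnion_le
  -- each one
  have h6 : ∀ i0 ∈ H, ∀ i1 ∈ O, (O.card : ℝ) * ((B i0 i1).card : ℝ) ≤
      3 / 8 * (((t - 1 : ℕ) : ℝ) * ((t - 1).factorial : ℝ)) := by
    intro i0 hi0 i1 hi1
    have hi1H : i1 ∉ H := (mem_sdiff.1 hi1).2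
    have hi1R : i1 ∈ R := (mem_sdiff.1 hi1).1
    set S := insert i1 (H.erase i0) with hS
    have hSR : S ⊆ R := by
      intro i hi
      rcases mem_insert.1 hi with rfl | hi
      · exact hi1R
      · exact hHR (mem_erase.1 hi).2
    have hScard : S.card = t := by
      rw [hS, card_insert_of_notMem (fun h => hi1H (mem_erase.1 h).2), card_erase_of_mem hi0, hH]
      omega
    have hZS : Disjoint Z S := disjoint_of_subset_right hSR hZR
    obtain ⟨g', hg'⟩ := exists_ext (Z ∪ S) (fun i => if i ∈ Z then g i else s i) (by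
      intro i hi j hj hij
      have hi' := mem_union.1 (mem_coe.1 hi)
      have hj' := mem_union.1 (mem_coe.1 hj)
      simp only at hij
      split_ifs at hij with h1 h2 h2
      · exact g.injective hij
      · exact absurd hij.symm (hcR j (hSR (hj'.resolve_left h2)) i h1)
      · exact absurd hij (hcR i (hSR (hi'.resolve_left h1)) j h2)
      · exact s.injective hij)
    have hg1 : ∀ i ∈ Z, g' i = g i := fun i hi => by
      rw [hg' i (mem_union_left _ hi), if_pos hi]
    have hg2 : ∀ i ∈ S, g' i = s i := fun i hi => by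
      rw [hg' i (mem_union_right _ hi), if_neg (fun h => disjoint_left.1 hZS h hi)]
    set R' := insert i0 (O.erase i1) with hR'
    have hi0O : i0 ∉ O := fun h => (mem_sdiff.1 h).2 hi0
    have hR'R : R' ⊆ R := by
      intro i hi
      rcases mem_insert.1 hi with rfl | hi
      · exact hHR hi0
      · exact (mem_sdiff.1 (mem_erase.1 hi).2).1
    have hR'card : R'.card = O.card := by
      rw [hR', card_insert_of_notMem (fun h => hi0O (mem_erase.1 h).2), card_erase_of_mem hi1]
      have : 0 < O.card := card_pos.2 ⟨i1, hi1⟩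
      omega
    have hSR' : Disjoint S R' := by
      rw [disjoint_left]
      intro i hi hi2
      rcases mem_insert.1 hi with rfl | hi
      · rcases mem_insert.1 hi2 with h | h
        · exact hi1H (h ▸ hi0)
        · exact (mem_erase.1 h).1 rfl
      · rcases mem_insert.1 hi2 with h | h
        · exact (mem_erase.1 hi).1 h
        · exact (mem_sdiff.1 (mem_erase.1 h).2).2 (mem_erase.1 hi).2
    have hdis : Disjoint (Z ∪ S) R' := by
      rw [disjoint_union_left]
      exact ⟨disjoint_of_subset_right hR'R hZR, hSR'⟩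
    have hcR' : ∀ i ∈ R', ∀ j ∈ Z ∪ S, s i ≠ g' j := by
      intro i hi j hj
      rcases mem_union.1 hj with hj | hj
      · rw [hg1 j hj]
        exact hcR i (hR'R hi) j hj
      · rw [hg2 j hj]
        intro h
        have := s.injective h
        subst this
        exact disjoint_left.1 hSR' hj hi
    have h7 := avoid_le4 hdis hcR'
    have hTc : (Z ∪ S).card = t + 2 := by
      rw [card_union_of_disjoint hZS, hZ, hScard]
      omega
    rw [hTc, hR'card, show n - (t + 2) = t - 1 by omega, show n - (t + 2 + 1) = t - 1 - 1 by omega,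
      show n - (t + 2 + 2) = t - 1 - 2 by omega, show n - (t + 2 + 3) = t - 1 - 3 by omega,
      show n - (t + 2 + 4) = t - 1 - 4 by omega] at h7
    have h8 : (B i0 i1).card ≤ ((star g' (Z ∪ S)).filter (fun σ => ∀ i ∈ R', σ i ≠ s i)).card := by
      apply card_le_card
      intro σ hσ
      obtain ⟨hσ1, hσ2, hσ3⟩ := mem_filter.1 hσ
      refine mem_filter.2 ⟨mem_star.2 fun i hi => ?_, hσ3⟩
      rcases mem_union.1 hi with hi | hi
      · rw [hXZ σ hσ1 i hi, hg1 i hi]
      · rw [hσ2 i hi, hg2 i hi]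
    have h9 : (B i0 i1).card + O.card * (t - 1 - 1).factorial + O.card.choose 3 * (t - 1 - 3).factorial ≤
        (t - 1).factorial + O.card.choose 2 * (t - 1 - 2).factorial +
          O.card.choose 4 * (t - 1 - 4).factorial := by
      refine le_trans (Nat.add_le_add_right (Nat.add_le_add_right h8 _) _) h7
    exact one_hit4 (by omega) hOc h9
  have hfin : (B'.card : ℝ) ≤ 3 / 8 * (t * (t - 1) * ((t - 1).factorial : ℝ)) := by
    rcases Nat.eq_zero_or_pos O.card with h7 | h7
    · have h8 : B'.card = 0 := by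
        have h9 : H ×ˢ O = ∅ := by rw [card_eq_zero.1 h7, product_empty]
        have h10 : B' = ∅ := by
          change (H ×ˢ O).biUnion (fun c => B c.1 c.2) = ∅
          rw [h9, biUnion_empty]
        rw [h10, card_empty]
      rw [h8, Nat.cast_zero]
      have : (0 : ℝ) ≤ t - 1 := by rw [← ht1]; exact Nat.cast_nonneg _
      positivity
    · have h8 : (B'.card : ℝ) ≤ ∑ c ∈ H ×ˢ O, ((B c.1 c.2).card : ℝ) := by exact_mod_cast h5
      have hOpos : (0 : ℝ) < O.card := by exact_mod_cast h7
      have h9 : ∑ c ∈ H ×ˢ O, ((B c.1 c.2).card : ℝ) ≤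
          ∑ c ∈ H ×ˢ O, (3 / 8 * (((t - 1 : ℕ) : ℝ) * ((t - 1).factorial : ℝ)) / O.card) := by
        refine sum_le_sum fun c hc => ?_
        rw [mem_product] at hc
        rw [le_div_iff₀ hOpos, mul_comm]
        exact h6 c.1 hc.1 c.2 hc.2
      rw [sum_const, card_product, hH, nsmul_eq_mul] at h9
      calc (B'.card : ℝ) ≤ _ := h8
        _ ≤ _ := h9
        _ = 3 / 8 * (t * (t - 1) * ((t - 1).factorial : ℝ)) := by
            rw [ht1]
            push_cast
            field_simp
  refine le_trans ?_ hfin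
  exact_mod_cast card_le_card hsub

/-- members missing `x'` -/
theorem card_miss {A : Finset (Perm (Fin n))} {p0 : ℝ} {x' y' : Fin n}
    (hx' : p0 * A.card ≤ ((thr A x' y').card : ℝ)) {X : Finset (Perm (Fin n))} (hX : X ⊆ A) :
    ((X.filter (fun σ => σ x' ≠ y')).card : ℝ) ≤ (1 - p0) * A.card := by
  classical
  have h1 : (thr A x' y').card + (A.filter (fun σ => ¬ σ x' = y')).card = A.card :=
    card_filter_add_card_filter_not (s := A) (fun σ => σ x' = y')
  have h2 : (X.filter (fun σ => σ x' ≠ y')).card ≤ (A.filter (fun σ => ¬ σ x' = y')).card :=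
    card_le_card (filter_subset_filter _ hX)
  have h3 : ((thr A x' y').card : ℝ) + ((A.filter (fun σ => ¬ σ x' = y')).card : ℝ) = A.card := by
    exact_mod_cast h1
  have h4 : ((X.filter (fun σ => σ x' ≠ y')).card : ℝ) ≤
      ((A.filter (fun σ => ¬ σ x' = y')).card : ℝ) := by exact_mod_cast h2
  linarith

/-- (c), `|H| = t - 1`, inside `A_x` only -/
theorem step_c1' (ht : 1 ≤ t) {A : Finset (Perm (Fin (2 * t + 1)))} (hA : TInt t A)
    {p0 β1 : ℝ} (hF : ((t + 1).factorial : ℝ) ≤ A.card) (hb1 : 0 ≤ β1) (hp0 : 0 < p0)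
    (hB : β1 * (t + 1) < 2)
    (hC : 1 - p0 + 1 / (t + 1) < (2 - β1 * t) * p0)
    {g : Perm (Fin (2 * t + 1))} {T : Finset (Fin (2 * t + 1))} (hL : Low1 A g T β1)
    {x x' : Fin (2 * t + 1)} (hxT : x ∈ T) (hxx : x ≠ x')
    (hx : p0 * A.card ≤ ((thr A x (g x)).card : ℝ))
    (hx' : p0 * A.card ≤ ((thr A x' (g x')).card : ℝ))
    {s : Perm (Fin (2 * t + 1))} (hs : s ∈ A) (hsx : s x ≠ g x) (hsx' : s x' ≠ g x')
    (hcard : (T.filter (fun i => s i = g i)).card + 1 = t) : False := by
  classical
  have hfac : (0 : ℝ) < ((t + 1).factorial : ℝ) := by exact_mod_cast Nat.factorial_pos _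
  have ha0 : (0 : ℝ) < (A.card : ℝ) := lt_of_lt_of_le hfac hF
  have hne : (thr A x (g x)).Nonempty := by
    rw [← card_pos]
    have : (0 : ℝ) < ((thr A x (g x)).card : ℝ) := lt_of_lt_of_le (mul_pos hp0 ha0) hx
    exact_mod_cast this
  have h1 := (step_bH ht hA hb1 hB hL hs hxT hsx hne).2 hcard
  set H : Finset (Fin (2 * t + 1)) := T.filter (fun i => s i = g i) with hH
  set X := thr A x (g x) with hX
  set W := X.filter (fun σ => (∀ i ∈ H, σ i = s i) ∧
    ((((univ.erase x).erase (s⁻¹ (g x))) \ H).filter (fun i => σ i = s i)).card = 1) with hW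
  have h2 := card_filter_add_card_filter_not (s := W) (fun σ => σ x' = g x')
  have h3 : (W.filter (fun σ => σ x' = g x')).card ≤ t.factorial := by
    have hxH : x ∉ H := fun h => hsx (mem_filter.1 h).2
    have hxH' : x' ∉ H := fun h => hsx' (mem_filter.1 h).2
    have hc : (insert x (insert x' H)).card = t + 1 := by
      rw [card_insert_of_notMem, card_insert_of_notMem hxH', hcard]
      rw [mem_insert]
      push Not
      exact ⟨hxx, hxH⟩
    calc (W.filter (fun σ => σ x' = g x')).card ≤ (star g (insert x (insert x' H))).card := by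
          apply card_le_card
          intro σ hσ
          obtain ⟨h4, h5⟩ := mem_filter.1 hσ
          obtain ⟨h6, h7, _⟩ := mem_filter.1 h4
          refine mem_star.2 fun i hi => ?_
          rcases mem_insert.1 hi with rfl | hi
          · exact (mem_filter.1 h6).2
          · rcases mem_insert.1 hi with rfl | hi
            · exact h5
            · rw [h7 i hi, (mem_filter.1 hi).2]
      _ = _ := by
          rw [card_star, hc]
          congr 1
          omega
  have h4 : ((W.filter (fun σ => ¬ σ x' = g x')).card : ℝ) ≤ (1 - p0) * A.card :=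
    card_miss hx' ((filter_subset _ _).trans (filter_subset _ _))
  have h5 : (W.card : ℝ) ≤ (t.factorial : ℝ) + (1 - p0) * A.card := by
    have h6 : (W.card : ℝ) = ((W.filter (fun σ => σ x' = g x')).card : ℝ) +
        ((W.filter (fun σ => ¬ σ x' = g x')).card : ℝ) := by exact_mod_cast h2.symm
    have h7 : ((W.filter (fun σ => σ x' = g x')).card : ℝ) ≤ (t.factorial : ℝ) := by
      exact_mod_cast h3
    linarith
  have htR : (0 : ℝ) < (t : ℝ) + 1 := by positivity
  have h6 : (t.factorial : ℝ) ≤ 1 / (t + 1) * A.card := by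
    have h7 : ((t + 1).factorial : ℝ) = (t + 1) * (t.factorial : ℝ) := by
      rw [Nat.factorial_succ]
      push_cast
      ring
    rw [h7] at hF
    rw [one_div, inv_mul_eq_div, le_div_iff₀ htR]
    linarith
  have hk : 0 ≤ 2 - β1 * t := by nlinarith
  have h7 : (2 - β1 * t) * (p0 * A.card) ≤ (2 - β1 * t) * (X.card : ℝ) :=
    mul_le_mul_of_nonneg_left hx hk
  have h8 := mul_lt_mul_of_pos_right hC ha0
  nlinarith

/-- (c), `|H| = t`, inside `A_x` only -/
theorem step_c2' (ht : 5 ≤ t) {A : Finset (Perm (Fin (2 * t + 1)))} (hA : TInt t A)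
    {p0 β1 : ℝ} (hF : ((t + 1).factorial : ℝ) ≤ A.card) (hb1 : 0 ≤ β1) (hp0 : 0 < p0)
    (hB : β1 * (t + 1) < 2)
    (hC : 1 - p0 + (1 + 1 / t + 3 / 8 * (t - 1)) / (t + 1) < (2 - β1 * (t - 1)) * p0)
    {g : Perm (Fin (2 * t + 1))} {T : Finset (Fin (2 * t + 1))} (hL : Low1 A g T β1)
    {x x' : Fin (2 * t + 1)} (hxT : x ∈ T) (hxx : x ≠ x')
    (hx : p0 * A.card ≤ ((thr A x (g x)).card : ℝ))
    (hx' : p0 * A.card ≤ ((thr A x' (g x')).card : ℝ))
    {s : Perm (Fin (2 * t + 1))} (hs : s ∈ A) (hsx : s x ≠ g x) (hsx' : s x' ≠ g x')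
    (hcard : (T.filter (fun i => s i = g i)).card = t) : False := by
  classical
  have hfac : (0 : ℝ) < ((t + 1).factorial : ℝ) := by exact_mod_cast Nat.factorial_pos _
  have ha0 : (0 : ℝ) < (A.card : ℝ) := lt_of_lt_of_le hfac hF
  set H : Finset (Fin (2 * t + 1)) := T.filter (fun i => s i = g i) with hH
  set X := thr A x (g x) with hXdef
  have hXA : ∀ σ ∈ X, σ ∈ A ∧ σ x = g x := fun σ hσ => mem_filter.1 hσ
  set R : Finset (Fin (2 * t + 1)) := (univ.erase x).erase (s⁻¹ (g x)) with hR
  have hne' : s⁻¹ (g x) ≠ x := by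
    intro h
    apply hsx
    rw [← h, ap_inv, h]
  have hRc : R.card = 2 * t - 1 := by
    rw [hR, card_erase_of_mem (mem_erase.2 ⟨hne', mem_univ _⟩), card_erase_of_mem (mem_univ _),
      card_univ, Fintype.card_fin]
    omega
  have hXR : ∀ σ ∈ X, t ≤ (R.filter (fun i => σ i = s i)).card := by
    intro σ hσ
    refine le_trans (hA σ (hXA σ hσ).1 s hs) ?_
    unfold ag
    apply card_le_card
    intro i hi
    have hi2 := (mem_filter.1 hi).2
    refine mem_filter.2 ⟨mem_erase.2 ⟨?_, mem_erase.2 ⟨?_, mem_univ _⟩⟩, hi2⟩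
    · intro h
      have h1 : s i = g x := by rw [h, ap_inv]
      have h2 : σ i = σ x := by rw [hi2, h1, (hXA σ hσ).2]
      have h3 := σ.injective h2
      apply hsx
      rw [← h1, h3]
    · rintro rfl
      apply hsx
      rw [← hi2, (hXA σ hσ).2]
  have hHR : H ⊆ R := by
    intro i hi
    obtain ⟨hiT, hig⟩ := mem_filter.1 hi
    have hix : i ≠ x := by
      rintro rfl
      exact hsx hig
    refine mem_erase.2 ⟨?_, mem_erase.2 ⟨hix, mem_univ _⟩⟩
    intro h
    have h1 : s i = g x := by rw [h, ap_inv]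
    rw [h1] at hig
    exact hix (g.injective hig).symm
  set O := R \ H with hO
  have hOc : O.card = t - 1 := by
    rw [hO, card_sdiff_of_subset hHR]
    omega
  have ht1 : ((t - 1 : ℕ) : ℝ) = t - 1 := by
    rw [Nat.cast_sub (by omega)]
    simp
  have htR : (5 : ℝ) ≤ t := by exact_mod_cast ht
  -- the sum of u
  have h1 : ∑ σ ∈ X, ((O.filter (fun i => σ i = s i)).card : ℝ) ≤ (t - 1) * (β1 * X.card) := by
    have h2 : ∑ σ ∈ X, ((O.filter (fun i => σ i = s i)).card : ℝ) =
        ∑ i ∈ O, ((thr X i (s i)).card : ℝ) := by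
      have := sum_thr_hits X s O
      exact_mod_cast this.symm
    rw [h2]
    calc ∑ i ∈ O, ((thr X i (s i)).card : ℝ) ≤ ∑ i ∈ O, β1 * X.card := by
          refine sum_le_sum fun i hi => ?_
          apply hL x hxT i (s i)
          rintro ⟨h1, h2⟩
          exact (mem_sdiff.1 hi).2 (mem_filter.2 ⟨h1, h2⟩)
      _ = (t - 1) * (β1 * X.card) := by rw [sum_const, nsmul_eq_mul, hOc, ht1]
  -- the two stars
  have hxH : x ∉ H := fun h => hsx (mem_filter.1 h).2
  have hxH' : x' ∉ H := fun h => hsx' (mem_filter.1 h).2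
  set X2 := X.filter (fun σ => σ x' = g x') with hX2
  set Z : Finset (Fin (2 * t + 1)) := {x, x'} with hZ
  have hZc : Z.card = 2 := card_pair hxx
  have hXZ : ∀ σ ∈ X2, ∀ i ∈ Z, σ i = g i := by
    intro σ hσ i hi
    rw [hZ, mem_insert, mem_singleton] at hi
    rcases hi with rfl | rfl
    · exact (hXA σ (mem_filter.1 hσ).1).2
    · exact (mem_filter.1 hσ).2
  set R2 : Finset (Fin (2 * t + 1)) := Zᶜ.filter (fun i => ∀ j ∈ Z, s i ≠ g j) with hR2
  have hZR : Disjoint Z R2 := by
    rw [disjoint_left]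
    intro i hi hi2
    exact (mem_compl.1 (mem_filter.1 hi2).1) hi
  have hcR : ∀ i ∈ R2, ∀ j ∈ Z, s i ≠ g j := fun i hi => (mem_filter.1 hi).2
  have hR2c : R2.card ≤ 2 * t - 1 := by
    refine le_trans (card_filter_le _ _) ?_
    rw [card_compl, hZc, Fintype.card_fin]
    omega
  have hHR2 : H ⊆ R2 := by
    intro i hi
    obtain ⟨hiT, hig⟩ := mem_filter.1 hi
    refine mem_filter.2 ⟨mem_compl.2 ?_, ?_⟩
    · intro h
      rw [hZ, mem_insert, mem_singleton] at h
      rcases h with rfl | rfl
      · exact hxH hi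
      · exact hxH' hi
    · intro j hj h
      rw [hig] at h
      have := g.injective h
      subst this
      rw [hZ, mem_insert, mem_singleton] at hj
      rcases hj with rfl | rfl
      · exact hxH hi
      · exact hxH' hi
  have hOO : ∀ σ ∈ X2, O.filter (fun i => σ i = s i) = (R2 \ H).filter (fun i => σ i = s i) := by
    intro σ hσ
    ext i
    rw [mem_filter, mem_filter, mem_sdiff, mem_sdiff]
    have hxσ := hXZ σ hσ x (by rw [hZ]; exact mem_insert_self _ _)
    have hxσ' := hXZ σ hσ x' (by rw [hZ]; exact mem_insert_of_mem (mem_singleton_self _))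
    constructor
    · rintro ⟨⟨h2, h3⟩, h4⟩
      refine ⟨⟨mem_filter.2 ⟨mem_compl.2 ?_, ?_⟩, h3⟩, h4⟩
      · intro h
        rw [hZ, mem_insert, mem_singleton] at h
        rcases h with rfl | rfl
        · exact hsx (by rw [← h4, hxσ])
        · exact hsx' (by rw [← h4, hxσ'])
      · intro j hj h
        rw [← h4] at h
        rw [hZ, mem_insert, mem_singleton] at hj
        rcases hj with rfl | rfl
        · rw [← hxσ] at h
          have := σ.injective h
          subst this
          exact hsx (by rw [← h4, hxσ])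
        · rw [← hxσ'] at h
          have := σ.injective h
          subst this
          exact hsx' (by rw [← h4, hxσ'])
    · rintro ⟨⟨h2, h3⟩, h4⟩
      obtain ⟨h5, h6⟩ := mem_filter.1 h2
      refine ⟨⟨mem_erase.2 ⟨?_, mem_erase.2 ⟨?_, mem_univ _⟩⟩, h3⟩, h4⟩
      · intro h
        apply h6 x (by rw [hZ]; exact mem_insert_self _ _)
        rw [h, ap_inv]
      · rintro rfl
        exact (mem_compl.1 h5) (by rw [hZ]; exact mem_insert_self _ _)
  -- the four counts
  have c1 : ((X.filter (fun σ => σ x' ≠ g x')).card : ℝ) ≤ (1 - p0) * A.card :=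
    card_miss hx' (filter_subset _ _)
  have c2 : ((X.filter (fun σ => ∀ i ∈ H, σ i = s i)).card : ℝ) ≤ (t.factorial : ℝ) := by
    have : (X.filter (fun σ => ∀ i ∈ H, σ i = s i)).card ≤ t.factorial := by
      calc (X.filter (fun σ => ∀ i ∈ H, σ i = s i)).card ≤ (star g (insert x H)).card := by
            apply card_le_card
            intro σ hσ
            obtain ⟨h4, h5⟩ := mem_filter.1 hσ
            refine mem_star.2 fun i hi => ?_
            rcases mem_insert.1 hi with rfl | hi
            · exact (hXA σ h4).2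
            · rw [h5 i hi, (mem_filter.1 hi).2]
        _ = _ := by
            rw [card_star, card_insert_of_notMem hxH, hcard]
            congr 1
            omega
    exact_mod_cast this
  have c3 : ((X.filter (fun σ => (∀ i ∈ H, σ i = s i) ∧ σ x' = g x')).card : ℝ) ≤
      ((t - 1).factorial : ℝ) := by
    have : (X.filter (fun σ => (∀ i ∈ H, σ i = s i) ∧ σ x' = g x')).card ≤ (t - 1).factorial := by
      calc (X.filter (fun σ => (∀ i ∈ H, σ i = s i) ∧ σ x' = g x')).card
          ≤ (star g (insert x (insert x' H))).card := by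
            apply card_le_card
            intro σ hσ
            obtain ⟨h4, h5, h6⟩ := mem_filter.1 hσ
            refine mem_star.2 fun i hi => ?_
            rcases mem_insert.1 hi with rfl | hi
            · exact (hXA σ h4).2
            · rcases mem_insert.1 hi with rfl | hi
              · exact h6
              · rw [h5 i hi, (mem_filter.1 hi).2]
        _ = _ := by
            rw [card_star, card_insert_of_notMem, card_insert_of_notMem hxH', hcard]
            · congr 1
              omega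
            · rw [mem_insert]
              push Not
              exact ⟨hxx, hxH⟩
    exact_mod_cast this
  have c4 := card_bad rfl ht hZc hXZ hZR hcR hR2c hHR2 hcard
  have c5 : ((X.filter (fun σ => σ x' = g x' ∧ ((H.filter (fun i => σ i = s i)).card + 1 = H.card ∧
      (O.filter (fun i => σ i = s i)).card = 1))).card : ℝ) ≤
      3 / 8 * (t * (t - 1) * ((t - 1).factorial : ℝ)) := by
    refine le_trans ?_ c4
    have : (X.filter (fun σ => σ x' = g x' ∧ ((H.filter (fun i => σ i = s i)).card + 1 = H.card ∧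
      (O.filter (fun i => σ i = s i)).card = 1))).card ≤
      (X2.filter (fun σ => (H.filter (fun i => σ i = s i)).card + 1 = H.card ∧
      ((R2 \ H).filter (fun i => σ i = s i)).card = 1)).card := by
      apply card_le_card
      intro σ hσ
      obtain ⟨h4, h5, h6, h7⟩ := mem_filter.1 hσ
      have h8 : σ ∈ X2 := mem_filter.2 ⟨h4, h5⟩
      refine mem_filter.2 ⟨h8, h6, ?_⟩
      rw [← hOO σ h8]
      exact h7
    exact_mod_cast this
  -- pointwise
  have h2 : ∀ σ ∈ X, (2 : ℝ) - (if σ x' ≠ g x' then 1 else 0) -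
      (if (∀ i ∈ H, σ i = s i) then 1 else 0) -
      (if ((∀ i ∈ H, σ i = s i) ∧ σ x' = g x') then 1 else 0) -
      (if (σ x' = g x' ∧ ((H.filter (fun i => σ i = s i)).card + 1 = H.card ∧
        (O.filter (fun i => σ i = s i)).card = 1)) then 1 else 0) ≤
      ((O.filter (fun i => σ i = s i)).card : ℝ) := by
    intro σ hσ
    have h3 : (R.filter (fun i => σ i = s i)).card =
        (H.filter (fun i => σ i = s i)).card + (O.filter (fun i => σ i = s i)).card := by
      rw [← card_union_of_disjoint (disjoint_filter_filter disjoint_sdiff), ← filter_union,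
        union_sdiff_of_subset hHR]
    have h4 := hXR σ hσ
    have hnn : (0 : ℝ) ≤ ((O.filter (fun i => σ i = s i)).card : ℝ) := Nat.cast_nonneg _
    by_cases h5 : ∀ i ∈ H, σ i = s i
    · rw [if_pos h5]
      by_cases h6 : σ x' = g x'
      · rw [if_neg (not_not.2 h6), if_pos (show (∀ i ∈ H, σ i = s i) ∧ σ x' = g x' from ⟨h5, h6⟩)]
        split_ifs <;> linarith
      · rw [if_pos h6, if_neg (show ¬ ((∀ i ∈ H, σ i = s i) ∧ σ x' = g x') from fun h => h6 h.2)]
        split_ifs <;> linarith
    · have h6 : (H.filter (fun i => σ i = s i)).card < H.card := by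
        apply card_lt_card
        refine (filter_subset _ _).ssubset_of_ne ?_
        intro h7
        exact h5 fun i hi => by
          rw [← h7] at hi
          exact (mem_filter.1 hi).2
      have h8 : 1 ≤ (O.filter (fun i => σ i = s i)).card := by omega
      have h8' : (1 : ℝ) ≤ ((O.filter (fun i => σ i = s i)).card : ℝ) := by exact_mod_cast h8
      rw [if_neg h5, if_neg (show ¬ ((∀ i ∈ H, σ i = s i) ∧ σ x' = g x') from fun h => h5 h.1)]
      by_cases h7 : σ x' = g x'
      · rw [if_neg (not_not.2 h7)]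
        by_cases h9 : 2 ≤ (O.filter (fun i => σ i = s i)).card
        · have h10 : (2 : ℝ) ≤ ((O.filter (fun i => σ i = s i)).card : ℝ) := by exact_mod_cast h9
          split_ifs <;> linarith
        · rw [if_pos (show (σ x' = g x' ∧ ((H.filter (fun i => σ i = s i)).card + 1 = H.card ∧
            (O.filter (fun i => σ i = s i)).card = 1)) from ⟨h7, by omega, by omega⟩)]
          linarith
      · rw [if_pos h7]
        split_ifs <;> linarith
  have h3 := sum_le_sum h2
  rw [sum_sub_distrib, sum_sub_distrib, sum_sub_distrib, sum_sub_distrib, sum_const, nsmul_eq_mul,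
    sum_boole, sum_boole, sum_boole, sum_boole] at h3
  obtain ⟨hf1, hf2, hf3⟩ := fac3 (t := t) (by omega)
  have h4 : (2 - β1 * (t - 1)) * (X.card : ℝ) ≤ (1 - p0) * A.card + (t.factorial : ℝ) +
      ((t - 1).factorial : ℝ) + 3 / 8 * (t * (t - 1) * ((t - 1).factorial : ℝ)) := by
    linarith
  have htf : (t.factorial : ℝ) = t * ((t - 1).factorial : ℝ) := by
    rw [hf2, hf3]
    ring
  have htf1 : ((t + 1).factorial : ℝ) = (t + 1) * (t * ((t - 1).factorial : ℝ)) := by
    rw [hf1, hf3]
    ring
  have h5 : (t.factorial : ℝ) + ((t - 1).factorial : ℝ) +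
      3 / 8 * (t * (t - 1) * ((t - 1).factorial : ℝ)) =
      (1 + 1 / t + 3 / 8 * (t - 1)) / (t + 1) * ((t + 1).factorial : ℝ) := by
    rw [htf, htf1]
    have : (t : ℝ) ≠ 0 := by linarith
    have : (t : ℝ) + 1 ≠ 0 := by linarith
    field_simp
  have hcoef : 0 ≤ (1 + 1 / (t : ℝ) + 3 / 8 * (t - 1)) / (t + 1) := by
    have h6 : (0 : ℝ) ≤ t - 1 := by linarith
    positivity
  have h6 : (1 + 1 / (t : ℝ) + 3 / 8 * (t - 1)) / (t + 1) * ((t + 1).factorial : ℝ) ≤
      (1 + 1 / (t : ℝ) + 3 / 8 * (t - 1)) / (t + 1) * A.card := mul_le_mul_of_nonneg_left hF hcoef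
  have hk : 0 ≤ 2 - β1 * (t - 1) := by nlinarith
  have h7 : (2 - β1 * (t - 1)) * (p0 * A.card) ≤ (2 - β1 * (t - 1)) * (X.card : ℝ) :=
    mul_le_mul_of_nonneg_left hx hk
  have h8 := mul_lt_mul_of_pos_right hC ha0
  nlinarith

end Pool.EG
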