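import Pool.Agent.Work.MP_46fa68_86.EndG4

/-! # endgame: the general assembly `endG_gen` (helper86) -/

set_option autoImplicit false

open Finset Equiv

namespace Pool.EG

variable {t : ℕ}

/-- (c), `|H| = t - 1`, inside `A_x` and `A_x'` -/
theorem step_ci1 (ht : 5 ≤ t) {A : Finset (Perm (Fin (2 * t + 1)))} (hA : TInt t A)
    {p0 β2 : ℝ} (hF : ((t + 1).factorial : ℝ) ≤ A.card) (hb2 : 0 ≤ β2)
    (hp0 : 1 / 2 < p0)
    (hC1 : 1 < (2 - β2 * t) * (2 * p0 - 1) * (t + 1))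
    {g : Perm (Fin (2 * t + 1))} {T : Finset (Fin (2 * t + 1))} (hL : Low2 A g T β2)
    {x x' : Fin (2 * t + 1)} (hxT : x ∈ T) (hxT' : x' ∈ T) (hxx : x ≠ x')
    (hx : p0 * A.card ≤ ((thr A x (g x)).card : ℝ))
    (hx' : p0 * A.card ≤ ((thr A x' (g x')).card : ℝ))
    {s : Perm (Fin (2 * t + 1))} (hs : s ∈ A) (hsx : s x ≠ g x) (hsx' : s x' ≠ g x')
    (hcard : (T.filter (fun i => s i = g i)).card + 1 = t) : False := by
  classical
  set X := thr A x (g x) ∩ thr A x' (g x') with hXdef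
  have hfac : (0 : ℝ) < ((t + 1).factorial : ℝ) := by exact_mod_cast Nat.factorial_pos _
  have ha0 : (0 : ℝ) < (A.card : ℝ) := lt_of_lt_of_le hfac hF
  have hθ : 0 < 2 * p0 - 1 := by linarith
  have hXc : (2 * p0 - 1) * A.card ≤ (X.card : ℝ) := by
    have h1 := card_union_add_card_inter (thr A x (g x)) (thr A x' (g x'))
    have h2 : (thr A x (g x) ∪ thr A x' (g x')).card ≤ A.card :=
      card_le_card (union_subset (filter_subset _ _) (filter_subset _ _))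
    rw [← hXdef] at h1
    have h3 : (thr A x (g x)).card + (thr A x' (g x')).card ≤ A.card + X.card := by omega
    have h4 : ((thr A x (g x)).card : ℝ) + ((thr A x' (g x')).card : ℝ) ≤ A.card + X.card := by
      exact_mod_cast h3
    linarith
  have hXF : (2 * p0 - 1) * ((t + 1).factorial : ℝ) ≤ (X.card : ℝ) :=
    le_trans (mul_le_mul_of_nonneg_left hF hθ.le) hXc
  have hXA : ∀ σ ∈ X, σ ∈ A ∧ σ x = g x ∧ σ x' = g x' := by
    intro σ hσ
    obtain ⟨h1, h2⟩ := mem_inter.1 hσ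
    exact ⟨(mem_filter.1 h1).1, (mem_filter.1 h1).2, (mem_filter.1 h2).2⟩
  set Z : Finset (Fin (2 * t + 1)) := {x, x'} with hZ
  have hZc : Z.card = 2 := card_pair hxx
  have hXZ : ∀ σ ∈ X, ∀ i ∈ Z, σ i = g i := by
    intro σ hσ i hi
    rw [hZ, mem_insert, mem_singleton] at hi
    rcases hi with rfl | rfl
    · exact (hXA σ hσ).2.1
    · exact (hXA σ hσ).2.2
  set R : Finset (Fin (2 * t + 1)) := Zᶜ.filter (fun i => ∀ j ∈ Z, s i ≠ g j) with hR
  have hZR : Disjoint Z R := by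
    rw [disjoint_left]
    intro i hi hi2
    exact (mem_compl.1 (mem_filter.1 hi2).1) hi
  have hcR : ∀ i ∈ R, ∀ j ∈ Z, s i ≠ g j := fun i hi => (mem_filter.1 hi).2
  have hRc : R.card ≤ 2 * t - 1 := by
    refine le_trans (card_filter_le _ _) ?_
    rw [card_compl, hZc, Fintype.card_fin]
    omega
  have hsZ : ∀ j ∈ Z, s j ≠ g j := by
    intro j hj
    rw [hZ, mem_insert, mem_singleton] at hj
    rcases hj with rfl | rfl
    · exact hsx
    · exact hsx'
  have hXR : ∀ σ ∈ X, t ≤ (R.filter (fun i => σ i = s i)).card := by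
    intro σ hσ
    refine le_trans (hA σ (hXA σ hσ).1 s hs) ?_
    unfold ag
    apply card_le_card
    intro i hi
    have hi2 := (mem_filter.1 hi).2
    refine mem_filter.2 ⟨mem_filter.2 ⟨mem_compl.2 ?_, ?_⟩, hi2⟩
    · intro h
      exact hsZ i h (by rw [← hi2, hXZ σ hσ i h])
    · intro j hj h
      have h1 : σ i = σ j := by rw [hi2, h, hXZ σ hσ j hj]
      have h2 := σ.injective h1
      exact hsZ j hj (by rw [← h, h2])
  set H : Finset (Fin (2 * t + 1)) := T.filter (fun i => s i = g i) with hH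
  have hHZ : ∀ i ∈ H, i ∉ Z := by
    intro i hi hiZ
    exact hsZ i hiZ (mem_filter.1 hi).2
  have hHR : H ⊆ R := by
    intro i hi
    refine mem_filter.2 ⟨mem_compl.2 (hHZ i hi), ?_⟩
    intro j hj h
    rw [(mem_filter.1 hi).2] at h
    have := g.injective h
    subst this
    exact hHZ _ hi hj
  have hgH : ∀ i ∈ R, i ∉ H → ((thr X i (s i)).card : ℝ) ≤ β2 * X.card := by
    intro i hi hiH
    apply hL x hxT x' hxT' hxx i (s i)
    rintro ⟨h1, h2⟩
    exact hiH (mem_filter.2 ⟨h1, h2⟩)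
  obtain ⟨hf1, hf2, hf3⟩ := fac3 (t := t) (by omega)
  have hff : (0 : ℝ) < ((t - 2).factorial : ℝ) := by exact_mod_cast Nat.factorial_pos _
  have htR : (5 : ℝ) ≤ t := by exact_mod_cast ht
  have hk : 0 < 2 - β2 * t := by
    by_contra hcon
    push Not at hcon
    have h3 : (2 - β2 * t) * (2 * p0 - 1) * ((t : ℝ) + 1) ≤ 0 :=
      mul_nonpos_of_nonpos_of_nonneg (mul_nonpos_of_nonpos_of_nonneg hcon hθ.le) (by linarith)
    linarith
  have h1 := core_eq hRc hHR hcard hXR hgH hb2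
  have h2 : (X.filter (fun σ => ∀ i ∈ H, σ i = s i)).card ≤ t.factorial := by
    calc (X.filter (fun σ => ∀ i ∈ H, σ i = s i)).card
        ≤ ((star g Z).filter (fun σ => ∀ i ∈ H, σ i = s i)).card := by
          apply card_le_card
          intro σ hσ
          rw [mem_filter] at hσ ⊢
          exact ⟨mem_star.2 (hXZ σ hσ.1), hσ.2⟩
      _ = (2 * t + 1 - (Z.card + H.card)).factorial :=
          card_two (disjoint_of_subset_right hHR hZR) (fun i hi j hj => hcR i (hHR hi) j hj)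
      _ = t.factorial := by
          rw [hZc]
          congr 1
          omega
  have h3 : ((X.filter (fun σ => ∀ i ∈ H, σ i = s i)).card : ℝ) ≤ (t.factorial : ℝ) := by
    exact_mod_cast h2
  have h5 : (2 - β2 * t) * ((2 * p0 - 1) * ((t + 1).factorial : ℝ)) ≤ (2 - β2 * t) * X.card :=
    mul_le_mul_of_nonneg_left hXF hk.le
  have h6 : (t.factorial : ℝ) * 1 <
      (t.factorial : ℝ) * ((2 - β2 * t) * (2 * p0 - 1) * (t + 1)) :=
    mul_lt_mul_of_pos_left hC1 (by exact_mod_cast Nat.factorial_pos _)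
  have h7 : ((t + 1).factorial : ℝ) = (t + 1) * (t.factorial : ℝ) := by
    rw [Nat.factorial_succ]
    push_cast
    ring
  rw [h7] at h5
  nlinarith

/-- (c), `|H| = t`, inside `A_x` and `A_x'` -/
theorem step_ci2 (ht : 5 ≤ t) {A : Finset (Perm (Fin (2 * t + 1)))} (hA : TInt t A)
    {p0 β2 : ℝ} (hF : ((t + 1).factorial : ℝ) ≤ A.card) (hb2 : 0 ≤ β2)
    (hp0 : 1 / 2 < p0)
    (hC2 : 2 + 3 / 8 * ((t : ℝ) * (t - 1)) < (2 - β2 * (t - 1)) * (2 * p0 - 1) * (t * (t + 1)))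
    {g : Perm (Fin (2 * t + 1))} {T : Finset (Fin (2 * t + 1))} (hL : Low2 A g T β2)
    {x x' : Fin (2 * t + 1)} (hxT : x ∈ T) (hxT' : x' ∈ T) (hxx : x ≠ x')
    (hx : p0 * A.card ≤ ((thr A x (g x)).card : ℝ))
    (hx' : p0 * A.card ≤ ((thr A x' (g x')).card : ℝ))
    {s : Perm (Fin (2 * t + 1))} (hs : s ∈ A) (hsx : s x ≠ g x) (hsx' : s x' ≠ g x')
    (hcard : (T.filter (fun i => s i = g i)).card = t) : False := by
  classical
  set X := thr A x (g x) ∩ thr A x' (g x') with hXdef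
  have hfac : (0 : ℝ) < ((t + 1).factorial : ℝ) := by exact_mod_cast Nat.factorial_pos _
  have ha0 : (0 : ℝ) < (A.card : ℝ) := lt_of_lt_of_le hfac hF
  have hθ : 0 < 2 * p0 - 1 := by linarith
  have hXc : (2 * p0 - 1) * A.card ≤ (X.card : ℝ) := by
    have h1 := card_union_add_card_inter (thr A x (g x)) (thr A x' (g x'))
    have h2 : (thr A x (g x) ∪ thr A x' (g x')).card ≤ A.card :=
      card_le_card (union_subset (filter_subset _ _) (filter_subset _ _))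
    rw [← hXdef] at h1
    have h3 : (thr A x (g x)).card + (thr A x' (g x')).card ≤ A.card + X.card := by omega
    have h4 : ((thr A x (g x)).card : ℝ) + ((thr A x' (g x')).card : ℝ) ≤ A.card + X.card := by
      exact_mod_cast h3
    linarith
  have hXF : (2 * p0 - 1) * ((t + 1).factorial : ℝ) ≤ (X.card : ℝ) :=
    le_trans (mul_le_mul_of_nonneg_left hF hθ.le) hXc
  have hXA : ∀ σ ∈ X, σ ∈ A ∧ σ x = g x ∧ σ x' = g x' := by
    intro σ hσ
    obtain ⟨h1, h2⟩ := mem_inter.1 hσ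
    exact ⟨(mem_filter.1 h1).1, (mem_filter.1 h1).2, (mem_filter.1 h2).2⟩
  set Z : Finset (Fin (2 * t + 1)) := {x, x'} with hZ
  have hZc : Z.card = 2 := card_pair hxx
  have hXZ : ∀ σ ∈ X, ∀ i ∈ Z, σ i = g i := by
    intro σ hσ i hi
    rw [hZ, mem_insert, mem_singleton] at hi
    rcases hi with rfl | rfl
    · exact (hXA σ hσ).2.1
    · exact (hXA σ hσ).2.2
  set R : Finset (Fin (2 * t + 1)) := Zᶜ.filter (fun i => ∀ j ∈ Z, s i ≠ g j) with hR
  have hZR : Disjoint Z R := by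
    rw [disjoint_left]
    intro i hi hi2
    exact (mem_compl.1 (mem_filter.1 hi2).1) hi
  have hcR : ∀ i ∈ R, ∀ j ∈ Z, s i ≠ g j := fun i hi => (mem_filter.1 hi).2
  have hRc : R.card ≤ 2 * t - 1 := by
    refine le_trans (card_filter_le _ _) ?_
    rw [card_compl, hZc, Fintype.card_fin]
    omega
  have hsZ : ∀ j ∈ Z, s j ≠ g j := by
    intro j hj
    rw [hZ, mem_insert, mem_singleton] at hj
    rcases hj with rfl | rfl
    · exact hsx
    · exact hsx'
  have hXR : ∀ σ ∈ X, t ≤ (R.filter (fun i => σ i = s i)).card := by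
    intro σ hσ
    refine le_trans (hA σ (hXA σ hσ).1 s hs) ?_
    unfold ag
    apply card_le_card
    intro i hi
    have hi2 := (mem_filter.1 hi).2
    refine mem_filter.2 ⟨mem_filter.2 ⟨mem_compl.2 ?_, ?_⟩, hi2⟩
    · intro h
      exact hsZ i h (by rw [← hi2, hXZ σ hσ i h])
    · intro j hj h
      have h1 : σ i = σ j := by rw [hi2, h, hXZ σ hσ j hj]
      have h2 := σ.injective h1
      exact hsZ j hj (by rw [← h, h2])
  set H : Finset (Fin (2 * t + 1)) := T.filter (fun i => s i = g i) with hH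
  have hHZ : ∀ i ∈ H, i ∉ Z := by
    intro i hi hiZ
    exact hsZ i hiZ (mem_filter.1 hi).2
  have hHR : H ⊆ R := by
    intro i hi
    refine mem_filter.2 ⟨mem_compl.2 (hHZ i hi), ?_⟩
    intro j hj h
    rw [(mem_filter.1 hi).2] at h
    have := g.injective h
    subst this
    exact hHZ _ hi hj
  have hgH : ∀ i ∈ R, i ∉ H → ((thr X i (s i)).card : ℝ) ≤ β2 * X.card := by
    intro i hi hiH
    apply hL x hxT x' hxT' hxx i (s i)
    rintro ⟨h1, h2⟩
    exact hiH (mem_filter.2 ⟨h1, h2⟩)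
  obtain ⟨hf1, hf2, hf3⟩ := fac3 (t := t) (by omega)
  have hff : (0 : ℝ) < ((t - 2).factorial : ℝ) := by exact_mod_cast Nat.factorial_pos _
  have htR : (5 : ℝ) ≤ t := by exact_mod_cast ht
  have h1 := core_t4 rfl ht hZc hXZ hZR hcR hRc hHR hcard hXR hgH hb2
  have h4 : 0 ≤ 2 - β2 * (t - 1) := by
    by_contra hcon
    push Not at hcon
    have h3 : (2 - β2 * (t - 1)) * (2 * p0 - 1) * (t * ((t : ℝ) + 1)) ≤ 0 :=
      mul_nonpos_of_nonpos_of_nonneg (mul_nonpos_of_nonpos_of_nonneg hcon.le hθ.le) (by positivity)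
    nlinarith
  have h5 : (2 - β2 * (t - 1)) * ((2 * p0 - 1) * ((t + 1).factorial : ℝ)) ≤
      (2 - β2 * (t - 1)) * X.card := mul_le_mul_of_nonneg_left hXF h4
  have hff1 : (0 : ℝ) < (t - 1) * ((t - 2).factorial : ℝ) := by
    apply mul_pos _ hff
    linarith
  have h6 := mul_lt_mul_of_pos_left hC2 hff1
  rw [hf1] at h5
  rw [hf3] at h1
  have h7 : (t - 1) * ((t - 2).factorial : ℝ) * ((2 - β2 * (t - 1)) * (2 * p0 - 1) * (t * (t + 1)))
      = (2 - β2 * (t - 1)) * ((2 * p0 - 1) * ((t + 1) * t * (t - 1) * ((t - 2).factorial : ℝ))) := by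
    ring
  have h8 : 2 * ((t - 1) * ((t - 2).factorial : ℝ)) +
      3 / 8 * (t * (t - 1) * ((t - 1) * ((t - 2).factorial : ℝ))) =
      (t - 1) * ((t - 2).factorial : ℝ) * (2 + 3 / 8 * ((t : ℝ) * (t - 1))) := by ring
  rw [h7] at h6
  rw [h8] at h1
  linarith


/-- the inequalities of the general endgame, without the one for the number of popular cells -/
structure NumH (t : ℕ) (β0 p0 β1 β2 : ℝ) : Prop where
  ht : 5 ≤ t
  hb0 : 0 ≤ β0
  hb1 : 0 ≤ β1
  hb2 : 0 ≤ β2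
  hp0 : 1 / 2 < p0
  ha : β0 * (2 * t) < t - 1
  hB : β1 * (t + 1) < 2
  hC1 : 1 < (2 - β2 * t) * (2 * p0 - 1) * (t + 1) ∨ 1 - p0 + 1 / (t + 1) < (2 - β1 * t) * p0
  hC2 : 2 + 3 / 8 * ((t : ℝ) * (t - 1)) < (2 - β2 * (t - 1)) * (2 * p0 - 1) * (t * (t + 1)) ∨
    1 - p0 + (1 + 1 / t + 3 / 8 * (t - 1)) / (t + 1) < (2 - β1 * (t - 1)) * p0
  hE : phi t < (2 - β1 * t) * p0 ∨
      1 < (2 - β1 * t) * p0 + (t - 1) * (1 - phi t / (2 - β1 * t)) ∨
      ∃ κ, Spec t κ ∧ κ < (2 - β1 * t) * p0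

/-- what the gaps have to give, for one pair `(A, T)` -/
def Input (t : ℕ) (β0 p0 β1 β2 : ℝ) : Prop :=
  ∀ (A : Finset (Perm (Fin (2 * t + 1)))) (g : Perm (Fin (2 * t + 1)))
      (T : Finset (Fin (2 * t + 1))), TInt t A → ((t + 1).factorial : ℝ) ≤ A.card →
      (∀ x y, ((thr A x y).card : ℝ) ≤ β0 * A.card ∨ p0 * A.card ≤ ((thr A x y).card : ℝ)) →
      (∀ x y, p0 * A.card ≤ ((thr A x y).card : ℝ) ↔ (x ∈ T ∧ y = g x)) →
      Low1 A g T β1 ∧ Low2 A g T β2 ∧ T.card ≤ t + 2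

/-- the general endgame -/
theorem endG_gen {β0 p0 β1 β2 : ℝ} (N : NumH t β0 p0 β1 β2) (hG0 : Gap (2 * t + 1) t 1 β0 p0)
    (hL : Input t β0 p0 β1 β2)
    (hLink : Link t) (hK : ∀ n' t' : ℕ, 2 * t' + 3 ≤ n' → Holds n' t') : Holds (2 * t + 1) t := by
  classical
  have ht := N.ht
  have htR : (5 : ℝ) ≤ t := by exact_mod_cast ht
  apply holds_of_good
  intro A hA
  by_cases hF' : A.card < (2 * t + 1 - t).factorial
  · exact good_of_lt hF'
  rw [not_lt, sub_eq] at hF'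
  have hF : ((t + 1).factorial : ℝ) ≤ A.card := by exact_mod_cast hF'
  have hfac : (0 : ℝ) < ((t + 1).factorial : ℝ) := by exact_mod_cast Nat.factorial_pos _
  have ha0 : (0 : ℝ) < (A.card : ℝ) := lt_of_lt_of_le hfac hF
  have hne : A.Nonempty := by
    rw [← card_pos]
    exact_mod_cast ha0
  have hgap : ∀ x y, ((thr A x y).card : ℝ) ≤ β0 * A.card ∨
      p0 * A.card ≤ ((thr A x y).card : ℝ) :=
    hG0 A hA (by rw [sub_eq, one_mul]; exact hF)
  obtain ⟨g, T, hpop, hcard⟩ := exists_pop hne N.hp0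
  have hβ1 : β0 ≤ 1 := by nlinarith [N.ha, N.hb0]
  have h1 := pop_ge hA hne hβ1 hgap
  rw [hcard] at h1
  push_cast at h1
  have hT2 : 2 ≤ T.card := by
    by_contra hcon
    push Not at hcon
    have h2 : (T.card : ℝ) ≤ 1 := by exact_mod_cast (by omega : T.card ≤ 1)
    nlinarith [N.ha, N.hb0]
  obtain ⟨hL1, hL2, hTc⟩ := hL A g T hA hF hgap hpop
  have hpop' : ∀ i ∈ T, p0 * A.card ≤ ((thr A i (g i)).card : ℝ) := fun i hi =>
    (hpop i (g i)).2 ⟨hi, rfl⟩
  have hp0' : 0 < p0 := by linarith [N.hp0]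
  have hXne : ∀ x ∈ T, (thr A x (g x)).Nonempty := by
    intro x hx
    rw [← card_pos]
    have h1 : (0 : ℝ) < ((thr A x (g x)).card : ℝ) := lt_of_lt_of_le (mul_pos hp0' ha0) (hpop' x hx)
    exact_mod_cast h1
  have hN : NoTwo A g T := by
    intro σ hσ i hi j hj hij h2
    by_contra h3
    have hlow := (step_bH (by omega) hA N.hb1 N.hB hL1 hσ hi h2 (hXne i hi)).1
    have hup : (T.filter (fun k => σ k = g k)).card ≤ t := by
      have h4 : T.filter (fun k => σ k = g k) ⊆ (T.erase i).erase j := by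
        intro k hk
        obtain ⟨h5, h6⟩ := mem_filter.1 hk
        refine mem_erase.2 ⟨?_, mem_erase.2 ⟨?_, h5⟩⟩
        · rintro rfl
          exact h3 h6
        · rintro rfl
          exact h2 h6
      have h5 := card_le_card h4
      rw [card_erase_of_mem (mem_erase.2 ⟨hij.symm, hj⟩), card_erase_of_mem hi] at h5
      omega
    rcases Nat.lt_or_ge (T.filter (fun k => σ k = g k)).card t with h | h
    · rcases N.hC1 with hC | hC
      · exact step_ci1 ht hA hF N.hb2 N.hp0 hC hL2 hi hj hij (hpop' i hi) (hpop' j hj) hσ h2 h3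
          (by omega)
      · exact step_c1' (by omega) hA hF N.hb1 hp0' N.hB hC hL1 hi hij (hpop' i hi) (hpop' j hj)
          hσ h2 h3 (by omega)
    · rcases N.hC2 with hC | hC
      · exact step_ci2 ht hA hF N.hb2 N.hp0 hC hL2 hi hj hij (hpop' i hi) (hpop' j hj) hσ h2 h3
          (by omega)
      · exact step_c2' ht hA hF N.hb1 hp0' N.hB hC hL1 hi hij (hpop' i hi) (hpop' j hj)
          hσ h2 h3 (by omega)
  exact endG_aux ht hA hF hLink hK N.hb1 hp0' N.hB hT2 hpop' hL1 hN N.hE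

/-- the inequality for the number of popular cells, from the top gap -/
def YTop (t : ℕ) (p0 : ℝ) : Prop :=
  2 + ((t : ℝ) + 3) * (t - 1) < (2 - (t + 3) * (1 - p0)) * ((t + 1) * t * (t - 1))

/-- one gap -/
theorem input_top {β0 p0 : ℝ} (ht : 2 ≤ t) (hb0 : 0 ≤ β0) (hp0 : 1 / 2 < p0) (hY : YTop t p0) :
    Input t β0 p0 (β0 / p0) (β0 / (2 * p0 - 1)) := fun _ _ _ _ hF hgap hpop =>
  ⟨low1_top hb0 (by linarith) hgap hpop, low2_top hb0 hp0 hgap hpop,
    step_y ht hF (fun i hi => (hpop i _).2 ⟨hi, rfl⟩) hY⟩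

/-- levels 0 and 1 -/
theorem input_one {β0 p0 β1 p1 : ℝ} (ht : 2 ≤ t) (hb0 : 0 ≤ β0) (hb1 : 0 ≤ β1) (hp0 : 1 / 2 < p0)
    (hB : β0 < p0 * p1) (hG1 : Gap (2 * t) (t - 1) p0 β1 p1) (hY : YTop t p0) :
    Input t β0 p0 β1 (β1 * p0 / (2 * p0 - 1)) := fun A g T hA hF hgap hpop => by
  have h1 := low1_gap (by omega) hA hF hb0 hb1 (by linarith) hB hgap hG1 hpop
  exact ⟨h1, low2_of_low1 hb1 hp0 hpop h1, step_y ht hF (fun i hi => (hpop i _).2 ⟨hi, rfl⟩) hY⟩

/-- levels 0, 1 and 2 -/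
theorem input_two {β0 p0 β1 p1 β2 p2 : ℝ} (ht : 2 ≤ t) (hb0 : 0 ≤ β0) (hb1 : 0 ≤ β1) (hb2 : 0 ≤ β2)
    (hp0 : 1 / 2 < p0) (hB1 : β0 < p0 * p1) (hB2 : β0 < (2 * p0 - 1) * p2)
    (hG1 : Gap (2 * t) (t - 1) p0 β1 p1) (hG2 : Gap (2 * t - 1) (t - 2) (2 * p0 - 1) β2 p2)
    (hY : YTop t p0) : Input t β0 p0 β1 β2 := fun A g T hA hF hgap hpop =>
  ⟨low1_gap (by omega) hA hF hb0 hb1 (by linarith) hB1 hgap hG1 hpop,
    low2_gap ht hA hF hb0 hb2 hp0 hB2 hgap hG2 hpop,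
    step_y ht hF (fun i hi => (hpop i _).2 ⟨hi, rfl⟩) hY⟩

/-- levels 0 and 2 -/
theorem input_one' {β0 p0 β2 p2 : ℝ} (ht : 2 ≤ t) (hb0 : 0 ≤ β0) (hb2 : 0 ≤ β2)
    (hp0 : 1 / 2 < p0) (hB2 : β0 < (2 * p0 - 1) * p2)
    (hG2 : Gap (2 * t - 1) (t - 2) (2 * p0 - 1) β2 p2)
    (hY : YTop t p0) : Input t β0 p0 (β0 / p0) β2 := fun A g T hA hF hgap hpop =>
  ⟨low1_top hb0 (by linarith) hgap hpop,
    low2_gap ht hA hF hb0 hb2 hp0 hB2 hgap hG2 hpop,
    step_y ht hF (fun i hi => (hpop i _).2 ⟨hi, rfl⟩) hY⟩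

end Pool.EG
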