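import Pool.Agent.Work.MP_46fa68_86.EndG5
import Pool.Agent.Work.MP_46fa68_74.EndY1

/-! # endgame: master form (helper86, with helper74's count of popular cells)

Input for a family `A` with popular cells `T`: `Low1 β1`, `Low2 β2`, `|A_x ∩ A_x'| ≥ θ |A|`,
`|A_x without A_x'| ≤ ρ |A_x|` (`x ≠ x'` popular) and `|T| ≤ t + 2`. -/

set_option autoImplicit false

open Finset Equiv

namespace Pool.EG

variable {t : ℕ}

/-- (c), `|H| = t - 1`, inside `A_x` and `A_x'` -/
theorem step_mi1 (ht : 5 ≤ t) {A : Finset (Perm (Fin (2 * t + 1)))} (hA : TInt t A)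
    {θ β2 : ℝ} (hF : ((t + 1).factorial : ℝ) ≤ A.card) (hb2 : 0 ≤ β2)
    (hθ : 0 < θ)
    (hC1 : 1 < (2 - β2 * t) * θ * (t + 1))
    {g : Perm (Fin (2 * t + 1))} {T : Finset (Fin (2 * t + 1))} (hL : Low2 A g T β2)
    {x x' : Fin (2 * t + 1)} (hxT : x ∈ T) (hxT' : x' ∈ T) (hxx : x ≠ x')
    (hXc : θ * A.card ≤ ((thr A x (g x) ∩ thr A x' (g x')).card : ℝ))
    {s : Perm (Fin (2 * t + 1))} (hs : s ∈ A) (hsx : s x ≠ g x) (hsx' : s x' ≠ g x')
    (hcard : (T.filter (fun i => s i = g i)).card + 1 = t) : False := by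
  classical
  set X := thr A x (g x) ∩ thr A x' (g x') with hXdef
  have hfac : (0 : ℝ) < ((t + 1).factorial : ℝ) := by exact_mod_cast Nat.factorial_pos _
  have ha0 : (0 : ℝ) < (A.card : ℝ) := lt_of_lt_of_le hfac hF
  have hXF : θ * ((t + 1).factorial : ℝ) ≤ (X.card : ℝ) :=
    le_trans (mul_le_mul_of_nonneg_left hF hθ.le) hXc
  have hXA : ∀ σ ∈ X, σ ∈ A ∧ σ x = g x ∧ σ x' = g x' := by
    intro σ hσ
    obtain ⟨h1, h2⟩ := mem_inter.1 hσ
    exact ⟨(mem_filter.1 h1).1, (mem_filter.1 h1).2, (mem_filter.1 h2).2⟩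
  set Z : Finset (Fin (2 * t + 1)) := {x, x'} with hZ
  have hZc : Z.card = 2 := card_pair hxx
  have hXZ : ∀ σ ∈ X, ∀ i ∈ Z, σ i = g i := by
    intro σ hσ i hi
    rw [hZ, mem_insert, mem_singleton] at hi
    rcases hi with rfl | rfl
    · exact (hXA σ hσ).2.1
    · exact (hXA σ hσ).2.2
  set R : Finset (Fin (2 * t + 1)) := Zᶜ.filter (fun i => ∀ j ∈ Z, s i ≠ g j) with hR
  have hZR : Disjoint Z R := by
    rw [disjoint_left]
    intro i hi hi2
    exact (mem_compl.1 (mem_filter.1 hi2).1) hi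
  have hcR : ∀ i ∈ R, ∀ j ∈ Z, s i ≠ g j := fun i hi => (mem_filter.1 hi).2
  have hRc : R.card ≤ 2 * t - 1 := by
    refine le_trans (card_filter_le _ _) ?_
    rw [card_compl, hZc, Fintype.card_fin]
    omega
  have hsZ : ∀ j ∈ Z, s j ≠ g j := by
    intro j hj
    rw [hZ, mem_insert, mem_singleton] at hj
    rcases hj with rfl | rfl
    · exact hsx
    · exact hsx'
  have hXR : ∀ σ ∈ X, t ≤ (R.filter (fun i => σ i = s i)).card := by
    intro σ hσ
    refine le_trans (hA σ (hXA σ hσ).1 s hs) ?_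
    unfold ag
    apply card_le_card
    intro i hi
    have hi2 := (mem_filter.1 hi).2
    refine mem_filter.2 ⟨mem_filter.2 ⟨mem_compl.2 ?_, ?_⟩, hi2⟩
    · intro h
      exact hsZ i h (by rw [← hi2, hXZ σ hσ i h])
    · intro j hj h
      have h1 : σ i = σ j := by rw [hi2, h, hXZ σ hσ j hj]
      have h2 := σ.injective h1
      exact hsZ j hj (by rw [← h, h2])
  set H : Finset (Fin (2 * t + 1)) := T.filter (fun i => s i = g i) with hH
  have hHZ : ∀ i ∈ H, i ∉ Z := by
    intro i hi hiZ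
    exact hsZ i hiZ (mem_filter.1 hi).2
  have hHR : H ⊆ R := by
    intro i hi
    refine mem_filter.2 ⟨mem_compl.2 (hHZ i hi), ?_⟩
    intro j hj h
    rw [(mem_filter.1 hi).2] at h
    have := g.injective h
    subst this
    exact hHZ _ hi hj
  have hgH : ∀ i ∈ R, i ∉ H → ((thr X i (s i)).card : ℝ) ≤ β2 * X.card := by
    intro i hi hiH
    apply hL x hxT x' hxT' hxx i (s i)
    rintro ⟨h1, h2⟩
    exact hiH (mem_filter.2 ⟨h1, h2⟩)
  obtain ⟨hf1, hf2, hf3⟩ := fac3 (t := t) (by omega)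
  have hff : (0 : ℝ) < ((t - 2).factorial : ℝ) := by exact_mod_cast Nat.factorial_pos _
  have htR : (5 : ℝ) ≤ t := by exact_mod_cast ht
  have hk : 0 < 2 - β2 * t := by
    by_contra hcon
    push Not at hcon
    have h3 : (2 - β2 * t) * θ * ((t : ℝ) + 1) ≤ 0 :=
      mul_nonpos_of_nonpos_of_nonneg (mul_nonpos_of_nonpos_of_nonneg hcon hθ.le) (by linarith)
    linarith
  have h1 := core_eq hRc hHR hcard hXR hgH hb2
  have h2 : (X.filter (fun σ => ∀ i ∈ H, σ i = s i)).card ≤ t.factorial := by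
    calc (X.filter (fun σ => ∀ i ∈ H, σ i = s i)).card
        ≤ ((star g Z).filter (fun σ => ∀ i ∈ H, σ i = s i)).card := by
          apply card_le_card
          intro σ hσ
          rw [mem_filter] at hσ ⊢
          exact ⟨mem_star.2 (hXZ σ hσ.1), hσ.2⟩
      _ = (2 * t + 1 - (Z.card + H.card)).factorial :=
          card_two (disjoint_of_subset_right hHR hZR) (fun i hi j hj => hcR i (hHR hi) j hj)
      _ = t.factorial := by
          rw [hZc]
          congr 1
          omega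
  have h3 : ((X.filter (fun σ => ∀ i ∈ H, σ i = s i)).card : ℝ) ≤ (t.factorial : ℝ) := by
    exact_mod_cast h2
  have h5 : (2 - β2 * t) * (θ * ((t + 1).factorial : ℝ)) ≤ (2 - β2 * t) * X.card :=
    mul_le_mul_of_nonneg_left hXF hk.le
  have h6 : (t.factorial : ℝ) * 1 <
      (t.factorial : ℝ) * ((2 - β2 * t) * θ * (t + 1)) :=
    mul_lt_mul_of_pos_left hC1 (by exact_mod_cast Nat.factorial_pos _)
  have h7 : ((t + 1).factorial : ℝ) = (t + 1) * (t.factorial : ℝ) := by
    rw [Nat.factorial_succ]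
    push_cast
    ring
  rw [h7] at h5
  nlinarith

/-- (c), `|H| = t`, inside `A_x` and `A_x'` -/
theorem step_mi2 (ht : 5 ≤ t) {A : Finset (Perm (Fin (2 * t + 1)))} (hA : TInt t A)
    {θ β2 : ℝ} (hF : ((t + 1).factorial : ℝ) ≤ A.card) (hb2 : 0 ≤ β2)
    (hθ : 0 < θ)
    (hC2 : 2 + 3 / 8 * ((t : ℝ) * (t - 1)) < (2 - β2 * (t - 1)) * θ * (t * (t + 1)))
    {g : Perm (Fin (2 * t + 1))} {T : Finset (Fin (2 * t + 1))} (hL : Low2 A g T β2)
    {x x' : Fin (2 * t + 1)} (hxT : x ∈ T) (hxT' : x' ∈ T) (hxx : x ≠ x')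
    (hXc : θ * A.card ≤ ((thr A x (g x) ∩ thr A x' (g x')).card : ℝ))
    {s : Perm (Fin (2 * t + 1))} (hs : s ∈ A) (hsx : s x ≠ g x) (hsx' : s x' ≠ g x')
    (hcard : (T.filter (fun i => s i = g i)).card = t) : False := by
  classical
  set X := thr A x (g x) ∩ thr A x' (g x') with hXdef
  have hfac : (0 : ℝ) < ((t + 1).factorial : ℝ) := by exact_mod_cast Nat.factorial_pos _
  have ha0 : (0 : ℝ) < (A.card : ℝ) := lt_of_lt_of_le hfac hF
  have hXF : θ * ((t + 1).factorial : ℝ) ≤ (X.card : ℝ) :=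
    le_trans (mul_le_mul_of_nonneg_left hF hθ.le) hXc
  have hXA : ∀ σ ∈ X, σ ∈ A ∧ σ x = g x ∧ σ x' = g x' := by
    intro σ hσ
    obtain ⟨h1, h2⟩ := mem_inter.1 hσ
    exact ⟨(mem_filter.1 h1).1, (mem_filter.1 h1).2, (mem_filter.1 h2).2⟩
  set Z : Finset (Fin (2 * t + 1)) := {x, x'} with hZ
  have hZc : Z.card = 2 := card_pair hxx
  have hXZ : ∀ σ ∈ X, ∀ i ∈ Z, σ i = g i := by
    intro σ hσ i hi
    rw [hZ, mem_insert, mem_singleton] at hi
    rcases hi with rfl | rfl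
    · exact (hXA σ hσ).2.1
    · exact (hXA σ hσ).2.2
  set R : Finset (Fin (2 * t + 1)) := Zᶜ.filter (fun i => ∀ j ∈ Z, s i ≠ g j) with hR
  have hZR : Disjoint Z R := by
    rw [disjoint_left]
    intro i hi hi2
    exact (mem_compl.1 (mem_filter.1 hi2).1) hi
  have hcR : ∀ i ∈ R, ∀ j ∈ Z, s i ≠ g j := fun i hi => (mem_filter.1 hi).2
  have hRc : R.card ≤ 2 * t - 1 := by
    refine le_trans (card_filter_le _ _) ?_
    rw [card_compl, hZc, Fintype.card_fin]
    omega
  have hsZ : ∀ j ∈ Z, s j ≠ g j := by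
    intro j hj
    rw [hZ, mem_insert, mem_singleton] at hj
    rcases hj with rfl | rfl
    · exact hsx
    · exact hsx'
  have hXR : ∀ σ ∈ X, t ≤ (R.filter (fun i => σ i = s i)).card := by
    intro σ hσ
    refine le_trans (hA σ (hXA σ hσ).1 s hs) ?_
    unfold ag
    apply card_le_card
    intro i hi
    have hi2 := (mem_filter.1 hi).2
    refine mem_filter.2 ⟨mem_filter.2 ⟨mem_compl.2 ?_, ?_⟩, hi2⟩
    · intro h
      exact hsZ i h (by rw [← hi2, hXZ σ hσ i h])
    · intro j hj h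
      have h1 : σ i = σ j := by rw [hi2, h, hXZ σ hσ j hj]
      have h2 := σ.injective h1
      exact hsZ j hj (by rw [← h, h2])
  set H : Finset (Fin (2 * t + 1)) := T.filter (fun i => s i = g i) with hH
  have hHZ : ∀ i ∈ H, i ∉ Z := by
    intro i hi hiZ
    exact hsZ i hiZ (mem_filter.1 hi).2
  have hHR : H ⊆ R := by
    intro i hi
    refine mem_filter.2 ⟨mem_compl.2 (hHZ i hi), ?_⟩
    intro j hj h
    rw [(mem_filter.1 hi).2] at h
    have := g.injective h
    subst this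
    exact hHZ _ hi hj
  have hgH : ∀ i ∈ R, i ∉ H → ((thr X i (s i)).card : ℝ) ≤ β2 * X.card := by
    intro i hi hiH
    apply hL x hxT x' hxT' hxx i (s i)
    rintro ⟨h1, h2⟩
    exact hiH (mem_filter.2 ⟨h1, h2⟩)
  obtain ⟨hf1, hf2, hf3⟩ := fac3 (t := t) (by omega)
  have hff : (0 : ℝ) < ((t - 2).factorial : ℝ) := by exact_mod_cast Nat.factorial_pos _
  have htR : (5 : ℝ) ≤ t := by exact_mod_cast ht
  have h1 := core_t4 rfl ht hZc hXZ hZR hcR hRc hHR hcard hXR hgH hb2
  have h4 : 0 ≤ 2 - β2 * (t - 1) := by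
    by_contra hcon
    push Not at hcon
    have h3 : (2 - β2 * (t - 1)) * θ * (t * ((t : ℝ) + 1)) ≤ 0 :=
      mul_nonpos_of_nonpos_of_nonneg (mul_nonpos_of_nonpos_of_nonneg hcon.le hθ.le) (by positivity)
    nlinarith
  have h5 : (2 - β2 * (t - 1)) * (θ * ((t + 1).factorial : ℝ)) ≤
      (2 - β2 * (t - 1)) * X.card := mul_le_mul_of_nonneg_left hXF h4
  have hff1 : (0 : ℝ) < (t - 1) * ((t - 2).factorial : ℝ) := by
    apply mul_pos _ hff
    linarith
  have h6 := mul_lt_mul_of_pos_left hC2 hff1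
  rw [hf1] at h5
  rw [hf3] at h1
  have h7 : (t - 1) * ((t - 2).factorial : ℝ) * ((2 - β2 * (t - 1)) * θ * (t * (t + 1)))
      = (2 - β2 * (t - 1)) * (θ * ((t + 1) * t * (t - 1) * ((t - 2).factorial : ℝ))) := by
    ring
  have h8 : 2 * ((t - 1) * ((t - 2).factorial : ℝ)) +
      3 / 8 * (t * (t - 1) * ((t - 1) * ((t - 2).factorial : ℝ))) =
      (t - 1) * ((t - 2).factorial : ℝ) * (2 + 3 / 8 * ((t : ℝ) * (t - 1))) := by ring
  rw [h7] at h6
  rw [h8] at h1
  linarith


/-- (c), `|H| = t - 1`, inside `A_x` only -/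
theorem step_mc1 (ht : 1 ≤ t) {A : Finset (Perm (Fin (2 * t + 1)))} (hA : TInt t A)
    {p0 β1 ρ : ℝ} (hF : ((t + 1).factorial : ℝ) ≤ A.card) (hb1 : 0 ≤ β1) (hp0 : 0 < p0)
    (hB : β1 * (t + 1) < 2)
    (hC : 1 / (t + 1) < (2 - ρ - β1 * t) * p0)
    {g : Perm (Fin (2 * t + 1))} {T : Finset (Fin (2 * t + 1))} (hL : Low1 A g T β1)
    {x x' : Fin (2 * t + 1)} (hxT : x ∈ T) (hxx : x ≠ x')
    (hx : p0 * A.card ≤ ((thr A x (g x)).card : ℝ))
    (hx' : (((thr A x (g x)).filter (fun σ => σ x' ≠ g x')).card : ℝ) ≤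
      ρ * ((thr A x (g x)).card : ℝ))
    {s : Perm (Fin (2 * t + 1))} (hs : s ∈ A) (hsx : s x ≠ g x) (hsx' : s x' ≠ g x')
    (hcard : (T.filter (fun i => s i = g i)).card + 1 = t) : False := by
  classical
  have hfac : (0 : ℝ) < ((t + 1).factorial : ℝ) := by exact_mod_cast Nat.factorial_pos _
  have ha0 : (0 : ℝ) < (A.card : ℝ) := lt_of_lt_of_le hfac hF
  have hne : (thr A x (g x)).Nonempty := by
    rw [← card_pos]
    have : (0 : ℝ) < ((thr A x (g x)).card : ℝ) := lt_of_lt_of_le (mul_pos hp0 ha0) hx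
    exact_mod_cast this
  have h1 := (step_bH ht hA hb1 hB hL hs hxT hsx hne).2 hcard
  set H : Finset (Fin (2 * t + 1)) := T.filter (fun i => s i = g i) with hH
  set X := thr A x (g x) with hX
  set W := X.filter (fun σ => (∀ i ∈ H, σ i = s i) ∧
    ((((univ.erase x).erase (s⁻¹ (g x))) \ H).filter (fun i => σ i = s i)).card = 1) with hW
  have h2 := card_filter_add_card_filter_not (s := W) (fun σ => σ x' = g x')
  have h3 : (W.filter (fun σ => σ x' = g x')).card ≤ t.factorial := by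
    have hxH : x ∉ H := fun h => hsx (mem_filter.1 h).2
    have hxH' : x' ∉ H := fun h => hsx' (mem_filter.1 h).2
    have hc : (insert x (insert x' H)).card = t + 1 := by
      rw [card_insert_of_notMem, card_insert_of_notMem hxH', hcard]
      rw [mem_insert]
      push Not
      exact ⟨hxx, hxH⟩
    calc (W.filter (fun σ => σ x' = g x')).card ≤ (star g (insert x (insert x' H))).card := by
          apply card_le_card
          intro σ hσ
          obtain ⟨h4, h5⟩ := mem_filter.1 hσ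
          obtain ⟨h6, h7, _⟩ := mem_filter.1 h4
          refine mem_star.2 fun i hi => ?_
          rcases mem_insert.1 hi with rfl | hi
          · exact (mem_filter.1 h6).2
          · rcases mem_insert.1 hi with rfl | hi
            · exact h5
            · rw [h7 i hi, (mem_filter.1 hi).2]
      _ = _ := by
          rw [card_star, hc]
          congr 1
          omega
  have h4 : ((W.filter (fun σ => ¬ σ x' = g x')).card : ℝ) ≤ ρ * X.card := by
    refine le_trans ?_ hx'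
    exact_mod_cast card_le_card (filter_subset_filter _ (filter_subset _ _))
  have h5 : (W.card : ℝ) ≤ (t.factorial : ℝ) + ρ * X.card := by
    have h6 : (W.card : ℝ) = ((W.filter (fun σ => σ x' = g x')).card : ℝ) +
        ((W.filter (fun σ => ¬ σ x' = g x')).card : ℝ) := by exact_mod_cast h2.symm
    have h7 : ((W.filter (fun σ => σ x' = g x')).card : ℝ) ≤ (t.factorial : ℝ) := by
      exact_mod_cast h3
    linarith
  have htR : (0 : ℝ) < (t : ℝ) + 1 := by positivity
  have h6 : (t.factorial : ℝ) ≤ 1 / (t + 1) * A.card := by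
    have h7 : ((t + 1).factorial : ℝ) = (t + 1) * (t.factorial : ℝ) := by
      rw [Nat.factorial_succ]
      push_cast
      ring
    rw [h7] at hF
    rw [one_div, inv_mul_eq_div, le_div_iff₀ htR]
    linarith
  have hk : 0 ≤ 2 - ρ - β1 * t := by
    by_contra hcon
    push Not at hcon
    have h8 : (2 - ρ - β1 * t) * p0 < 0 := mul_neg_of_neg_of_pos hcon hp0
    have h9 : (0 : ℝ) < 1 / (t + 1) := by positivity
    linarith
  have h7 : (2 - ρ - β1 * t) * (p0 * A.card) ≤ (2 - ρ - β1 * t) * (X.card : ℝ) :=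
    mul_le_mul_of_nonneg_left hx hk
  have h8 := mul_lt_mul_of_pos_right hC ha0
  nlinarith

/-- (c), `|H| = t`, inside `A_x` only -/
theorem step_mc2 (ht : 5 ≤ t) {A : Finset (Perm (Fin (2 * t + 1)))} (hA : TInt t A)
    {p0 β1 ρ : ℝ} (hF : ((t + 1).factorial : ℝ) ≤ A.card) (hb1 : 0 ≤ β1) (hp0 : 0 < p0)
    (hB : β1 * (t + 1) < 2)
    (hC : (1 + 1 / t + 3 / 8 * (t - 1)) / (t + 1) < (2 - ρ - β1 * (t - 1)) * p0)
    {g : Perm (Fin (2 * t + 1))} {T : Finset (Fin (2 * t + 1))} (hL : Low1 A g T β1)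
    {x x' : Fin (2 * t + 1)} (hxT : x ∈ T) (hxx : x ≠ x')
    (hx : p0 * A.card ≤ ((thr A x (g x)).card : ℝ))
    (hx' : (((thr A x (g x)).filter (fun σ => σ x' ≠ g x')).card : ℝ) ≤
      ρ * ((thr A x (g x)).card : ℝ))
    {s : Perm (Fin (2 * t + 1))} (hs : s ∈ A) (hsx : s x ≠ g x) (hsx' : s x' ≠ g x')
    (hcard : (T.filter (fun i => s i = g i)).card = t) : False := by
  classical
  have hfac : (0 : ℝ) < ((t + 1).factorial : ℝ) := by exact_mod_cast Nat.factorial_pos _
  have ha0 : (0 : ℝ) < (A.card : ℝ) := lt_of_lt_of_le hfac hF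
  set H : Finset (Fin (2 * t + 1)) := T.filter (fun i => s i = g i) with hH
  set X := thr A x (g x) with hXdef
  have hXA : ∀ σ ∈ X, σ ∈ A ∧ σ x = g x := fun σ hσ => mem_filter.1 hσ
  set R : Finset (Fin (2 * t + 1)) := (univ.erase x).erase (s⁻¹ (g x)) with hR
  have hne' : s⁻¹ (g x) ≠ x := by
    intro h
    apply hsx
    rw [← h, ap_inv, h]
  have hRc : R.card = 2 * t - 1 := by
    rw [hR, card_erase_of_mem (mem_erase.2 ⟨hne', mem_univ _⟩), card_erase_of_mem (mem_univ _),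
      card_univ, Fintype.card_fin]
    omega
  have hXR : ∀ σ ∈ X, t ≤ (R.filter (fun i => σ i = s i)).card := by
    intro σ hσ
    refine le_trans (hA σ (hXA σ hσ).1 s hs) ?_
    unfold ag
    apply card_le_card
    intro i hi
    have hi2 := (mem_filter.1 hi).2
    refine mem_filter.2 ⟨mem_erase.2 ⟨?_, mem_erase.2 ⟨?_, mem_univ _⟩⟩, hi2⟩
    · intro h
      have h1 : s i = g x := by rw [h, ap_inv]
      have h2 : σ i = σ x := by rw [hi2, h1, (hXA σ hσ).2]
      have h3 := σ.injective h2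
      apply hsx
      rw [← h1, h3]
    · rintro rfl
      apply hsx
      rw [← hi2, (hXA σ hσ).2]
  have hHR : H ⊆ R := by
    intro i hi
    obtain ⟨hiT, hig⟩ := mem_filter.1 hi
    have hix : i ≠ x := by
      rintro rfl
      exact hsx hig
    refine mem_erase.2 ⟨?_, mem_erase.2 ⟨hix, mem_univ _⟩⟩
    intro h
    have h1 : s i = g x := by rw [h, ap_inv]
    rw [h1] at hig
    exact hix (g.injective hig).symm
  set O := R \ H with hO
  have hOc : O.card = t - 1 := by
    rw [hO, card_sdiff_of_subset hHR]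
    omega
  have ht1 : ((t - 1 : ℕ) : ℝ) = t - 1 := by
    rw [Nat.cast_sub (by omega)]
    simp
  have htR : (5 : ℝ) ≤ t := by exact_mod_cast ht
  -- the sum of u
  have h1 : ∑ σ ∈ X, ((O.filter (fun i => σ i = s i)).card : ℝ) ≤ (t - 1) * (β1 * X.card) := by
    have h2 : ∑ σ ∈ X, ((O.filter (fun i => σ i = s i)).card : ℝ) =
        ∑ i ∈ O, ((thr X i (s i)).card : ℝ) := by
      have := sum_thr_hits X s O
      exact_mod_cast this.symm
    rw [h2]
    calc ∑ i ∈ O, ((thr X i (s i)).card : ℝ) ≤ ∑ i ∈ O, β1 * X.card := by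
          refine sum_le_sum fun i hi => ?_
          apply hL x hxT i (s i)
          rintro ⟨h1, h2⟩
          exact (mem_sdiff.1 hi).2 (mem_filter.2 ⟨h1, h2⟩)
      _ = (t - 1) * (β1 * X.card) := by rw [sum_const, nsmul_eq_mul, hOc, ht1]
  -- the two stars
  have hxH : x ∉ H := fun h => hsx (mem_filter.1 h).2
  have hxH' : x' ∉ H := fun h => hsx' (mem_filter.1 h).2
  set X2 := X.filter (fun σ => σ x' = g x') with hX2
  set Z : Finset (Fin (2 * t + 1)) := {x, x'} with hZ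
  have hZc : Z.card = 2 := card_pair hxx
  have hXZ : ∀ σ ∈ X2, ∀ i ∈ Z, σ i = g i := by
    intro σ hσ i hi
    rw [hZ, mem_insert, mem_singleton] at hi
    rcases hi with rfl | rfl
    · exact (hXA σ (mem_filter.1 hσ).1).2
    · exact (mem_filter.1 hσ).2
  set R2 : Finset (Fin (2 * t + 1)) := Zᶜ.filter (fun i => ∀ j ∈ Z, s i ≠ g j) with hR2
  have hZR : Disjoint Z R2 := by
    rw [disjoint_left]
    intro i hi hi2
    exact (mem_compl.1 (mem_filter.1 hi2).1) hi
  have hcR : ∀ i ∈ R2, ∀ j ∈ Z, s i ≠ g j := fun i hi => (mem_filter.1 hi).2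
  have hR2c : R2.card ≤ 2 * t - 1 := by
    refine le_trans (card_filter_le _ _) ?_
    rw [card_compl, hZc, Fintype.card_fin]
    omega
  have hHR2 : H ⊆ R2 := by
    intro i hi
    obtain ⟨hiT, hig⟩ := mem_filter.1 hi
    refine mem_filter.2 ⟨mem_compl.2 ?_, ?_⟩
    · intro h
      rw [hZ, mem_insert, mem_singleton] at h
      rcases h with rfl | rfl
      · exact hxH hi
      · exact hxH' hi
    · intro j hj h
      rw [hig] at h
      have := g.injective h
      subst this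
      rw [hZ, mem_insert, mem_singleton] at hj
      rcases hj with rfl | rfl
      · exact hxH hi
      · exact hxH' hi
  have hOO : ∀ σ ∈ X2, O.filter (fun i => σ i = s i) = (R2 \ H).filter (fun i => σ i = s i) := by
    intro σ hσ
    ext i
    rw [mem_filter, mem_filter, mem_sdiff, mem_sdiff]
    have hxσ := hXZ σ hσ x (by rw [hZ]; exact mem_insert_self _ _)
    have hxσ' := hXZ σ hσ x' (by rw [hZ]; exact mem_insert_of_mem (mem_singleton_self _))
    constructor
    · rintro ⟨⟨h2, h3⟩, h4⟩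
      refine ⟨⟨mem_filter.2 ⟨mem_compl.2 ?_, ?_⟩, h3⟩, h4⟩
      · intro h
        rw [hZ, mem_insert, mem_singleton] at h
        rcases h with rfl | rfl
        · exact hsx (by rw [← h4, hxσ])
        · exact hsx' (by rw [← h4, hxσ'])
      · intro j hj h
        rw [← h4] at h
        rw [hZ, mem_insert, mem_singleton] at hj
        rcases hj with rfl | rfl
        · rw [← hxσ] at h
          have := σ.injective h
          subst this
          exact hsx (by rw [← h4, hxσ])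
        · rw [← hxσ'] at h
          have := σ.injective h
          subst this
          exact hsx' (by rw [← h4, hxσ'])
    · rintro ⟨⟨h2, h3⟩, h4⟩
      obtain ⟨h5, h6⟩ := mem_filter.1 h2
      refine ⟨⟨mem_erase.2 ⟨?_, mem_erase.2 ⟨?_, mem_univ _⟩⟩, h3⟩, h4⟩
      · intro h
        apply h6 x (by rw [hZ]; exact mem_insert_self _ _)
        rw [h, ap_inv]
      · rintro rfl
        exact (mem_compl.1 h5) (by rw [hZ]; exact mem_insert_self _ _)
  -- the four counts
  have c1 : ((X.filter (fun σ => σ x' ≠ g x')).card : ℝ) ≤ ρ * X.card := hx'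
  have c2 : ((X.filter (fun σ => ∀ i ∈ H, σ i = s i)).card : ℝ) ≤ (t.factorial : ℝ) := by
    have : (X.filter (fun σ => ∀ i ∈ H, σ i = s i)).card ≤ t.factorial := by
      calc (X.filter (fun σ => ∀ i ∈ H, σ i = s i)).card ≤ (star g (insert x H)).card := by
            apply card_le_card
            intro σ hσ
            obtain ⟨h4, h5⟩ := mem_filter.1 hσ
            refine mem_star.2 fun i hi => ?_
            rcases mem_insert.1 hi with rfl | hi
            · exact (hXA σ h4).2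
            · rw [h5 i hi, (mem_filter.1 hi).2]
        _ = _ := by
            rw [card_star, card_insert_of_notMem hxH, hcard]
            congr 1
            omega
    exact_mod_cast this
  have c3 : ((X.filter (fun σ => (∀ i ∈ H, σ i = s i) ∧ σ x' = g x')).card : ℝ) ≤
      ((t - 1).factorial : ℝ) := by
    have : (X.filter (fun σ => (∀ i ∈ H, σ i = s i) ∧ σ x' = g x')).card ≤ (t - 1).factorial := by
      calc (X.filter (fun σ => (∀ i ∈ H, σ i = s i) ∧ σ x' = g x')).card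
          ≤ (star g (insert x (insert x' H))).card := by
            apply card_le_card
            intro σ hσ
            obtain ⟨h4, h5, h6⟩ := mem_filter.1 hσ
            refine mem_star.2 fun i hi => ?_
            rcases mem_insert.1 hi with rfl | hi
            · exact (hXA σ h4).2
            · rcases mem_insert.1 hi with rfl | hi
              · exact h6
              · rw [h5 i hi, (mem_filter.1 hi).2]
        _ = _ := by
            rw [card_star, card_insert_of_notMem, card_insert_of_notMem hxH', hcard]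
            · congr 1
              omega
            · rw [mem_insert]
              push Not
              exact ⟨hxx, hxH⟩
    exact_mod_cast this
  have c4 := card_bad rfl ht hZc hXZ hZR hcR hR2c hHR2 hcard
  have c5 : ((X.filter (fun σ => σ x' = g x' ∧ ((H.filter (fun i => σ i = s i)).card + 1 = H.card ∧
      (O.filter (fun i => σ i = s i)).card = 1))).card : ℝ) ≤
      3 / 8 * (t * (t - 1) * ((t - 1).factorial : ℝ)) := by
    refine le_trans ?_ c4
    have : (X.filter (fun σ => σ x' = g x' ∧ ((H.filter (fun i => σ i = s i)).card + 1 = H.card ∧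
      (O.filter (fun i => σ i = s i)).card = 1))).card ≤
      (X2.filter (fun σ => (H.filter (fun i => σ i = s i)).card + 1 = H.card ∧
      ((R2 \ H).filter (fun i => σ i = s i)).card = 1)).card := by
      apply card_le_card
      intro σ hσ
      obtain ⟨h4, h5, h6, h7⟩ := mem_filter.1 hσ
      have h8 : σ ∈ X2 := mem_filter.2 ⟨h4, h5⟩
      refine mem_filter.2 ⟨h8, h6, ?_⟩
      rw [← hOO σ h8]
      exact h7
    exact_mod_cast this
  -- pointwise
  have h2 : ∀ σ ∈ X, (2 : ℝ) - (if σ x' ≠ g x' then 1 else 0) -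
      (if (∀ i ∈ H, σ i = s i) then 1 else 0) -
      (if ((∀ i ∈ H, σ i = s i) ∧ σ x' = g x') then 1 else 0) -
      (if (σ x' = g x' ∧ ((H.filter (fun i => σ i = s i)).card + 1 = H.card ∧
        (O.filter (fun i => σ i = s i)).card = 1)) then 1 else 0) ≤
      ((O.filter (fun i => σ i = s i)).card : ℝ) := by
    intro σ hσ
    have h3 : (R.filter (fun i => σ i = s i)).card =
        (H.filter (fun i => σ i = s i)).card + (O.filter (fun i => σ i = s i)).card := by
      rw [← card_union_of_disjoint (disjoint_filter_filter disjoint_sdiff), ← filter_union,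
        union_sdiff_of_subset hHR]
    have h4 := hXR σ hσ
    have hnn : (0 : ℝ) ≤ ((O.filter (fun i => σ i = s i)).card : ℝ) := Nat.cast_nonneg _
    by_cases h5 : ∀ i ∈ H, σ i = s i
    · rw [if_pos h5]
      by_cases h6 : σ x' = g x'
      · rw [if_neg (not_not.2 h6), if_pos (show (∀ i ∈ H, σ i = s i) ∧ σ x' = g x' from ⟨h5, h6⟩)]
        split_ifs <;> linarith
      · rw [if_pos h6, if_neg (show ¬ ((∀ i ∈ H, σ i = s i) ∧ σ x' = g x') from fun h => h6 h.2)]
        split_ifs <;> linarith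
    · have h6 : (H.filter (fun i => σ i = s i)).card < H.card := by
        apply card_lt_card
        refine (filter_subset _ _).ssubset_of_ne ?_
        intro h7
        exact h5 fun i hi => by
          rw [← h7] at hi
          exact (mem_filter.1 hi).2
      have h8 : 1 ≤ (O.filter (fun i => σ i = s i)).card := by omega
      have h8' : (1 : ℝ) ≤ ((O.filter (fun i => σ i = s i)).card : ℝ) := by exact_mod_cast h8
      rw [if_neg h5, if_neg (show ¬ ((∀ i ∈ H, σ i = s i) ∧ σ x' = g x') from fun h => h5 h.1)]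
      by_cases h7 : σ x' = g x'
      · rw [if_neg (not_not.2 h7)]
        by_cases h9 : 2 ≤ (O.filter (fun i => σ i = s i)).card
        · have h10 : (2 : ℝ) ≤ ((O.filter (fun i => σ i = s i)).card : ℝ) := by exact_mod_cast h9
          split_ifs <;> linarith
        · rw [if_pos (show (σ x' = g x' ∧ ((H.filter (fun i => σ i = s i)).card + 1 = H.card ∧
            (O.filter (fun i => σ i = s i)).card = 1)) from ⟨h7, by omega, by omega⟩)]
          linarith
      · rw [if_pos h7]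
        split_ifs <;> linarith
  have h3 := sum_le_sum h2
  rw [sum_sub_distrib, sum_sub_distrib, sum_sub_distrib, sum_sub_distrib, sum_const, nsmul_eq_mul,
    sum_boole, sum_boole, sum_boole, sum_boole] at h3
  obtain ⟨hf1, hf2, hf3⟩ := fac3 (t := t) (by omega)
  have h4 : (2 - β1 * (t - 1)) * (X.card : ℝ) ≤ ρ * X.card + (t.factorial : ℝ) +
      ((t - 1).factorial : ℝ) + 3 / 8 * (t * (t - 1) * ((t - 1).factorial : ℝ)) := by
    linarith
  have htf : (t.factorial : ℝ) = t * ((t - 1).factorial : ℝ) := by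
    rw [hf2, hf3]
    ring
  have htf1 : ((t + 1).factorial : ℝ) = (t + 1) * (t * ((t - 1).factorial : ℝ)) := by
    rw [hf1, hf3]
    ring
  have h5 : (t.factorial : ℝ) + ((t - 1).factorial : ℝ) +
      3 / 8 * (t * (t - 1) * ((t - 1).factorial : ℝ)) =
      (1 + 1 / t + 3 / 8 * (t - 1)) / (t + 1) * ((t + 1).factorial : ℝ) := by
    rw [htf, htf1]
    have : (t : ℝ) ≠ 0 := by linarith
    have : (t : ℝ) + 1 ≠ 0 := by linarith
    field_simp
  have hcoef : 0 ≤ (1 + 1 / (t : ℝ) + 3 / 8 * (t - 1)) / (t + 1) := by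
    have h6 : (0 : ℝ) ≤ t - 1 := by linarith
    positivity
  have h6 : (1 + 1 / (t : ℝ) + 3 / 8 * (t - 1)) / (t + 1) * ((t + 1).factorial : ℝ) ≤
      (1 + 1 / (t : ℝ) + 3 / 8 * (t - 1)) / (t + 1) * A.card := mul_le_mul_of_nonneg_left hF hcoef
  have hk : 0 ≤ 2 - ρ - β1 * (t - 1) := by
    by_contra hcon
    push Not at hcon
    have h8 : (2 - ρ - β1 * (t - 1)) * p0 < 0 := mul_neg_of_neg_of_pos hcon hp0
    linarith
  have h7 : (2 - ρ - β1 * (t - 1)) * (p0 * A.card) ≤ (2 - ρ - β1 * (t - 1)) * (X.card : ℝ) :=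
    mul_le_mul_of_nonneg_left hx hk
  have h8 := mul_lt_mul_of_pos_right hC ha0
  nlinarith

/-- the inequalities of the master form -/
structure NumM (t : ℕ) (β0 p0 β1 β2 θ ρ : ℝ) : Prop where
  ht : 5 ≤ t
  hb0 : 0 ≤ β0
  hb1 : 0 ≤ β1
  hb2 : 0 ≤ β2
  hθ : 0 < θ
  hp0 : 1 / 2 < p0
  ha : β0 * (2 * t) < t - 1
  hB : β1 * (t + 1) < 2
  hC1 : 1 < (2 - β2 * t) * θ * (t + 1) ∨ 1 / (t + 1) < (2 - ρ - β1 * t) * p0
  hC2 : 2 + 3 / 8 * ((t : ℝ) * (t - 1)) < (2 - β2 * (t - 1)) * θ * (t * (t + 1)) ∨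
    (1 + 1 / t + 3 / 8 * (t - 1)) / (t + 1) < (2 - ρ - β1 * (t - 1)) * p0
  hE : phi t < (2 - β1 * t) * p0 ∨
      1 < (2 - β1 * t) * p0 + (t - 1) * (1 - phi t / (2 - β1 * t)) ∨
      ∃ κ, Spec t κ ∧ κ < (2 - β1 * t) * p0

/-- two popular cells have many common members -/
def Pair2 {n : ℕ} (A : Finset (Perm (Fin n))) (g : Perm (Fin n)) (T : Finset (Fin n)) (θ ρ : ℝ) : Prop :=
  ∀ x ∈ T, ∀ x' ∈ T, x ≠ x' →
    θ * A.card ≤ ((thr A x (g x) ∩ thr A x' (g x')).card : ℝ) ∧
    (((thr A x (g x)).filter (fun σ => σ x' ≠ g x')).card : ℝ) ≤ ρ * ((thr A x (g x)).card : ℝ)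

/-- the input of the master form -/
def InputM (t : ℕ) (β0 p0 β1 β2 θ ρ : ℝ) : Prop :=
  ∀ (A : Finset (Perm (Fin (2 * t + 1)))) (g : Perm (Fin (2 * t + 1)))
      (T : Finset (Fin (2 * t + 1))), TInt t A → ((t + 1).factorial : ℝ) ≤ A.card →
      (∀ x y, ((thr A x y).card : ℝ) ≤ β0 * A.card ∨ p0 * A.card ≤ ((thr A x y).card : ℝ)) →
      (∀ x y, p0 * A.card ≤ ((thr A x y).card : ℝ) ↔ (x ∈ T ∧ y = g x)) →
      Low1 A g T β1 ∧ Low2 A g T β2 ∧ Pair2 A g T θ ρ ∧ T.card ≤ t + 2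

/-- the master endgame -/
theorem endM {β0 p0 β1 β2 θ ρ : ℝ} (N : NumM t β0 p0 β1 β2 θ ρ) (hG0 : Gap (2 * t + 1) t 1 β0 p0)
    (hL : InputM t β0 p0 β1 β2 θ ρ)
    (hLink : Link t) (hK : ∀ n' t' : ℕ, 2 * t' + 3 ≤ n' → Holds n' t') : Holds (2 * t + 1) t := by
  classical
  have ht := N.ht
  have htR : (5 : ℝ) ≤ t := by exact_mod_cast ht
  apply holds_of_good
  intro A hA
  by_cases hF' : A.card < (2 * t + 1 - t).factorial
  · exact good_of_lt hF'
  rw [not_lt, sub_eq] at hF'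
  have hF : ((t + 1).factorial : ℝ) ≤ A.card := by exact_mod_cast hF'
  have hfac : (0 : ℝ) < ((t + 1).factorial : ℝ) := by exact_mod_cast Nat.factorial_pos _
  have ha0 : (0 : ℝ) < (A.card : ℝ) := lt_of_lt_of_le hfac hF
  have hne : A.Nonempty := by
    rw [← card_pos]
    exact_mod_cast ha0
  have hgap : ∀ x y, ((thr A x y).card : ℝ) ≤ β0 * A.card ∨
      p0 * A.card ≤ ((thr A x y).card : ℝ) :=
    hG0 A hA (by rw [sub_eq, one_mul]; exact hF)
  obtain ⟨g, T, hpop, hcard⟩ := exists_pop hne N.hp0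
  have hβ1 : β0 ≤ 1 := by nlinarith [N.ha, N.hb0]
  have h1 := pop_ge hA hne hβ1 hgap
  rw [hcard] at h1
  push_cast at h1
  have hT2 : 2 ≤ T.card := by
    by_contra hcon
    push Not at hcon
    have h2 : (T.card : ℝ) ≤ 1 := by exact_mod_cast (by omega : T.card ≤ 1)
    nlinarith [N.ha, N.hb0]
  obtain ⟨hL1, hL2, hP, hTc⟩ := hL A g T hA hF hgap hpop
  have hpop' : ∀ i ∈ T, p0 * A.card ≤ ((thr A i (g i)).card : ℝ) := fun i hi =>
    (hpop i (g i)).2 ⟨hi, rfl⟩
  have hp0' : 0 < p0 := by linarith [N.hp0]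
  have hXne : ∀ x ∈ T, (thr A x (g x)).Nonempty := by
    intro x hx
    rw [← card_pos]
    have h1 : (0 : ℝ) < ((thr A x (g x)).card : ℝ) := lt_of_lt_of_le (mul_pos hp0' ha0) (hpop' x hx)
    exact_mod_cast h1
  have hN : NoTwo A g T := by
    intro σ hσ i hi j hj hij h2
    by_contra h3
    have hlow := (step_bH (by omega) hA N.hb1 N.hB hL1 hσ hi h2 (hXne i hi)).1
    have hup : (T.filter (fun k => σ k = g k)).card ≤ t := by
      have h4 : T.filter (fun k => σ k = g k) ⊆ (T.erase i).erase j := by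
        intro k hk
        obtain ⟨h5, h6⟩ := mem_filter.1 hk
        refine mem_erase.2 ⟨?_, mem_erase.2 ⟨?_, h5⟩⟩
        · rintro rfl
          exact h3 h6
        · rintro rfl
          exact h2 h6
      have h5 := card_le_card h4
      rw [card_erase_of_mem (mem_erase.2 ⟨hij.symm, hj⟩), card_erase_of_mem hi] at h5
      omega
    obtain ⟨hP1, hP2⟩ := hP i hi j hj hij
    rcases Nat.lt_or_ge (T.filter (fun k => σ k = g k)).card t with h | h
    · rcases N.hC1 with hC | hC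
      · exact step_mi1 ht hA hF N.hb2 N.hθ hC hL2 hi hj hij hP1 hσ h2 h3 (by omega)
      · exact step_mc1 (by omega) hA hF N.hb1 hp0' N.hB hC hL1 hi hij (hpop' i hi) hP2
          hσ h2 h3 (by omega)
    · rcases N.hC2 with hC | hC
      · exact step_mi2 ht hA hF N.hb2 N.hθ hC hL2 hi hj hij hP1 hσ h2 h3 (by omega)
      · exact step_mc2 ht hA hF N.hb1 hp0' N.hB hC hL1 hi hij (hpop' i hi) hP2
          hσ h2 h3 (by omega)
  exact endG_aux ht hA hF hLink hK N.hb1 hp0' N.hB hT2 hpop' hL1 hN N.hE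

/-! ### the input from the top gap -/

theorem filter_ne_eq {n : ℕ} (A : Finset (Perm (Fin n))) (g : Perm (Fin n)) (x x' : Fin n) :
    ((thr A x (g x)).filter (fun σ => σ x' ≠ g x')).card + (thr A x (g x) ∩ thr A x' (g x')).card =
      (thr A x (g x)).card := by
  classical
  have h1 := card_filter_add_card_filter_not (s := thr A x (g x)) (fun σ => σ x' = g x')
  have h2 : (thr A x (g x)).filter (fun σ => σ x' = g x') = thr A x (g x) ∩ thr A x' (g x') := by
    ext σ
    rw [mem_inter, mem_filter]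
    constructor
    · rintro ⟨h3, h4⟩
      exact ⟨h3, mem_filter.2 ⟨(mem_filter.1 h3).1, h4⟩⟩
    · rintro ⟨h3, h4⟩
      exact ⟨h3, (mem_filter.1 h4).2⟩
  rw [h2] at h1
  have h3 : (thr A x (g x)).filter (fun σ => σ x' ≠ g x') =
      (thr A x (g x)).filter (fun σ => ¬ σ x' = g x') := rfl
  rw [h3]
  omega

theorem pair_top {n : ℕ} {A : Finset (Perm (Fin n))} {p0 : ℝ} (hp0 : 0 < p0) (hp1 : p0 ≤ 1)
    {g : Perm (Fin n)} {T : Finset (Fin n)}
    (hpop : ∀ i ∈ T, p0 * A.card ≤ ((thr A i (g i)).card : ℝ)) :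
    Pair2 A g T (2 * p0 - 1) ((1 - p0) / p0) := by
  classical
  intro x hx x' hx' _
  refine ⟨inter_ge (hpop x hx) (hpop x' hx'), ?_⟩
  refine (card_miss (hpop x' hx') (filter_subset _ _)).trans ?_
  calc (1 - p0) * A.card = (1 - p0) / p0 * (p0 * A.card) := by field_simp
    _ ≤ _ := mul_le_mul_of_nonneg_left (hpop x hx) (div_nonneg (by linarith) hp0.le)

/-- one gap -/
theorem inputM_top {β0 p0 : ℝ} (ht : 2 ≤ t) (hb0 : 0 ≤ β0) (hp0 : 1 / 2 < p0) (hp1 : p0 ≤ 1)
    (hY : YTop t p0) :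
    InputM t β0 p0 (β0 / p0) (β0 / (2 * p0 - 1)) (2 * p0 - 1) ((1 - p0) / p0) :=
  fun _ _ _ _ hF hgap hpop =>
  have hpop' := fun i hi => (hpop i _).2 ⟨hi, rfl⟩
  ⟨low1_top hb0 (by linarith) hgap hpop, low2_top hb0 hp0 hgap hpop,
    pair_top (by linarith) hp1 hpop', step_y ht hF hpop' hY⟩

/-! ### the input from the gap one level below -/

/-- a popular cell is popular in `A_x` -/
theorem pop_link (ht : 1 ≤ t) {A : Finset (Perm (Fin (2 * t + 1)))} (hA : TInt t A)
    {p0 β1 p1 : ℝ} (hF : ((t + 1).factorial : ℝ) ≤ A.card) (hp0 : 0 < p0) (hb1 : 0 ≤ β1)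
    (hB : β1 * p0 < 2 * p0 - 1) (hG1 : Gap (2 * t) (t - 1) p0 β1 p1)
    {g : Perm (Fin (2 * t + 1))} {T : Finset (Fin (2 * t + 1))}
    (hpop : ∀ i ∈ T, p0 * A.card ≤ ((thr A i (g i)).card : ℝ)) :
    ∀ x ∈ T, ∀ x' ∈ T, x ≠ x' →
      p1 * ((thr A x (g x)).card : ℝ) ≤ ((thr A x (g x) ∩ thr A x' (g x')).card : ℝ) := by
  classical
  intro c hcT i hiT hci
  have hic : i ≠ c := fun h => hci h.symm
  have hfac : (0 : ℝ) < ((t + 1).factorial : ℝ) := by exact_mod_cast Nat.factorial_pos _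
  have ha0 : (0 : ℝ) < (A.card : ℝ) := lt_of_lt_of_le hfac hF
  set X := thr A c (g c) with hXdef
  have hXc : p0 * A.card ≤ (X.card : ℝ) := hpop c hcT
  have hX0 : (0 : ℝ) < (X.card : ℝ) := lt_of_lt_of_le (mul_pos hp0 ha0) hXc
  have hXA : ∀ σ ∈ X, σ ∈ A ∧ σ c = g c := fun σ hσ => mem_filter.1 hσ
  have hTX : TInt t X := fun σ hσ τ hτ => hA σ (hXA σ hσ).1 τ (hXA τ hτ).1
  have h3 : X ∩ thr A i (g i) = thr X i (g i) := by
    ext σ
    rw [mem_inter]
    constructor
    · rintro ⟨h4, h5⟩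
      exact mem_filter.2 ⟨h4, (mem_filter.1 h5).2⟩
    · intro h4
      obtain ⟨h5, h6⟩ := mem_filter.1 h4
      exact ⟨h5, mem_filter.2 ⟨(mem_filter.1 h5).1, h6⟩⟩
  rw [h3]
  have h2 := gap_star hG1 hb1 (t := t) (k := 1) (n := 2 * t + 1) (by omega) rfl (by omega)
    (by omega) (g := g) (T := {c}) (card_singleton c) hTX (by
      intro σ hσ k hk
      rw [mem_singleton] at hk
      rw [hk]
      exact (hXA σ hσ).2) (by
      rw [sub_eq]
      exact (mul_le_mul_of_nonneg_left hF hp0.le).trans hXc) i (g i) (by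
      rw [mem_singleton]
      exact hic)
  rcases h2 with h2 | h2
  · exfalso
    have h4 := card_union_add_card_inter (thr A c (g c)) (thr A i (g i))
    have h5 : (thr A c (g c) ∪ thr A i (g i)).card ≤ A.card :=
      card_le_card (union_subset (filter_subset _ _) (filter_subset _ _))
    rw [← hXdef] at h4 h5
    rw [h3] at h4
    have h6 : X.card + (thr A i (g i)).card ≤ A.card + (thr X i (g i)).card := by omega
    have h7 : (X.card : ℝ) + ((thr A i (g i)).card : ℝ) ≤ A.card + ((thr X i (g i)).card : ℝ) := by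
      exact_mod_cast h6
    have h8 := hpop i hiT
    have h9 : (2 * p0 - 1) * (X.card : ℝ) ≤ p0 * ((thr X i (g i)).card : ℝ) := by
      have h10 : (X.card : ℝ) ≤ A.card := by exact_mod_cast card_le_card (filter_subset _ _)
      have h11 : p0 * ((X.card : ℝ) + p0 * A.card) ≤ p0 * (A.card + ((thr X i (g i)).card : ℝ)) :=
        mul_le_mul_of_nonneg_left (by linarith) hp0.le
      have hp1 : p0 ≤ 1 := by
        by_contra hcon2
        push Not at hcon2
        nlinarith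
      nlinarith [mul_nonneg (sub_nonneg.2 hp1) (sub_nonneg.2 hXc)]
    have h12 : p0 * ((thr X i (g i)).card : ℝ) ≤ p0 * (β1 * X.card) :=
      mul_le_mul_of_nonneg_left h2 hp0.le
    have h13 := mul_lt_mul_of_pos_right hB hX0
    nlinarith
  · exact h2

theorem pair_link {n : ℕ} {A : Finset (Perm (Fin n))} {p0 p1 : ℝ} (hp1 : 0 ≤ p1)
    {g : Perm (Fin n)} {T : Finset (Fin n)}
    (hpop : ∀ i ∈ T, p0 * A.card ≤ ((thr A i (g i)).card : ℝ))
    (h : ∀ x ∈ T, ∀ x' ∈ T, x ≠ x' →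
      p1 * ((thr A x (g x)).card : ℝ) ≤ ((thr A x (g x) ∩ thr A x' (g x')).card : ℝ)) :
    Pair2 A g T (p0 * p1) (1 - p1) := by
  intro x hx x' hx' hxx
  have h1 := h x hx x' hx' hxx
  constructor
  · calc p0 * p1 * A.card = p1 * (p0 * A.card) := by ring
      _ ≤ p1 * ((thr A x (g x)).card : ℝ) := mul_le_mul_of_nonneg_left (hpop x hx) hp1
      _ ≤ _ := h1
  · have h2 := filter_ne_eq A g x x'
    have h3 : (((thr A x (g x)).filter (fun σ => σ x' ≠ g x')).card : ℝ) +
        ((thr A x (g x) ∩ thr A x' (g x')).card : ℝ) = ((thr A x (g x)).card : ℝ) := by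
      exact_mod_cast h2
    linarith

/-- level two from level one, two-sided -/
theorem low2_link {n : ℕ} {A : Finset (Perm (Fin n))} {β1 p1 : ℝ} (hb1 : 0 ≤ β1) (hp1 : 0 < p1)
    {g : Perm (Fin n)} {T : Finset (Fin n)} (hL : Low1 A g T β1)
    (h : ∀ x ∈ T, ∀ x' ∈ T, x ≠ x' →
      p1 * ((thr A x (g x)).card : ℝ) ≤ ((thr A x (g x) ∩ thr A x' (g x')).card : ℝ)) :
    Low2 A g T (β1 / p1) := by
  classical
  intro x hx x' hx' hxx i j hij
  have h1 := hL x hx i j hij
  have h2 : ((thr (thr A x (g x) ∩ thr A x' (g x')) i j).card : ℝ) ≤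
      ((thr (thr A x (g x)) i j).card : ℝ) := by
    have : (thr (thr A x (g x) ∩ thr A x' (g x')) i j).card ≤ (thr (thr A x (g x)) i j).card := by
      apply card_le_card
      intro σ hσ
      obtain ⟨h3, h4⟩ := mem_filter.1 hσ
      exact mem_filter.2 ⟨(mem_inter.1 h3).1, h4⟩
    exact_mod_cast this
  calc ((thr (thr A x (g x) ∩ thr A x' (g x')) i j).card : ℝ) ≤ β1 * ((thr A x (g x)).card : ℝ) :=
        h2.trans h1
    _ = β1 / p1 * (p1 * ((thr A x (g x)).card : ℝ)) := by field_simp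
    _ ≤ _ := mul_le_mul_of_nonneg_left (h x hx x' hx' hxx) (div_nonneg hb1 hp1.le)

/-- the inequality for the number of popular cells, from the gap one level below (helper74) -/
def YLink (t : ℕ) (p0 p1 : ℝ) : Prop :=
  2 + ((t : ℝ) + 2) * (t - 1) < (2 - (t + 2) * (1 - p1)) * (p0 * ((t + 1) * t * (t - 1)))

/-- levels 0 and 1 -/
theorem inputM_one {β0 p0 β1 p1 : ℝ} (ht : 2 ≤ t) (hb0 : 0 ≤ β0) (hb1 : 0 ≤ β1) (hp0 : 1 / 2 < p0)
    (hp1 : 0 < p1) (hB : β0 < p0 * p1) (hB' : β1 * p0 < 2 * p0 - 1)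
    (hG1 : Gap (2 * t) (t - 1) p0 β1 p1) (hY : YTop t p0 ∨ YLink t p0 p1) :
    InputM t β0 p0 β1 (β1 / p1) (p0 * p1) (1 - p1) := fun A g T hA hF hgap hpop => by
  have hp0' : 0 < p0 := by linarith
  have hpop' : ∀ i ∈ T, p0 * A.card ≤ ((thr A i (g i)).card : ℝ) := fun i hi =>
    (hpop i _).2 ⟨hi, rfl⟩
  have h1 := low1_gap (by omega) hA hF hb0 hb1 hp0' hB hgap hG1 hpop
  have h2 := pop_link (by omega) hA hF hp0' hb1 hB' hG1 hpop'
  refine ⟨h1, low2_link hb1 hp1 h1 h2, pair_link hp1.le hpop' h2, ?_⟩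
  rcases hY with hY | hY
  · exact step_y ht hF hpop' hY
  · exact step_y1 ht hA hF hp0' hb1 hB' hG1 hpop' hY

/-- the level two gap, `|A_x ∩ A_x'| ≥ θ |A|` -/
theorem low2_gapθ (ht : 2 ≤ t) {A : Finset (Perm (Fin (2 * t + 1)))} (hA : TInt t A)
    (hF : ((t + 1).factorial : ℝ) ≤ A.card) {β0 p0 β2 p2 θ : ℝ} (hb0 : 0 ≤ β0) (hb2 : 0 ≤ β2)
    (hθ : 0 < θ) (hB : β0 < θ * p2)
    (hgap : ∀ x y, ((thr A x y).card : ℝ) ≤ β0 * A.card ∨ p0 * A.card ≤ ((thr A x y).card : ℝ))
    (hG2 : Gap (2 * t - 1) (t - 2) θ β2 p2)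
    {g : Perm (Fin (2 * t + 1))} {T : Finset (Fin (2 * t + 1))}
    (hpop : ∀ x y, p0 * A.card ≤ ((thr A x y).card : ℝ) ↔ (x ∈ T ∧ y = g x))
    (hpair : ∀ x ∈ T, ∀ x' ∈ T, x ≠ x' →
      θ * A.card ≤ ((thr A x (g x) ∩ thr A x' (g x')).card : ℝ)) :
    Low2 A g T β2 := by
  classical
  intro x hx x' hx' hxx i j hij
  have hfac : (0 : ℝ) < ((t + 1).factorial : ℝ) := by exact_mod_cast Nat.factorial_pos _
  have ha0 : (0 : ℝ) < (A.card : ℝ) := lt_of_lt_of_le hfac hF
  set X := thr A x (g x) ∩ thr A x' (g x') with hXdef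
  have hXc : θ * A.card ≤ (X.card : ℝ) := hpair x hx x' hx' hxx
  have hXA : ∀ σ ∈ X, σ ∈ A ∧ σ x = g x ∧ σ x' = g x' := by
    intro σ hσ
    obtain ⟨h1, h2⟩ := mem_inter.1 hσ
    exact ⟨(mem_filter.1 h1).1, (mem_filter.1 h1).2, (mem_filter.1 h2).2⟩
  have hp1 : 0 < p2 := by
    by_contra hcon
    push Not at hcon
    nlinarith
  have h1 : ((thr A i j).card : ℝ) ≤ β0 * A.card := by
    rcases hgap i j with h | h
    · exact h
    · exact absurd ((hpop i j).1 h) hij
  set Z : Finset (Fin (2 * t + 1)) := {x, x'} with hZ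
  have hZc : Z.card = 2 := card_pair hxx
  have hXZ : ∀ σ ∈ X, ∀ i ∈ Z, σ i = g i := by
    intro σ hσ i hi
    rw [hZ, mem_insert, mem_singleton] at hi
    rcases hi with rfl | rfl
    · exact (hXA σ hσ).2.1
    · exact (hXA σ hσ).2.2
  by_cases hix : i ∈ Z
  · have h2 : thr X i j = ∅ := by
      rw [eq_empty_iff_forall_notMem]
      intro σ hσ
      obtain ⟨h3, h4⟩ := mem_filter.1 hσ
      apply hij
      refine ⟨?_, by rw [← h4, hXZ σ h3 i hix]⟩
      rw [hZ, mem_insert, mem_singleton] at hix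
      rcases hix with rfl | rfl
      · exact hx
      · exact hx'
    rw [h2, card_empty, Nat.cast_zero]
    exact mul_nonneg hb2 (Nat.cast_nonneg _)
  · have hTX : TInt t X := fun σ hσ τ hτ => hA σ (hXA σ hσ).1 τ (hXA τ hτ).1
    have h2 := gap_star hG2 hb2 (t := t) (k := 2) (n := 2 * t + 1) (by omega) rfl ht (by omega)
      (g := g) (T := Z) hZc hTX hXZ (by
        rw [sub_eq]
        exact (mul_le_mul_of_nonneg_left hF hθ.le).trans hXc) i j hix
    rcases h2 with h2 | h2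
    · exact h2
    · exfalso
      have h3 : ((thr X i j).card : ℝ) ≤ ((thr A i j).card : ℝ) := by
        have : (thr X i j).card ≤ (thr A i j).card := by
          apply card_le_card
          intro σ hσ
          obtain ⟨h3, h4⟩ := mem_filter.1 hσ
          exact mem_filter.2 ⟨(hXA σ h3).1, h4⟩
        exact_mod_cast this
      have h4 : β0 * A.card < β0 * A.card := by
        calc β0 * A.card < θ * p2 * A.card := mul_lt_mul_of_pos_right hB ha0
          _ = p2 * (θ * A.card) := by ring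
          _ ≤ p2 * X.card := mul_le_mul_of_nonneg_left hXc hp1.le
          _ ≤ _ := h2
          _ ≤ _ := h3
          _ ≤ _ := h1
      exact lt_irrefl _ h4

/-- levels 0, 1 and 2; the level two gap for families of size `p0 p1 (t+1)!` -/
theorem inputM_two {β0 p0 β1 p1 β2 p2 : ℝ} (ht : 2 ≤ t) (hb0 : 0 ≤ β0) (hb1 : 0 ≤ β1) (hb2 : 0 ≤ β2)
    (hp0 : 1 / 2 < p0) (hp1 : 0 < p1) (hB : β0 < p0 * p1) (hB' : β1 * p0 < 2 * p0 - 1)
    (hB2 : β0 < p0 * p1 * p2)
    (hG1 : Gap (2 * t) (t - 1) p0 β1 p1) (hG2 : Gap (2 * t - 1) (t - 2) (p0 * p1) β2 p2)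
    (hY : YTop t p0 ∨ YLink t p0 p1) :
    InputM t β0 p0 β1 β2 (p0 * p1) (1 - p1) := fun A g T hA hF hgap hpop => by
  have hp0' : 0 < p0 := by linarith
  obtain ⟨h1, _, h3, h4⟩ := inputM_one ht hb0 hb1 hp0 hp1 hB hB' hG1 hY A g T hA hF hgap hpop
  exact ⟨h1, low2_gapθ ht hA hF hb0 hb2 (mul_pos hp0' hp1) hB2 hgap hG2 hpop
    (fun x hx x' hx' hxx => (h3 x hx x' hx' hxx).1), h3, h4⟩

/-- levels 0 and 2, the level two gap for families of size `(2 p0 - 1) (t+1)!` -/
theorem inputM_one' {β0 p0 β2 p2 : ℝ} (ht : 2 ≤ t) (hb0 : 0 ≤ β0) (hb2 : 0 ≤ β2)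
    (hp0 : 1 / 2 < p0) (hp1 : p0 ≤ 1) (hB2 : β0 < (2 * p0 - 1) * p2)
    (hG2 : Gap (2 * t - 1) (t - 2) (2 * p0 - 1) β2 p2) (hY : YTop t p0) :
    InputM t β0 p0 (β0 / p0) β2 (2 * p0 - 1) ((1 - p0) / p0) := fun A g T hA hF hgap hpop => by
  obtain ⟨h1, _, h3, h4⟩ := inputM_top ht hb0 hp0 hp1 hY A g T hA hF hgap hpop
  exact ⟨h1, low2_gapθ ht hA hF hb0 hb2 (by linarith) hB2 hgap hG2 hpop
    (fun x hx x' hx' hxx => (h3 x hx x' hx' hxx).1), h3, h4⟩

end Pool.EG
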