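import Pool.Agent.Work.MP_46fa68_86.Unif2
import Pool.Agent.Work.MP_46fa68_76.EndF

/-! # endgame: master form with a second level one gap for larger families (helper86, after helper76's EndF)

In step (e) (`t` popular cells, nobody misses two) some missed cell `x` has
`(t - 1 - k) |A_x| ≥ (t - 2) |A|`, `k = 2 - β1 t`; so only the density bound `βs` for the families `A_x` with
`|A_x| ≥ θs |A|`, `θs (t - 1 - k) ≤ t - 2`, is needed there: `phi t < (2 - βs t) θs`. -/

set_option autoImplicit false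

open Finset Equiv

namespace Pool.EG

variable {t : ℕ}

/-- density at most `β` of the unpopular cells inside the popular cells of density at least `θ` -/
def LowAt {n : ℕ} (A : Finset (Perm (Fin n))) (g : Perm (Fin n)) (T : Finset (Fin n)) (θ β : ℝ) : Prop :=
  ∀ x ∈ T, θ * A.card ≤ ((thr A x (g x)).card : ℝ) → ∀ i j : Fin n, ¬ (i ∈ T ∧ j = g i) →
    ((thr (thr A x (g x)) i j).card : ℝ) ≤ β * ((thr A x (g x)).card : ℝ)

/-- (b), only one popular cell -/
theorem step_bX (ht : 1 ≤ t) {A : Finset (Perm (Fin (2 * t + 1)))} (hA : TInt t A) {β1 : ℝ}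
    (hb1 : 0 ≤ β1)
    {g : Perm (Fin (2 * t + 1))} {T : Finset (Fin (2 * t + 1))} 
    {s : Perm (Fin (2 * t + 1))} (hs : s ∈ A) {x : Fin (2 * t + 1)}
    (hL : ∀ i j : Fin (2 * t + 1), ¬ (i ∈ T ∧ j = g i) →
      ((thr (thr A x (g x)) i j).card : ℝ) ≤ β1 * ((thr A x (g x)).card : ℝ))
    (hsx : s x ≠ g x) :
      ((T.filter (fun i => s i = g i)).card + 1 = t →
        (2 - β1 * t) * ((thr A x (g x)).card : ℝ) ≤
          (((thr A x (g x)).filter (fun σ => (∀ i ∈ T.filter (fun i => s i = g i), σ i = s i) ∧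
            ((((univ.erase x).erase (s⁻¹ (g x))) \ T.filter (fun i => s i = g i)).filter
              (fun i => σ i = s i)).card = 1)).card : ℝ)) := by
  classical
  set X := thr A x (g x) with hXdef
  have hXA : ∀ σ ∈ X, σ ∈ A ∧ σ x = g x := fun σ hσ => mem_filter.1 hσ
  set R : Finset (Fin (2 * t + 1)) := (univ.erase x).erase (s⁻¹ (g x)) with hR
  set H : Finset (Fin (2 * t + 1)) := T.filter (fun i => s i = g i) with hH
  have hne' : s⁻¹ (g x) ≠ x := by
    intro h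
    apply hsx
    rw [← h, ap_inv, h]
  have hRc : R.card ≤ 2 * t - 1 := by
    rw [hR, card_erase_of_mem (mem_erase.2 ⟨hne', mem_univ _⟩), card_erase_of_mem (mem_univ _),
      card_univ, Fintype.card_fin]
    omega
  have hXR : ∀ σ ∈ X, t ≤ (R.filter (fun i => σ i = s i)).card := by
    intro σ hσ
    refine le_trans (hA σ (hXA σ hσ).1 s hs) ?_
    unfold ag
    apply card_le_card
    intro i hi
    have hi2 := (mem_filter.1 hi).2
    refine mem_filter.2 ⟨mem_erase.2 ⟨?_, mem_erase.2 ⟨?_, mem_univ _⟩⟩, hi2⟩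
    · intro h
      have h1 : s i = g x := by rw [h, ap_inv]
      have h2 : σ i = σ x := by rw [hi2, h1, (hXA σ hσ).2]
      have h3 := σ.injective h2
      apply hsx
      rw [← h1, h3]
    · rintro rfl
      apply hsx
      rw [← hi2, (hXA σ hσ).2]
  have hHR : H ⊆ R := by
    intro i hi
    obtain ⟨hiT, hig⟩ := mem_filter.1 hi
    have hix : i ≠ x := by
      rintro rfl
      exact hsx hig
    refine mem_erase.2 ⟨?_, mem_erase.2 ⟨hix, mem_univ _⟩⟩
    intro h
    have h1 : s i = g x := by rw [h, ap_inv]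
    rw [h1] at hig
    exact hix (g.injective hig).symm
  have hgapX : ∀ i ∈ R, i ∉ H → ((thr X i (s i)).card : ℝ) ≤ β1 * X.card := by
    intro i hi hiH
    apply hL i (s i)
    rintro ⟨h1, h2⟩
    exact hiH (mem_filter.2 ⟨h1, h2⟩)
  exact fun hcard => core_eq1 hRc hHR hcard hXR hgapX hb1

/-- the case of `t` popular cells, with the second gap -/
theorem step_e4 (ht : 5 ≤ t) {A : Finset (Perm (Fin (2 * t + 1)))} (hA : TInt t A)
    (hF : ((t + 1).factorial : ℝ) ≤ A.card)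
    (hK : ∀ n' t' : ℕ, 2 * t' + 3 ≤ n' → Holds n' t')
    {β1 βs θs : ℝ} (hb1 : 0 ≤ β1) (hB : β1 * (t + 1) < 2) (hbs : 0 ≤ βs) (hθs : 0 < θs)
    {g : Perm (Fin (2 * t + 1))} {T : Finset (Fin (2 * t + 1))} (hT : T.card = t)
    (hL1 : Low1 A g T β1) (hLs : LowAt A g T θs βs) (hN : NoTwo A g T)
    (h1 : θs * ((t : ℝ) - 1 - (2 - β1 * t)) ≤ t - 2) (h2 : phi t < (2 - βs * t) * θs) : Good t A := by
  classical
  have htR : (5 : ℝ) ≤ t := by exact_mod_cast ht
  have hfac : (0 : ℝ) < ((t + 1).factorial : ℝ) := by exact_mod_cast Nat.factorial_pos _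
  have ha0 : (0 : ℝ) < (A.card : ℝ) := lt_of_lt_of_le hfac hF
  rcases big_missed (by omega) hA hK hT hN with h | ⟨x, hx, ⟨s, hs, hsx⟩, hbig⟩
  · exact h
  exfalso
  set A0 := A.filter (fun σ => ∀ i ∈ T, σ i = g i) with hA0
  have hfil : T.filter (fun i => s i = g i) = T.erase x := by
    ext i
    rw [mem_filter, mem_erase]
    constructor
    · rintro ⟨h1, h2⟩
      refine ⟨?_, h1⟩
      rintro rfl
      exact hsx h2
    · rintro ⟨h1, h2⟩
      exact ⟨h2, hN s hs x hx i h2 (fun h => h1 h.symm) hsx⟩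
  have hcard : (T.filter (fun i => s i = g i)).card + 1 = t := by
    rw [hfil, card_erase_of_mem hx]
    omega
  have hsT : ∀ i ∈ T.erase x, s i = g i := by
    intro i hi
    rw [← hfil] at hi
    exact (mem_filter.1 hi).2
  have h5 : (((univ.erase x).erase (s⁻¹ (g x))) \ T.erase x) = Tᶜ.erase (s⁻¹ (g x)) := by
    ext i
    simp only [mem_sdiff, mem_erase, mem_compl, mem_univ, and_true]
    constructor
    · rintro ⟨⟨h6, h7⟩, h8⟩
      exact ⟨h6, fun h9 => h8 ⟨h7, h9⟩⟩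
    · rintro ⟨h6, h7⟩
      refine ⟨⟨h6, ?_⟩, fun h8 => h7 h8.2⟩
      rintro rfl
      exact h7 hx
  have hin : ∀ σ ∈ thr A x (g x), (∀ i ∈ T.erase x, σ i = s i) → σ ∈ A0 := by
    intro σ hσ h6
    obtain ⟨h7, h8⟩ := mem_filter.1 hσ
    refine mem_filter.2 ⟨h7, fun i hi => ?_⟩
    by_cases hix : i = x
    · rw [hix, h8]
    · rw [h6 i (mem_erase.2 ⟨hix, hi⟩), hsT i (mem_erase.2 ⟨hix, hi⟩)]
  -- the count for any density bound
  have hgen : ∀ β : ℝ, 0 ≤ β → (∀ i j : Fin (2 * t + 1), ¬ (i ∈ T ∧ j = g i) →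
      ((thr (thr A x (g x)) i j).card : ℝ) ≤ β * ((thr A x (g x)).card : ℝ)) →
      (2 - β * t) * ((thr A x (g x)).card : ℝ) ≤ phi t * ((t + 1).factorial : ℝ) ∧
      (2 - β * t) * ((thr A x (g x)).card : ℝ) ≤ (A0.card : ℝ) := by
    intro β hβ hL
    have h4 := step_bX (by omega) hA hβ hs hL hsx hcard
    rw [hfil, h5] at h4
    constructor
    · refine h4.trans ?_
      have h6 := step_e1 ht hT hx hsx hsT
      unfold phi
      refine le_trans ?_ h6
      have h7 : ((thr A x (g x)).filter (fun σ => (∀ i ∈ T.erase x, σ i = s i) ∧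
          ((Tᶜ.erase (s⁻¹ (g x))).filter (fun i => σ i = s i)).card = 1)).card ≤
          ((star g T).filter (fun σ =>
            ((Tᶜ.erase (s⁻¹ (g x))).filter (fun i => σ i = s i)).card = 1)).card := by
        apply card_le_card
        intro σ hσ
        obtain ⟨h8, h9, h10⟩ := mem_filter.1 hσ
        exact mem_filter.2 ⟨mem_star.2 (mem_filter.1 (hin σ h8 h9)).2, h10⟩
      exact_mod_cast h7
    · refine h4.trans ?_
      have h7 : ((thr A x (g x)).filter (fun σ => (∀ i ∈ T.erase x, σ i = s i) ∧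
          ((Tᶜ.erase (s⁻¹ (g x))).filter (fun i => σ i = s i)).card = 1)).card ≤ A0.card := by
        apply card_le_card
        intro σ hσ
        obtain ⟨h8, h9, _⟩ := mem_filter.1 hσ
        exact hin σ h8 h9
      exact_mod_cast h7
  have h6 := (hgen β1 hb1 (hL1 x hx)).2
  have hk : 0 < (t : ℝ) - 1 - (2 - β1 * t) := by
    have : 0 ≤ β1 * t := mul_nonneg hb1 (by linarith)
    linarith
  have h7 : ((t : ℝ) - 2) * A.card ≤ ((t : ℝ) - 1 - (2 - β1 * t)) * ((thr A x (g x)).card : ℝ) := by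
    have h8 : ((t : ℝ) - 2) * (A.card : ℝ) + (A0.card : ℝ) ≤
        ((t : ℝ) - 1) * ((thr A x (g x)).card : ℝ) := hbig
    linarith
  have h8 : θs * A.card ≤ ((thr A x (g x)).card : ℝ) := by
    have h9 : θs * ((t : ℝ) - 1 - (2 - β1 * t)) * A.card ≤ ((t : ℝ) - 2) * A.card :=
      mul_le_mul_of_nonneg_right h1 ha0.le
    have h10 : ((t : ℝ) - 1 - (2 - β1 * t)) * (θs * A.card) ≤
        ((t : ℝ) - 1 - (2 - β1 * t)) * ((thr A x (g x)).card : ℝ) := by linarith
    exact le_of_mul_le_mul_left h10 hk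
  have h9 := (hgen βs hbs (hLs x hx h8)).1
  have hks : 0 < 2 - βs * t := by
    by_contra hcon
    push Not at hcon
    have h10 : (2 - βs * t) * θs ≤ 0 := mul_nonpos_of_nonpos_of_nonneg hcon hθs.le
    have h11 := phi_nonneg t
    linarith
  have h10 : (2 - βs * t) * θs * ((t + 1).factorial : ℝ) ≤
      (2 - βs * t) * ((thr A x (g x)).card : ℝ) := by
    calc (2 - βs * t) * θs * ((t + 1).factorial : ℝ)
        = (2 - βs * t) * (θs * ((t + 1).factorial : ℝ)) := by ring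
      _ ≤ (2 - βs * t) * (θs * A.card) :=
          mul_le_mul_of_nonneg_left (mul_le_mul_of_nonneg_left hF hθs.le) hks.le
      _ ≤ _ := mul_le_mul_of_nonneg_left h8 hks.le
  have h11 := mul_lt_mul_of_pos_right h2 hfac
  linarith

/-- the inequalities of the master form, (e) through the second gap -/
structure NumM2 (t : ℕ) (β0 p0 β1 β2 θ ρ θs βs : ℝ) : Prop where
  ht : 5 ≤ t
  hb0 : 0 ≤ β0
  hb1 : 0 ≤ β1
  hb2 : 0 ≤ β2
  hbs : 0 ≤ βs
  hθ : 0 < θ
  hθs : 0 < θs
  hp0 : 1 / 2 < p0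
  ha : β0 * (2 * t) < t - 1
  hB : β1 * (t + 1) < 2
  hC1 : 1 < (2 - β2 * t) * θ * (t + 1) ∨ 1 / (t + 1) < (2 - ρ - β1 * t) * p0
  hC2 : 2 + 3 / 8 * ((t : ℝ) * (t - 1)) < (2 - β2 * (t - 1)) * θ * (t * (t + 1)) ∨
    (1 + 1 / t + 3 / 8 * (t - 1)) / (t + 1) < (2 - ρ - β1 * (t - 1)) * p0
  hE1 : θs * ((t : ℝ) - 1 - (2 - β1 * t)) ≤ t - 2
  hE2 : phi t < (2 - βs * t) * θs

/-- the input of the master form -/
def InputM2 (t : ℕ) (β0 p0 β1 β2 θ ρ θs βs : ℝ) : Prop :=
  ∀ (A : Finset (Perm (Fin (2 * t + 1)))) (g : Perm (Fin (2 * t + 1)))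
      (T : Finset (Fin (2 * t + 1))), TInt t A → ((t + 1).factorial : ℝ) ≤ A.card →
      (∀ x y, ((thr A x y).card : ℝ) ≤ β0 * A.card ∨ p0 * A.card ≤ ((thr A x y).card : ℝ)) →
      (∀ x y, p0 * A.card ≤ ((thr A x y).card : ℝ) ↔ (x ∈ T ∧ y = g x)) →
      Low1 A g T β1 ∧ Low2 A g T β2 ∧ Pair2 A g T θ ρ ∧ T.card ≤ t + 2 ∧ LowAt A g T θs βs

/-- the master endgame with the second gap -/
theorem endM2 {β0 p0 β1 β2 θ ρ θs βs : ℝ} (N : NumM2 t β0 p0 β1 β2 θ ρ θs βs)
    (hG0 : Gap (2 * t + 1) t 1 β0 p0) (hL : InputM2 t β0 p0 β1 β2 θ ρ θs βs)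
    (hLink : Link t) (hK : ∀ n' t' : ℕ, 2 * t' + 3 ≤ n' → Holds n' t') : Holds (2 * t + 1) t := by
  classical
  have ht := N.ht
  have htR : (5 : ℝ) ≤ t := by exact_mod_cast ht
  apply holds_of_good
  intro A hA
  by_cases hF' : A.card < (2 * t + 1 - t).factorial
  · exact good_of_lt hF'
  rw [not_lt, sub_eq] at hF'
  have hF : ((t + 1).factorial : ℝ) ≤ A.card := by exact_mod_cast hF'
  have hfac : (0 : ℝ) < ((t + 1).factorial : ℝ) := by exact_mod_cast Nat.factorial_pos _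
  have ha0 : (0 : ℝ) < (A.card : ℝ) := lt_of_lt_of_le hfac hF
  have hne : A.Nonempty := by
    rw [← card_pos]
    exact_mod_cast ha0
  have hgap : ∀ x y, ((thr A x y).card : ℝ) ≤ β0 * A.card ∨
      p0 * A.card ≤ ((thr A x y).card : ℝ) :=
    hG0 A hA (by rw [sub_eq, one_mul]; exact hF)
  obtain ⟨g, T, hpop, hcard⟩ := exists_pop hne N.hp0
  have hβ1 : β0 ≤ 1 := by nlinarith [N.ha, N.hb0]
  have h1 := pop_ge hA hne hβ1 hgap
  rw [hcard] at h1
  push_cast at h1
  have hT2 : 2 ≤ T.card := by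
    by_contra hcon
    push Not at hcon
    have h2 : (T.card : ℝ) ≤ 1 := by exact_mod_cast (by omega : T.card ≤ 1)
    nlinarith [N.ha, N.hb0]
  obtain ⟨hL1, hL2, hP, hTc, hLs⟩ := hL A g T hA hF hgap hpop
  have hpop' : ∀ i ∈ T, p0 * A.card ≤ ((thr A i (g i)).card : ℝ) := fun i hi =>
    (hpop i (g i)).2 ⟨hi, rfl⟩
  have hp0' : 0 < p0 := by linarith [N.hp0]
  have hXne : ∀ x ∈ T, (thr A x (g x)).Nonempty := by
    intro x hx
    rw [← card_pos]
    have h1 : (0 : ℝ) < ((thr A x (g x)).card : ℝ) := lt_of_lt_of_le (mul_pos hp0' ha0) (hpop' x hx)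
    exact_mod_cast h1
  have hN : NoTwo A g T := by
    intro σ hσ i hi j hj hij h2
    by_contra h3
    have hlow := (step_bH (by omega) hA N.hb1 N.hB hL1 hσ hi h2 (hXne i hi)).1
    have hup : (T.filter (fun k => σ k = g k)).card ≤ t := by
      have h4 : T.filter (fun k => σ k = g k) ⊆ (T.erase i).erase j := by
        intro k hk
        obtain ⟨h5, h6⟩ := mem_filter.1 hk
        refine mem_erase.2 ⟨?_, mem_erase.2 ⟨?_, h5⟩⟩
        · rintro rfl
          exact h3 h6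
        · rintro rfl
          exact h2 h6
      have h5 := card_le_card h4
      rw [card_erase_of_mem (mem_erase.2 ⟨hij.symm, hj⟩), card_erase_of_mem hi] at h5
      omega
    obtain ⟨hP1, hP2⟩ := hP i hi j hj hij
    rcases Nat.lt_or_ge (T.filter (fun k => σ k = g k)).card t with h | h
    · rcases N.hC1 with hC | hC
      · exact step_mi1 ht hA hF N.hb2 N.hθ hC hL2 hi hj hij hP1 hσ h2 h3 (by omega)
      · exact step_mc1 (by omega) hA hF N.hb1 hp0' N.hB hC hL1 hi hij (hpop' i hi) hP2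
          hσ h2 h3 (by omega)
    · rcases N.hC2 with hC | hC
      · exact step_mi2 ht hA hF N.hb2 N.hθ hC hL2 hi hj hij hP1 hσ h2 h3 (by omega)
      · exact step_mc2 ht hA hF N.hb1 hp0' N.hB hC hL1 hi hij (hpop' i hi) hP2
          hσ h2 h3 (by omega)
  by_cases hall : ∀ σ ∈ A, ∀ i ∈ T, σ i = g i
  · exact good_of_star rfl hK hT2 hA hall
  push Not at hall
  obtain ⟨s0, hs0, x0, hx0, hsx0⟩ := hall
  rcases Nat.lt_or_ge T.card (t + 1) with hTc' | hTc'
  · -- y = t
    have hTt : T.card = t := by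
      have h1 := (step_bH (by omega) hA N.hb1 N.hB hL1 hs0 hx0 hsx0 (hXne x0 hx0)).1
      have h2 : T.filter (fun i => s0 i = g i) ⊆ T.erase x0 := by
        intro i hi
        obtain ⟨h3, h4⟩ := mem_filter.1 hi
        refine mem_erase.2 ⟨?_, h3⟩
        rintro rfl
        exact hsx0 h4
      have h3 := card_le_card h2
      rw [card_erase_of_mem hx0] at h3
      omega
    exact step_e4 ht hA hF hK N.hb1 N.hB N.hbs N.hθs hTt hL1 hLs hN N.hE1 N.hE2
  · -- y ≥ t + 1
    have hmiss : ∀ U ⊆ T, ∀ σ ∈ A, U.card ≤ (U.filter (fun i => σ i = g i)).card + 1 := by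
      intro U hU σ hσ
      have h2 := card_filter_add_card_filter_not (s := U) (fun i => σ i = g i)
      have h3 : (U.filter (fun i => ¬ σ i = g i)).card ≤ 1 := by
        rw [card_le_one]
        intro i hi j hj
        by_contra hij
        exact (mem_filter.1 hj).2
          (hN σ hσ i (hU (mem_filter.1 hi).1) j (hU (mem_filter.1 hj).1) hij (mem_filter.1 hi).2)
      omega
    obtain ⟨U, hUT, hUc⟩ := exists_subset_card_eq hTc'
    obtain ⟨h2, h3⟩ := hLink A g U hUc hA (fun σ hσ => by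
      have := hmiss U hUT σ hσ
      omega)
    refine ⟨by rw [sub_eq]; exact h2, fun heq => ?_⟩
    rw [sub_eq] at heq
    obtain ⟨y, hy, h4⟩ := h3 heq
    exact ⟨g, U.erase y, by rw [card_erase_of_mem hy]; omega, h4⟩

/-- the second level one input from a gap in `(2 t, t - 1)` for families of size `θs (t+1)!` -/
theorem lowAt_gap (ht : 1 ≤ t) {A : Finset (Perm (Fin (2 * t + 1)))} (hA : TInt t A)
    (hF : ((t + 1).factorial : ℝ) ≤ A.card) {β0 p0 θs βs ps : ℝ} (hb0 : 0 ≤ β0) (hbs : 0 ≤ βs)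
    (hθs : 0 < θs) (hB : β0 < θs * ps)
    (hgap : ∀ x y, ((thr A x y).card : ℝ) ≤ β0 * A.card ∨ p0 * A.card ≤ ((thr A x y).card : ℝ))
    (hG1 : Gap (2 * t) (t - 1) θs βs ps)
    {g : Perm (Fin (2 * t + 1))} {T : Finset (Fin (2 * t + 1))}
    (hpop : ∀ x y, p0 * A.card ≤ ((thr A x y).card : ℝ) ↔ (x ∈ T ∧ y = g x)) :
    LowAt A g T θs βs := by
  classical
  intro x hx hXc i j hij
  have hfac : (0 : ℝ) < ((t + 1).factorial : ℝ) := by exact_mod_cast Nat.factorial_pos _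
  have ha0 : (0 : ℝ) < (A.card : ℝ) := lt_of_lt_of_le hfac hF
  set X := thr A x (g x) with hXdef
  have hXA : ∀ σ ∈ X, σ ∈ A ∧ σ x = g x := fun σ hσ => mem_filter.1 hσ
  have hps : 0 < ps := by
    by_contra hcon
    push Not at hcon
    nlinarith
  have h1 : ((thr A i j).card : ℝ) ≤ β0 * A.card := by
    rcases hgap i j with h | h
    · exact h
    · exact absurd ((hpop i j).1 h) hij
  by_cases hix : i = x
  · have h2 : thr X i j = ∅ := by
      rw [eq_empty_iff_forall_notMem]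
      intro σ hσ
      obtain ⟨h3, h4⟩ := mem_filter.1 hσ
      apply hij
      rw [hix] at h4 ⊢
      exact ⟨hx, by rw [← h4, (hXA σ h3).2]⟩
    rw [h2, card_empty, Nat.cast_zero]
    exact mul_nonneg hbs (Nat.cast_nonneg _)
  · have hTX : TInt t X := fun σ hσ τ hτ => hA σ (hXA σ hσ).1 τ (hXA τ hτ).1
    have h2 := gap_star hG1 hbs (t := t) (k := 1) (n := 2 * t + 1) (by omega) rfl ht (by omega)
      (g := g) (T := {x}) (card_singleton x) hTX (by
        intro σ hσ k hk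
        rw [mem_singleton] at hk
        rw [hk]
        exact (hXA σ hσ).2) (by
        rw [sub_eq]
        exact (mul_le_mul_of_nonneg_left hF hθs.le).trans hXc) i j (by
        rw [mem_singleton]
        exact hix)
    rcases h2 with h2 | h2
    · exact h2
    · exfalso
      have h3 : ((thr X i j).card : ℝ) ≤ ((thr A i j).card : ℝ) := by
        have : (thr X i j).card ≤ (thr A i j).card := by
          apply card_le_card
          intro σ hσ
          obtain ⟨h3, h4⟩ := mem_filter.1 hσ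
          exact mem_filter.2 ⟨(hXA σ h3).1, h4⟩
        exact_mod_cast this
      have h4 : β0 * A.card < β0 * A.card := by
        calc β0 * A.card < θs * ps * A.card := mul_lt_mul_of_pos_right hB ha0
          _ = ps * (θs * A.card) := by ring
          _ ≤ ps * X.card := mul_le_mul_of_nonneg_left hXc hps.le
          _ ≤ _ := h2
          _ ≤ _ := h3
          _ ≤ _ := h1
      exact lt_irrefl _ h4

/-- from the one-family input -/
theorem inputM2_of {β0 p0 β1 β2 θ ρ θs βs ps : ℝ} (ht : 1 ≤ t) (hb0 : 0 ≤ β0) (hbs : 0 ≤ βs)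
    (hθs : 0 < θs) (hB : β0 < θs * ps) (hG1 : Gap (2 * t) (t - 1) θs βs ps)
    (h : InputM t β0 p0 β1 β2 θ ρ) : InputM2 t β0 p0 β1 β2 θ ρ θs βs :=
  fun A g T hA hF hgap hpop => by
  obtain ⟨h1, h2, h3, h4⟩ := h A g T hA hF hgap hpop
  exact ⟨h1, h2, h3, h4, lowAt_gap ht hA hF hb0 hbs hθs hB hgap hG1 hpop⟩

/-- levels 0, 1, 2, the level two gap for families of size `(2 p0 - 1) (t+1)!`, `ρ = (1 - p0) / p0` -/
theorem inputM_two' {β0 p0 β1 p1 β2 p2 : ℝ} (ht : 2 ≤ t) (hb0 : 0 ≤ β0) (hb1 : 0 ≤ β1) (hb2 : 0 ≤ β2)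
    (hp0 : 1 / 2 < p0) (hp01 : p0 ≤ 1) (hB : β0 < p0 * p1) (hB2 : β0 < (2 * p0 - 1) * p2)
    (hG1 : Gap (2 * t) (t - 1) p0 β1 p1) (hG2 : Gap (2 * t - 1) (t - 2) (2 * p0 - 1) β2 p2)
    (hY : YTop t p0) :
    InputM t β0 p0 β1 β2 (2 * p0 - 1) ((1 - p0) / p0) := fun A g T hA hF hgap hpop => by
  have hpop' : ∀ i ∈ T, p0 * A.card ≤ ((thr A i (g i)).card : ℝ) := fun i hi =>
    (hpop i _).2 ⟨hi, rfl⟩
  exact ⟨low1_gap (by omega) hA hF hb0 hb1 (by linarith) hB hgap hG1 hpop,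
    low2_gap ht hA hF hb0 hb2 hp0 hB2 hgap hG2 hpop,
    pair_top (by linarith) hp01 hpop', step_y ht hF hpop' hY⟩

end Pool.EG
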