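import Pool.Agent.Work.MP_46fa68_86.EndM2

/-! # endgame: master form with any step (e), and step (e) with a bound `Spec t κ` (helper86)

`endGen` is the master endgame whose step (e) (exactly `t` popular cells, nobody misses two, somebody misses one)
is a hypothesis. `step_e5` proves it from `Spec t κ` (helper87: class functions of `S_(t+2)`), and `endM4` is the
master form with (e) by `phi` or by `Spec t κ`, with or without a second level one gap. -/

set_option autoImplicit false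

open Finset Equiv

namespace Pool.EG

variable {t : ℕ}

/-- the inequalities of the master form without (e) -/
structure NumX (t : ℕ) (β0 p0 β1 β2 θ ρ : ℝ) : Prop where
  ht : 5 ≤ t
  hb0 : 0 ≤ β0
  hb1 : 0 ≤ β1
  hb2 : 0 ≤ β2
  hθ : 0 < θ
  hp0 : 1 / 2 < p0
  ha : β0 * (2 * t) < t - 1
  hB : β1 * (t + 1) < 2
  hC1 : 1 < (2 - β2 * t) * θ * (t + 1) ∨ 1 / (t + 1) < (2 - ρ - β1 * t) * p0
  hC2 : 2 + 3 / 8 * ((t : ℝ) * (t - 1)) < (2 - β2 * (t - 1)) * θ * (t * (t + 1)) ∨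
    (1 + 1 / t + 3 / 8 * (t - 1)) / (t + 1) < (2 - ρ - β1 * (t - 1)) * p0

/-- the input of the master form with an additional property `Ext` of the family -/
def InputX (t : ℕ) (β0 p0 β1 β2 θ ρ : ℝ)
    (Ext : Finset (Perm (Fin (2 * t + 1))) → Perm (Fin (2 * t + 1)) → Finset (Fin (2 * t + 1)) → Prop) : Prop :=
  ∀ (A : Finset (Perm (Fin (2 * t + 1)))) (g : Perm (Fin (2 * t + 1)))
      (T : Finset (Fin (2 * t + 1))), TInt t A → ((t + 1).factorial : ℝ) ≤ A.card →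
      (∀ x y, ((thr A x y).card : ℝ) ≤ β0 * A.card ∨ p0 * A.card ≤ ((thr A x y).card : ℝ)) →
      (∀ x y, p0 * A.card ≤ ((thr A x y).card : ℝ) ↔ (x ∈ T ∧ y = g x)) →
      Low1 A g T β1 ∧ Low2 A g T β2 ∧ Pair2 A g T θ ρ ∧ T.card ≤ t + 2 ∧ Ext A g T

/-- step (e) as a hypothesis -/
def StepE (t : ℕ) (p0 β1 β2 θ ρ : ℝ)
    (Ext : Finset (Perm (Fin (2 * t + 1))) → Perm (Fin (2 * t + 1)) → Finset (Fin (2 * t + 1)) → Prop) : Prop :=
  ∀ (A : Finset (Perm (Fin (2 * t + 1)))) (g : Perm (Fin (2 * t + 1)))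
      (T : Finset (Fin (2 * t + 1))), TInt t A → ((t + 1).factorial : ℝ) ≤ A.card → T.card = t →
      (∀ i ∈ T, p0 * A.card ≤ ((thr A i (g i)).card : ℝ)) →
      Low1 A g T β1 → Low2 A g T β2 → Pair2 A g T θ ρ → Ext A g T → NoTwo A g T →
      (∃ s ∈ A, ∃ x ∈ T, s x ≠ g x) → Good t A

/-- the master endgame, step (e) as a hypothesis -/
theorem endGen {β0 p0 β1 β2 θ ρ : ℝ} (N : NumX t β0 p0 β1 β2 θ ρ)
    {Ext : Finset (Perm (Fin (2 * t + 1))) → Perm (Fin (2 * t + 1)) → Finset (Fin (2 * t + 1)) → Prop}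
    (hG0 : Gap (2 * t + 1) t 1 β0 p0) (hL : InputX t β0 p0 β1 β2 θ ρ Ext) (hE : StepE t p0 β1 β2 θ ρ Ext)
    (hLink : Link t) (hK : ∀ n' t' : ℕ, 2 * t' + 3 ≤ n' → Holds n' t') : Holds (2 * t + 1) t := by
  classical
  have ht := N.ht
  have htR : (5 : ℝ) ≤ t := by exact_mod_cast ht
  apply holds_of_good
  intro A hA
  by_cases hF' : A.card < (2 * t + 1 - t).factorial
  · exact good_of_lt hF'
  rw [not_lt, sub_eq] at hF'
  have hF : ((t + 1).factorial : ℝ) ≤ A.card := by exact_mod_cast hF'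
  have hfac : (0 : ℝ) < ((t + 1).factorial : ℝ) := by exact_mod_cast Nat.factorial_pos _
  have ha0 : (0 : ℝ) < (A.card : ℝ) := lt_of_lt_of_le hfac hF
  have hne : A.Nonempty := by
    rw [← card_pos]
    exact_mod_cast ha0
  have hgap : ∀ x y, ((thr A x y).card : ℝ) ≤ β0 * A.card ∨
      p0 * A.card ≤ ((thr A x y).card : ℝ) :=
    hG0 A hA (by rw [sub_eq, one_mul]; exact hF)
  obtain ⟨g, T, hpop, hcard⟩ := exists_pop hne N.hp0
  have hβ1 : β0 ≤ 1 := by nlinarith [N.ha, N.hb0]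
  have h1 := pop_ge hA hne hβ1 hgap
  rw [hcard] at h1
  push_cast at h1
  have hT2 : 2 ≤ T.card := by
    by_contra hcon
    push Not at hcon
    have h2 : (T.card : ℝ) ≤ 1 := by exact_mod_cast (by omega : T.card ≤ 1)
    nlinarith [N.ha, N.hb0]
  obtain ⟨hL1, hL2, hP, hTc, hLs⟩ := hL A g T hA hF hgap hpop
  have hpop' : ∀ i ∈ T, p0 * A.card ≤ ((thr A i (g i)).card : ℝ) := fun i hi =>
    (hpop i (g i)).2 ⟨hi, rfl⟩
  have hp0' : 0 < p0 := by linarith [N.hp0]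
  have hXne : ∀ x ∈ T, (thr A x (g x)).Nonempty := by
    intro x hx
    rw [← card_pos]
    have h1 : (0 : ℝ) < ((thr A x (g x)).card : ℝ) := lt_of_lt_of_le (mul_pos hp0' ha0) (hpop' x hx)
    exact_mod_cast h1
  have hN : NoTwo A g T := by
    intro σ hσ i hi j hj hij h2
    by_contra h3
    have hlow := (step_bH (by omega) hA N.hb1 N.hB hL1 hσ hi h2 (hXne i hi)).1
    have hup : (T.filter (fun k => σ k = g k)).card ≤ t := by
      have h4 : T.filter (fun k => σ k = g k) ⊆ (T.erase i).erase j := by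
        intro k hk
        obtain ⟨h5, h6⟩ := mem_filter.1 hk
        refine mem_erase.2 ⟨?_, mem_erase.2 ⟨?_, h5⟩⟩
        · rintro rfl
          exact h3 h6
        · rintro rfl
          exact h2 h6
      have h5 := card_le_card h4
      rw [card_erase_of_mem (mem_erase.2 ⟨hij.symm, hj⟩), card_erase_of_mem hi] at h5
      omega
    obtain ⟨hP1, hP2⟩ := hP i hi j hj hij
    rcases Nat.lt_or_ge (T.filter (fun k => σ k = g k)).card t with h | h
    · rcases N.hC1 with hC | hC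
      · exact step_mi1 ht hA hF N.hb2 N.hθ hC hL2 hi hj hij hP1 hσ h2 h3 (by omega)
      · exact step_mc1 (by omega) hA hF N.hb1 hp0' N.hB hC hL1 hi hij (hpop' i hi) hP2
          hσ h2 h3 (by omega)
    · rcases N.hC2 with hC | hC
      · exact step_mi2 ht hA hF N.hb2 N.hθ hC hL2 hi hj hij hP1 hσ h2 h3 (by omega)
      · exact step_mc2 ht hA hF N.hb1 hp0' N.hB hC hL1 hi hij (hpop' i hi) hP2
          hσ h2 h3 (by omega)
  by_cases hall : ∀ σ ∈ A, ∀ i ∈ T, σ i = g i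
  · exact good_of_star rfl hK hT2 hA hall
  push Not at hall
  obtain ⟨s0, hs0, x0, hx0, hsx0⟩ := hall
  rcases Nat.lt_or_ge T.card (t + 1) with hTc' | hTc'
  · -- y = t
    have hTt : T.card = t := by
      have h1 := (step_bH (by omega) hA N.hb1 N.hB hL1 hs0 hx0 hsx0 (hXne x0 hx0)).1
      have h2 : T.filter (fun i => s0 i = g i) ⊆ T.erase x0 := by
        intro i hi
        obtain ⟨h3, h4⟩ := mem_filter.1 hi
        refine mem_erase.2 ⟨?_, h3⟩
        rintro rfl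
        exact hsx0 h4
      have h3 := card_le_card h2
      rw [card_erase_of_mem hx0] at h3
      omega
    exact hE A g T hA hF hTt hpop' hL1 hL2 hP hLs hN ⟨s0, hs0, x0, hx0, hsx0⟩
  · -- y ≥ t + 1
    have hmiss : ∀ U ⊆ T, ∀ σ ∈ A, U.card ≤ (U.filter (fun i => σ i = g i)).card + 1 := by
      intro U hU σ hσ
      have h2 := card_filter_add_card_filter_not (s := U) (fun i => σ i = g i)
      have h3 : (U.filter (fun i => ¬ σ i = g i)).card ≤ 1 := by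
        rw [card_le_one]
        intro i hi j hj
        by_contra hij
        exact (mem_filter.1 hj).2
          (hN σ hσ i (hU (mem_filter.1 hi).1) j (hU (mem_filter.1 hj).1) hij (mem_filter.1 hi).2)
      omega
    obtain ⟨U, hUT, hUc⟩ := exists_subset_card_eq hTc'
    obtain ⟨h2, h3⟩ := hLink A g U hUc hA (fun σ hσ => by
      have := hmiss U hUT σ hσ
      omega)
    refine ⟨by rw [sub_eq]; exact h2, fun heq => ?_⟩
    rw [sub_eq] at heq
    obtain ⟨y, hy, h4⟩ := h3 heq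
    exact ⟨g, U.erase y, by rw [card_erase_of_mem hy]; omega, h4⟩

/-- the case of `t` popular cells, with a bound for the members containing all of them -/
theorem step_e5 (ht : 5 ≤ t) {A : Finset (Perm (Fin (2 * t + 1)))} (hA : TInt t A)
    (hF : ((t + 1).factorial : ℝ) ≤ A.card)
    (hK : ∀ n' t' : ℕ, 2 * t' + 3 ≤ n' → Holds n' t')
    {β1 βs θs κ : ℝ} (hb1 : 0 ≤ β1) (hB : β1 * (t + 1) < 2) (hbs : 0 ≤ βs) (hθs : 0 < θs)
    {g : Perm (Fin (2 * t + 1))} {T : Finset (Fin (2 * t + 1))} (hT : T.card = t)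
    (hL1 : Low1 A g T β1) (hLs : LowAt A g T θs βs) (hN : NoTwo A g T)
    (h1 : θs * ((t : ℝ) - 1 - (2 - β1 * t)) ≤ t - 2) (hS : Spec t κ) (hκ : 0 ≤ κ)
    (h2 : κ < (2 - βs * t) * θs) (hmis : ∃ s ∈ A, ∃ x ∈ T, s x ≠ g x) : Good t A := by
  classical
  have htR : (5 : ℝ) ≤ t := by exact_mod_cast ht
  have hfac : (0 : ℝ) < ((t + 1).factorial : ℝ) := by exact_mod_cast Nat.factorial_pos _
  have ha0 : (0 : ℝ) < (A.card : ℝ) := lt_of_lt_of_le hfac hF
  rcases big_missed (by omega) hA hK hT hN with h | ⟨x, hx, ⟨s, hs, hsx⟩, hbig⟩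
  · exact h
  exfalso
  set A0 := A.filter (fun σ => ∀ i ∈ T, σ i = g i) with hA0
  have hfil : T.filter (fun i => s i = g i) = T.erase x := by
    ext i
    rw [mem_filter, mem_erase]
    constructor
    · rintro ⟨h1, h2⟩
      refine ⟨?_, h1⟩
      rintro rfl
      exact hsx h2
    · rintro ⟨h1, h2⟩
      exact ⟨h2, hN s hs x hx i h2 (fun h => h1 h.symm) hsx⟩
  have hcard : (T.filter (fun i => s i = g i)).card + 1 = t := by
    rw [hfil, card_erase_of_mem hx]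
    omega
  have hsT : ∀ i ∈ T.erase x, s i = g i := by
    intro i hi
    rw [← hfil] at hi
    exact (mem_filter.1 hi).2
  have h5 : (((univ.erase x).erase (s⁻¹ (g x))) \ T.erase x) = Tᶜ.erase (s⁻¹ (g x)) := by
    ext i
    simp only [mem_sdiff, mem_erase, mem_compl, mem_univ, and_true]
    constructor
    · rintro ⟨⟨h6, h7⟩, h8⟩
      exact ⟨h6, fun h9 => h8 ⟨h7, h9⟩⟩
    · rintro ⟨h6, h7⟩
      refine ⟨⟨h6, ?_⟩, fun h8 => h7 h8.2⟩
      rintro rfl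
      exact h7 hx
  have hin : ∀ σ ∈ thr A x (g x), (∀ i ∈ T.erase x, σ i = s i) → σ ∈ A0 := by
    intro σ hσ h6
    obtain ⟨h7, h8⟩ := mem_filter.1 hσ
    refine mem_filter.2 ⟨h7, fun i hi => ?_⟩
    by_cases hix : i = x
    · rw [hix, h8]
    · rw [h6 i (mem_erase.2 ⟨hix, hi⟩), hsT i (mem_erase.2 ⟨hix, hi⟩)]
  -- the count for any density bound
  have hgen : ∀ β : ℝ, 0 ≤ β → (∀ i j : Fin (2 * t + 1), ¬ (i ∈ T ∧ j = g i) →
      ((thr (thr A x (g x)) i j).card : ℝ) ≤ β * ((thr A x (g x)).card : ℝ)) →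
      (2 - β * t) * ((thr A x (g x)).card : ℝ) ≤ (A0.card : ℝ) := by
    intro β hβ hL
    have h4 := step_bX (by omega) hA hβ hs hL hsx hcard
    rw [hfil, h5] at h4
    refine h4.trans ?_
    have h7 : ((thr A x (g x)).filter (fun σ => (∀ i ∈ T.erase x, σ i = s i) ∧
        ((Tᶜ.erase (s⁻¹ (g x))).filter (fun i => σ i = s i)).card = 1)).card ≤ A0.card := by
      apply card_le_card
      intro σ hσ
      obtain ⟨h8, h9, _⟩ := mem_filter.1 hσ
      exact hin σ h8 h9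
    exact_mod_cast h7
  have h6 := hgen β1 hb1 (hL1 x hx)
  have hk : 0 < (t : ℝ) - 1 - (2 - β1 * t) := by
    have : 0 ≤ β1 * t := mul_nonneg hb1 (by linarith)
    linarith
  have h7 : ((t : ℝ) - 2) * A.card ≤ ((t : ℝ) - 1 - (2 - β1 * t)) * ((thr A x (g x)).card : ℝ) := by
    have h8 : ((t : ℝ) - 2) * (A.card : ℝ) + (A0.card : ℝ) ≤
        ((t : ℝ) - 1) * ((thr A x (g x)).card : ℝ) := hbig
    linarith
  have h8 : θs * A.card ≤ ((thr A x (g x)).card : ℝ) := by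
    have h9 : θs * ((t : ℝ) - 1 - (2 - β1 * t)) * A.card ≤ ((t : ℝ) - 2) * A.card :=
      mul_le_mul_of_nonneg_right h1 ha0.le
    have h10 : ((t : ℝ) - 1 - (2 - β1 * t)) * (θs * A.card) ≤
        ((t : ℝ) - 1 - (2 - β1 * t)) * ((thr A x (g x)).card : ℝ) := by linarith
    exact le_of_mul_le_mul_left h10 hk
  have h9 := (hgen βs hbs (hLs x hx h8)).trans (hS A g T hA hT hN hF hmis)
  have hks : 0 < 2 - βs * t := by
    by_contra hcon
    push Not at hcon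
    have h10 : (2 - βs * t) * θs ≤ 0 := mul_nonpos_of_nonpos_of_nonneg hcon hθs.le
    linarith
  have h10 : (2 - βs * t) * θs * ((t + 1).factorial : ℝ) ≤
      (2 - βs * t) * ((thr A x (g x)).card : ℝ) := by
    calc (2 - βs * t) * θs * ((t + 1).factorial : ℝ)
        = (2 - βs * t) * (θs * ((t + 1).factorial : ℝ)) := by ring
      _ ≤ (2 - βs * t) * (θs * A.card) :=
          mul_le_mul_of_nonneg_left (mul_le_mul_of_nonneg_left hF hθs.le) hks.le
      _ ≤ _ := mul_le_mul_of_nonneg_left h8 hks.le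
  have h11 := mul_lt_mul_of_pos_right h2 hfac
  linarith


/-- the numbers of step (e) -/
structure NumE (t : ℕ) (β1 θs βs : ℝ) : Prop where
  hbs : 0 ≤ βs
  hθs : 0 < θs
  hE1 : θs * ((t : ℝ) - 1 - (2 - β1 * t)) ≤ t - 2
  hE2 : phi t < (2 - βs * t) * θs ∨ ∃ κ, 0 ≤ κ ∧ Spec t κ ∧ κ < (2 - βs * t) * θs

/-- step (e) with a second level one gap -/
theorem stepE_at {p0 β1 β2 θ ρ θs βs : ℝ} (ht : 5 ≤ t) (hb1 : 0 ≤ β1) (hB : β1 * (t + 1) < 2)
    (hK : ∀ n' t' : ℕ, 2 * t' + 3 ≤ n' → Holds n' t') (E : NumE t β1 θs βs) :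
    StepE t p0 β1 β2 θ ρ (fun A g T => LowAt A g T θs βs) := by
  intro A g T hA hF hT _ hL1 _ _ hLs hN hmis
  rcases E.hE2 with h | ⟨κ, h0, hS, h⟩
  · exact step_e4 ht hA hF hK hb1 hB E.hbs E.hθs hT hL1 hLs hN E.hE1 h
  · exact step_e5 ht hA hF hK hb1 hB E.hbs E.hθs hT hL1 hLs hN E.hE1 hS h0 h hmis

/-- step (e) with the level one gap only -/
theorem stepE_low1 {p0 β1 β2 θ ρ : ℝ} (ht : 5 ≤ t) (hb1 : 0 ≤ β1) (hB : β1 * (t + 1) < 2)
    (hK : ∀ n' t' : ℕ, 2 * t' + 3 ≤ n' → Holds n' t')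
    (hE : phi t * ((t : ℝ) - 1 - (2 - β1 * t)) < (2 - β1 * t) * (t - 2) ∨
      ∃ κ, 0 ≤ κ ∧ Spec t κ ∧ κ * ((t : ℝ) - 1 - (2 - β1 * t)) < (2 - β1 * t) * (t - 2)) :
    StepE t p0 β1 β2 θ ρ (fun _ _ _ => True) := by
  intro A g T hA hF hT _ hL1 _ _ _ hN hmis
  have htR : (5 : ℝ) ≤ t := by exact_mod_cast ht
  have hbt : 0 ≤ β1 * t := mul_nonneg hb1 (by linarith)
  have hD : 0 < (t : ℝ) - 1 - (2 - β1 * t) := by linarith
  have hLs : LowAt A g T ((t - 2) / ((t : ℝ) - 1 - (2 - β1 * t))) β1 := fun x hx _ => hL1 x hx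
  have h0 : 0 < ((t : ℝ) - 2) / ((t : ℝ) - 1 - (2 - β1 * t)) := div_pos (by linarith) hD
  have h1 : ((t : ℝ) - 2) / ((t : ℝ) - 1 - (2 - β1 * t)) * ((t : ℝ) - 1 - (2 - β1 * t)) ≤ t - 2 := by
    rw [div_mul_cancel₀ _ hD.ne']
  have h2 : ∀ κ : ℝ, κ * ((t : ℝ) - 1 - (2 - β1 * t)) < (2 - β1 * t) * (t - 2) →
      κ < (2 - β1 * t) * (((t : ℝ) - 2) / ((t : ℝ) - 1 - (2 - β1 * t))) := by
    intro κ h
    rw [← mul_div_assoc, lt_div_iff₀ hD]
    exact h
  rcases hE with h | ⟨κ, h3, hS, h⟩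
  · exact step_e4 ht hA hF hK hb1 hB hb1 h0 hT hL1 hLs hN h1 (h2 _ h)
  · exact step_e5 ht hA hF hK hb1 hB hb1 h0 hT hL1 hLs hN h1 hS h3 (h2 _ h) hmis

/-- the master endgame, (e) by `phi` or `Spec`, with a second level one gap -/
theorem endM4 {β0 p0 β1 β2 θ ρ θs βs : ℝ} (N : NumX t β0 p0 β1 β2 θ ρ) (E : NumE t β1 θs βs)
    (hG0 : Gap (2 * t + 1) t 1 β0 p0) (hL : InputM2 t β0 p0 β1 β2 θ ρ θs βs)
    (hLink : Link t) (hK : ∀ n' t' : ℕ, 2 * t' + 3 ≤ n' → Holds n' t') : Holds (2 * t + 1) t :=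
  endGen N hG0 (Ext := fun A g T => LowAt A g T θs βs) hL (stepE_at N.ht N.hb1 N.hB hK E) hLink hK

/-- the master endgame, (e) by `phi` or `Spec`, with the level one gap only -/
theorem endM5 {β0 p0 β1 β2 θ ρ : ℝ} (N : NumX t β0 p0 β1 β2 θ ρ)
    (hE : phi t * ((t : ℝ) - 1 - (2 - β1 * t)) < (2 - β1 * t) * (t - 2) ∨
      ∃ κ, 0 ≤ κ ∧ Spec t κ ∧ κ * ((t : ℝ) - 1 - (2 - β1 * t)) < (2 - β1 * t) * (t - 2))
    (hG0 : Gap (2 * t + 1) t 1 β0 p0) (hL : InputM t β0 p0 β1 β2 θ ρ)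
    (hLink : Link t) (hK : ∀ n' t' : ℕ, 2 * t' + 3 ≤ n' → Holds n' t') : Holds (2 * t + 1) t :=
  endGen N hG0 (Ext := fun _ _ _ => True) (fun A g T h1 h2 h3 h4 => by
    obtain ⟨h5, h6, h7, h8⟩ := hL A g T h1 h2 h3 h4
    exact ⟨h5, h6, h7, h8, trivial⟩) (stepE_low1 N.ht N.hb1 N.hB hK hE) hLink hK

end Pool.EG
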