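import Pool.Agent.Work.MP_46fa68_86.EndM4

/-! # from the gaps of the tables to `Holds (2 t + 1) t` (helper86) -/

set_option autoImplicit false

namespace Pool.EG

/-- levels 0 and 1 -/
theorem holds_two_gaps {t : ℕ} {b0 p0 th b1 p1 : ℝ}
    (N : NumM t b0 p0 b1 (b1 / p1) (p0 * p1) (1 - p1)) (ht : 2 ≤ t) (hp1 : 0 < p1) (hth : th ≤ p0)
    (hB : b0 < p0 * p1) (hB' : b1 * p0 < 2 * p0 - 1) (hY : YTop t p0 ∨ YLink t p0 p1)
    (hG0 : Gap (2 * t + 1) t 1 b0 p0) (hG1 : Gap (2 * t) (t - 1) th b1 p1)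
    (hLink : Link t) (hK : ∀ n' t' : ℕ, 2 * t' + 3 ≤ n' → Holds n' t') : Holds (2 * t + 1) t :=
  endM N hG0 (inputM_one ht N.hb0 N.hb1 N.hp0 hp1 hB hB' (hG1.mono hth le_rfl le_rfl) hY) hLink hK

/-- level 0 only -/
theorem holds_one_gap {t : ℕ} {b0 p0 : ℝ}
    (N : NumM t b0 p0 (b0 / p0) (b0 / (2 * p0 - 1)) (2 * p0 - 1) ((1 - p0) / p0)) (ht : 2 ≤ t) (hp1 : p0 ≤ 1)
    (hY : YTop t p0)
    (hG0 : Gap (2 * t + 1) t 1 b0 p0)
    (hLink : Link t) (hK : ∀ n' t' : ℕ, 2 * t' + 3 ≤ n' → Holds n' t') : Holds (2 * t + 1) t :=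
  endM N hG0 (inputM_top ht N.hb0 N.hp0 hp1 hY) hLink hK

/-- `m = 12` (tables of helper12) -/
theorem holds23_of (hG0 : Gap 23 11 1 (2793 / 10000) (8881 / 10000))
    (hG1 : Gap 22 10 (886 / 1000) (1395 / 10000) (8750 / 10000))
    (hLink : Link 11) (hK : ∀ n' t' : ℕ, 2 * t' + 3 ≤ n' → Holds n' t') : Holds 23 11 := by
  refine holds_two_gaps (t := 11) (b0 := 2793 / 10000) (p0 := 8881 / 10000) (th := 886 / 1000)
    (b1 := 1395 / 10000) (p1 := 8750 / 10000) ?_ (by norm_num) (by norm_num) (by norm_num) (by norm_num)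
    (by norm_num) (Or.inl ?_) hG0 hG1 hLink hK
  · constructor <;> norm_num [phi]
  · unfold YTop; norm_num

/-- `m = 13` (tables of helper12) -/
theorem holds25_of (hG0 : Gap 25 12 1 (2572 / 10000) (9034 / 10000))
    (hG1 : Gap 24 11 (900 / 1000) (1217 / 10000) (8915 / 10000))
    (hLink : Link 12) (hK : ∀ n' t' : ℕ, 2 * t' + 3 ≤ n' → Holds n' t') : Holds 25 12 := by
  refine holds_two_gaps (t := 12) (b0 := 2572 / 10000) (p0 := 9034 / 10000) (th := 900 / 1000)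
    (b1 := 1217 / 10000) (p1 := 8915 / 10000) ?_ (by norm_num) (by norm_num) (by norm_num) (by norm_num)
    (by norm_num) (Or.inl ?_) hG0 hG1 hLink hK
  · constructor <;> norm_num [phi]
  · unfold YTop; norm_num

/-- `m = 14` (tables of helper12) -/
theorem holds27_of (hG0 : Gap 27 13 1 (2370 / 10000) (9142 / 10000))
    (hG1 : Gap 26 12 (912 / 1000) (1079 / 10000) (9010 / 10000))
    (hLink : Link 13) (hK : ∀ n' t' : ℕ, 2 * t' + 3 ≤ n' → Holds n' t') : Holds 27 13 := by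
  refine holds_two_gaps (t := 13) (b0 := 2370 / 10000) (p0 := 9142 / 10000) (th := 912 / 1000)
    (b1 := 1079 / 10000) (p1 := 9010 / 10000) ?_ (by norm_num) (by norm_num) (by norm_num) (by norm_num)
    (by norm_num) (Or.inl ?_) hG0 hG1 hLink hK
  · constructor <;> norm_num [phi]
  · unfold YTop; norm_num

end Pool.EG
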