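import Pool.Agent.Work.MP_46fa68_86.Nums

/-! # from the gaps of the tables to `Holds (2 t + 1) t`, `m = 15, 16, 17` (helper86) -/

set_option autoImplicit false

namespace Pool.EG

/-- `m = 15` (tables `jc_29_14`, `jc_28_13` of helper12) -/
theorem holds29_of (hG0 : Gap 29 14 1 (2266 / 10000) (9226 / 10000))
    (hG1 : Gap 28 13 (915 / 1000) (979 / 10000) (9083 / 10000))
    (hLink : Link 14) (hK : ∀ n' t' : ℕ, 2 * t' + 3 ≤ n' → Holds n' t') : Holds 29 14 := by
  refine holds_two_gaps (t := 14) (b0 := 2266 / 10000) (p0 := 9226 / 10000) (th := 915 / 1000)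
    (b1 := 979 / 10000) (p1 := 9083 / 10000) ?_ (by norm_num) (by norm_num) (by norm_num) (by norm_num)
    (by norm_num) (Or.inl ?_) hG0 hG1 hLink hK
  · constructor <;> norm_num [phi]
  · unfold YTop; norm_num

/-- `m = 16` (table `jc_31_15` of helper12) -/
theorem holds31_of (hG0 : Gap 31 15 1 (939 / 10000) (9177 / 10000))
    (hLink : Link 15) (hK : ∀ n' t' : ℕ, 2 * t' + 3 ≤ n' → Holds n' t') : Holds 31 15 := by
  refine holds_one_gap (t := 15) (b0 := 939 / 10000) (p0 := 9177 / 10000) ?_ (by norm_num) (by norm_num)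
    ?_ hG0 hLink hK
  · constructor <;> norm_num [phi]
  · unfold YTop; norm_num

/-- `m = 17` (table `jc_33_16` of helper12) -/
theorem holds33_of (hG0 : Gap 33 16 1 (864 / 10000) (9238 / 10000))
    (hLink : Link 16) (hK : ∀ n' t' : ℕ, 2 * t' + 3 ≤ n' → Holds n' t') : Holds 33 16 := by
  refine holds_one_gap (t := 16) (b0 := 864 / 10000) (p0 := 9238 / 10000) ?_ (by norm_num) (by norm_num)
    ?_ hG0 hLink hK
  · constructor <;> norm_num [phi]
  · unfold YTop; norm_num

end Pool.EG
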