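import Pool.Agent.Work.MP_46fa68_86.Nums

/-! # from the gaps of the tables to `Holds (2 t + 1) t`, `m = 11` and `m = 18` (helper86) -/

set_option autoImplicit false

namespace Pool.EG

/-- `m = 11` (tables `jc_21_10`, `jc_20_9` (twice), `jc_19_8` of helper12) -/
theorem holds21_of (hG0 : Gap 21 10 1 (3479 / 10000) (8657 / 10000))
    (hG1 : Gap 20 9 (8655 / 10000) (1651 / 10000) (8504 / 10000))
    (hG1' : Gap 20 9 (92 / 100) (1532 / 10000) (8614 / 10000))
    (hG2 : Gap 19 8 (731 / 1000) (1549 / 10000) (8323 / 10000))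
    (hLink : Link 10) (hK : ∀ n' t' : ℕ, 2 * t' + 3 ≤ n' → Holds n' t') : Holds 21 10 := by
  have h0 : Gap (2 * 10 + 1) 10 1 (3479 / 10000) (8655 / 10000) := hG0.mono le_rfl le_rfl (by norm_num)
  have h2 : Gap (2 * 10 - 1) (10 - 2) (2 * (8655 / 10000) - 1) (1549 / 10000) (8323 / 10000) :=
    hG2.mono (by norm_num) le_rfl le_rfl
  have I := inputM_two' (t := 10) (β0 := 3479 / 10000) (p0 := 8655 / 10000) (β1 := 1651 / 10000)
    (p1 := 8504 / 10000) (β2 := 1549 / 10000) (p2 := 8323 / 10000) (by norm_num) (by norm_num)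
    (by norm_num) (by norm_num) (by norm_num) (by norm_num) (by norm_num) (by norm_num) hG1 h2
    (by unfold YTop; norm_num)
  refine endM2 (t := 10) ?_ h0 (inputM2_of (θs := 92 / 100) (βs := 1532 / 10000) (ps := 8614 / 10000)
    (by norm_num) (by norm_num) (by norm_num) (by norm_num) (by norm_num) hG1' I) hLink hK
  constructor <;> norm_num [phi]

/-- `m = 18` (table `jc_35_17` of helper12) -/
theorem holds35_of (hG0 : Gap 35 17 1 (803 / 10000) (9292 / 10000))
    (hLink : Link 17) (hK : ∀ n' t' : ℕ, 2 * t' + 3 ≤ n' → Holds n' t') : Holds 35 17 := by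
  refine holds_one_gap (t := 17) (b0 := 803 / 10000) (p0 := 9292 / 10000) ?_ (by norm_num) (by norm_num)
    ?_ hG0 hLink hK
  · constructor <;> norm_num [phi]
  · unfold YTop; norm_num

end Pool.EG
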