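import Pool.Agent.Work.MP_46fa68_76.EndC

/-! # endgame: sharper counts of exactly one hit (helper86) -/

set_option autoImplicit false

open Finset Equiv

namespace Pool.EG

variable {n : ℕ}

theorem bonf4 (k : ℕ) : (if k = 0 then 1 else 0) + k + k.choose 3 ≤ 1 + k.choose 2 + k.choose 4 := by
  rcases k with _ | k
  · simp
  · rw [if_neg (Nat.succ_ne_zero k), Nat.choose_succ_succ' k 1, Nat.choose_succ_succ' k 2,
      Nat.choose_succ_succ' k 3, Nat.choose_one_right]
    simp only [Nat.reduceAdd]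
    omega

theorem bonf5 (k : ℕ) : (if k = 1 then 1 else 0) + 2 * k.choose 2 + 4 * k.choose 4 ≤
    k + 3 * k.choose 3 + 5 * k.choose 5 := by
  rcases k with _ | k
  · simp
  · have h1 := bonf4 k
    have e1 := Nat.add_one_mul_choose_eq k 1
    have e2 := Nat.add_one_mul_choose_eq k 2
    have e3 := Nat.add_one_mul_choose_eq k 3
    have e4 := Nat.add_one_mul_choose_eq k 4
    simp only [Nat.succ_eq_add_one, Nat.reduceAdd, Nat.choose_one_right] at e1 e2 e3 e4
    have h2 : (k + 1) * ((if k = 0 then 1 else 0) + k + k.choose 3) ≤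
        (k + 1) * (1 + k.choose 2 + k.choose 4) := Nat.mul_le_mul_left _ h1
    have h3 : (if k + 1 = 1 then 1 else 0) ≤ (k + 1) * (if k = 0 then 1 else 0) := by
      rcases Nat.eq_zero_or_pos k with h | h
      · subst h
        simp
      · rw [if_neg (by omega)]
        exact Nat.zero_le _
    nlinarith

theorem avoid_le4 {g s : Perm (Fin n)} {T R : Finset (Fin n)} (hTR : Disjoint T R)
    (hc : ∀ i ∈ R, ∀ j ∈ T, s i ≠ g j) :
    ((star g T).filter (fun σ => ∀ i ∈ R, σ i ≠ s i)).card + R.card * (n - (T.card + 1)).factorial +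
        R.card.choose 3 * (n - (T.card + 3)).factorial ≤
      (n - T.card).factorial + R.card.choose 2 * (n - (T.card + 2)).factorial +
        R.card.choose 4 * (n - (T.card + 4)).factorial := by
  classical
  have h0 := card_star g T
  have h1 := sum_choose hTR hc 1
  have h2 := sum_choose hTR hc 2
  have h3 := sum_choose hTR hc 3
  have h4 := sum_choose hTR hc 4
  simp only [Nat.choose_one_right] at h1
  rw [← h1, ← h2, ← h3, ← h4, ← h0, card_filter, ← sum_add_distrib, ← sum_add_distrib,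
    card_eq_sum_ones, ← sum_add_distrib, ← sum_add_distrib]
  refine sum_le_sum fun σ _ => ?_
  have h5 := bonf4 (R.filter (fun i => σ i = s i)).card
  have h6 : (if ∀ i ∈ R, σ i ≠ s i then 1 else 0) =
      if (R.filter (fun i => σ i = s i)).card = 0 then 1 else 0 := by
    congr 1
    rw [card_eq_zero, filter_eq_empty_iff]
  rw [h6]
  exact h5

theorem exact_le {g s : Perm (Fin n)} {T R : Finset (Fin n)} (hTR : Disjoint T R)
    (hc : ∀ i ∈ R, ∀ j ∈ T, s i ≠ g j) :
    ((star g T).filter (fun σ => (R.filter (fun i => σ i = s i)).card = 1)).card +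
        2 * (R.card.choose 2 * (n - (T.card + 2)).factorial) +
        4 * (R.card.choose 4 * (n - (T.card + 4)).factorial) ≤
      R.card * (n - (T.card + 1)).factorial +
        3 * (R.card.choose 3 * (n - (T.card + 3)).factorial) +
        5 * (R.card.choose 5 * (n - (T.card + 5)).factorial) := by
  classical
  have h1 := sum_choose hTR hc 1
  have h2 := sum_choose hTR hc 2
  have h3 := sum_choose hTR hc 3
  have h4 := sum_choose hTR hc 4
  have h5 := sum_choose hTR hc 5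
  simp only [Nat.choose_one_right] at h1
  rw [← h1, ← h2, ← h3, ← h4, ← h5, card_filter, mul_sum, mul_sum, mul_sum, mul_sum,
    ← sum_add_distrib, ← sum_add_distrib, ← sum_add_distrib, ← sum_add_distrib]
  exact sum_le_sum fun σ _ => bonf5 (R.filter (fun i => σ i = s i)).card

theorem ff2 (k : ℕ) : (0 : ℝ) ≤ k * (k - 1) := by
  rcases k with _ | k
  · simp
  · push_cast
    have : (0 : ℝ) ≤ k := Nat.cast_nonneg _
    have h : ((k : ℝ) + 1 - 1) = k := by ring
    rw [h]
    positivity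

theorem ff3 (k : ℕ) : (0 : ℝ) ≤ k * (k - 1) * (k - 2) := by
  rcases k with _ | _ | k
  · simp
  · simp
  · push_cast
    have : (0 : ℝ) ≤ k := Nat.cast_nonneg _
    have h1 : ((k : ℝ) + 1 + 1 - 1) = k + 1 := by ring
    have h2 : ((k : ℝ) + 1 + 1 - 2) = k := by ring
    rw [h1, h2]
    positivity

theorem ff4 (k : ℕ) : (0 : ℝ) ≤ k * (k - 1) * (k - 2) * (k - 3) := by
  rcases k with _ | _ | _ | k
  · simp
  · simp
  · norm_num
  · push_cast
    have : (0 : ℝ) ≤ k := Nat.cast_nonneg _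
    have h1 : ((k : ℝ) + 1 + 1 + 1 - 1) = k + 2 := by ring
    have h2 : ((k : ℝ) + 1 + 1 + 1 - 2) = k + 1 := by ring
    have h3 : ((k : ℝ) + 1 + 1 + 1 - 3) = k := by ring
    rw [h1, h2, h3]
    positivity

theorem ff5 (k : ℕ) : (0 : ℝ) ≤ k * (k - 1) * (k - 2) * (k - 3) * (k - 4) := by
  rcases k with _ | _ | _ | _ | k
  · simp
  · simp
  · norm_num
  · norm_num
  · push_cast
    have : (0 : ℝ) ≤ k := Nat.cast_nonneg _
    have h1 : ((k : ℝ) + 1 + 1 + 1 + 1 - 1) = k + 3 := by ring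
    have h2 : ((k : ℝ) + 1 + 1 + 1 + 1 - 2) = k + 2 := by ring
    have h3 : ((k : ℝ) + 1 + 1 + 1 + 1 - 3) = k + 1 := by ring
    have h4 : ((k : ℝ) + 1 + 1 + 1 + 1 - 4) = k := by ring
    rw [h1, h2, h3, h4]
    positivity

theorem quintic {o N : ℕ} (h : o ≤ N) :
    (o : ℝ) * (24 * (N * (N - 1) * (N - 2) * (N - 3)) - 24 * (o * ((N - 1) * (N - 2) * (N - 3))) +
      12 * (o * (o - 1) * ((N - 2) * (N - 3))) - 4 * (o * (o - 1) * (o - 2) * (N - 3)) +
      o * (o - 1) * (o - 2) * (o - 3)) ≤ 9 * (N * (N * (N - 1) * (N - 2) * (N - 3))) := by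
  obtain ⟨d, rfl⟩ := Nat.exists_eq_add_of_le h
  push_cast
  have ho : (0 : ℝ) ≤ o := Nat.cast_nonneg _
  have hd : (0 : ℝ) ≤ d := Nat.cast_nonneg _
  have o2 := ff2 o
  have o3 := ff3 o
  have o4 := ff4 o
  have d2 := ff2 d
  have d3 := ff3 d
  have d4 := ff4 d
  have d5 := ff5 d
  have t1 := mul_nonneg ho d3
  have t2 := mul_nonneg ho d4
  have t3 := mul_nonneg o2 d2
  have t4 := mul_nonneg o2 d3
  have t5 := mul_nonneg o3 hd
  have t6 := mul_nonneg o3 d2
  have t7 := mul_nonneg o4 hd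
  have key : 9 * (((o : ℝ) + d) * (((o : ℝ) + d) * ((o : ℝ) + d - 1) * ((o : ℝ) + d - 2) *
      ((o : ℝ) + d - 3))) - (o : ℝ) * (24 * (((o : ℝ) + d) * ((o : ℝ) + d - 1) * ((o : ℝ) + d - 2) *
      ((o : ℝ) + d - 3)) - 24 * (o * (((o : ℝ) + d - 1) * ((o : ℝ) + d - 2) * ((o : ℝ) + d - 3))) +
      12 * (o * (o - 1) * (((o : ℝ) + d - 2) * ((o : ℝ) + d - 3))) -
      4 * (o * (o - 1) * (o - 2) * ((o : ℝ) + d - 3)) + o * (o - 1) * (o - 2) * (o - 3)) =
      36 * (d * (d - 1) * (d - 2) * (d - 3)) + 9 * (d * (d - 1) * (d - 2) * (d - 3) * (d - 4)) +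
      72 * (o * (d * (d - 1) * (d - 2))) + 21 * (o * (d * (d - 1) * (d - 2) * (d - 3))) +
      48 * (o * (o - 1) * (d * (d - 1))) + 18 * (o * (o - 1) * (d * (d - 1) * (d - 2))) +
      12 * (o * (o - 1) * (o - 2) * d) + 6 * (o * (o - 1) * (o - 2) * (d * (d - 1))) +
      o * (o - 1) * (o - 2) * (o - 3) * d := by ring
  linarith

theorem fact_four {N : ℕ} (hN : 4 ≤ N) :
    ((N - 1).factorial : ℝ) = (N - 1) * (N - 2) * (N - 3) * ((N - 4).factorial : ℝ) ∧
      ((N - 2).factorial : ℝ) = (N - 2) * (N - 3) * ((N - 4).factorial : ℝ) ∧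
      ((N - 3).factorial : ℝ) = (N - 3) * ((N - 4).factorial : ℝ) ∧
      (N.factorial : ℝ) = N * (N - 1) * (N - 2) * (N - 3) * ((N - 4).factorial : ℝ) := by
  obtain ⟨M, rfl⟩ := Nat.exists_eq_add_of_le' hN
  have h1 : M + 4 - 1 = M + 3 := by omega
  have h2 : M + 4 - 2 = M + 2 := by omega
  have h3 : M + 4 - 3 = M + 1 := by omega
  have h4 : M + 4 - 4 = M := by omega
  rw [h1, h2, h3, h4, Nat.factorial_succ (M + 3), Nat.factorial_succ (M + 2),
    Nat.factorial_succ (M + 1), Nat.factorial_succ M]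
  push_cast
  refine ⟨?_, ?_, ?_, ?_⟩ <;> ring

theorem cast_choose3 (o : ℕ) : (o.choose 3 : ℝ) = o * (o - 1) * (o - 2) / 6 := by
  rcases o with _ | _ | o
  · simp
  · simp
  · have e1 := Nat.add_one_mul_choose_eq (o + 1) 2
    have e2 := Nat.cast_choose_two ℝ (o + 1)
    have e3 : ((o + 1 : ℕ) + 1 : ℝ) * ((o + 1).choose 2 : ℝ) = ((o + 2).choose 3 : ℝ) * 3 := by
      have := e1
      simp only [Nat.succ_eq_add_one, Nat.reduceAdd] at this
      have h2 : (((o + 1 + 1) * (o + 1).choose 2 : ℕ) : ℝ) = (((o + 1 + 1).choose 3 * 3 : ℕ) : ℝ) := by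
        rw [this]
      push_cast at h2 ⊢
      linarith
    rw [e2] at e3
    push_cast at e3 ⊢
    have : ((o + 1 + 1).choose 3 : ℝ) = ((o + 2).choose 3 : ℝ) := rfl
    rw [this]
    linarith

theorem cast_choose4 (o : ℕ) : (o.choose 4 : ℝ) = o * (o - 1) * (o - 2) * (o - 3) / 24 := by
  rcases o with _ | o
  · simp
  · have e1 := Nat.add_one_mul_choose_eq o 3
    have e3 : ((o : ℝ) + 1) * (o.choose 3 : ℝ) = ((o + 1).choose 4 : ℝ) * 4 := by
      simp only [Nat.succ_eq_add_one, Nat.reduceAdd] at e1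
      have h2 : (((o + 1) * o.choose 3 : ℕ) : ℝ) = (((o + 1).choose 4 * 4 : ℕ) : ℝ) := by
        rw [e1]
      push_cast at h2 ⊢
      linarith
    rw [cast_choose3] at e3
    push_cast
    linarith

theorem cast_choose5 (o : ℕ) : (o.choose 5 : ℝ) = o * (o - 1) * (o - 2) * (o - 3) * (o - 4) / 120 := by
  rcases o with _ | o
  · simp
  · have e1 := Nat.add_one_mul_choose_eq o 4
    have e3 : ((o : ℝ) + 1) * (o.choose 4 : ℝ) = ((o + 1).choose 5 : ℝ) * 5 := by
      simp only [Nat.succ_eq_add_one, Nat.reduceAdd] at e1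
      have h2 : (((o + 1) * o.choose 4 : ℕ) : ℝ) = (((o + 1).choose 5 * 5 : ℕ) : ℝ) := by
        rw [e1]
      push_cast at h2 ⊢
      linarith
    rw [cast_choose4] at e3
    push_cast
    linarith

theorem one_hit4 {o N c : ℕ} (hN : 4 ≤ N) (ho : o ≤ N)
    (hc : c + o * (N - 1).factorial + o.choose 3 * (N - 3).factorial ≤
      N.factorial + o.choose 2 * (N - 2).factorial + o.choose 4 * (N - 4).factorial) :
    (o : ℝ) * c ≤ 3 / 8 * (N * (N.factorial : ℝ)) := by
  obtain ⟨h1, h2, h3, h4⟩ := fact_four hN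
  have h5 : (c : ℝ) + o * ((N - 1).factorial : ℝ) + (o.choose 3 : ℝ) * ((N - 3).factorial : ℝ) ≤
      (N.factorial : ℝ) + (o.choose 2 : ℝ) * ((N - 2).factorial : ℝ) +
      (o.choose 4 : ℝ) * ((N - 4).factorial : ℝ) := by exact_mod_cast hc
  rw [Nat.cast_choose_two ℝ o, cast_choose3, cast_choose4, h1, h2, h3, h4] at h5
  have hf : (0 : ℝ) < ((N - 4).factorial : ℝ) := by exact_mod_cast Nat.factorial_pos _
  have hq := quintic ho
  set f : ℝ := ((N - 4).factorial : ℝ) with hfd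
  have h6 : 24 * (c : ℝ) ≤ (24 * (N * (N - 1) * (N - 2) * (N - 3)) -
      24 * (o * ((N - 1) * (N - 2) * (N - 3))) + 12 * (o * (o - 1) * ((N - 2) * (N - 3))) -
      4 * (o * (o - 1) * (o - 2) * (N - 3)) + o * (o - 1) * (o - 2) * (o - 3)) * f := by
    nlinarith
  have h7 : (o : ℝ) * (24 * c) ≤ o * ((24 * (N * (N - 1) * (N - 2) * (N - 3)) -
      24 * (o * ((N - 1) * (N - 2) * (N - 3))) + 12 * (o * (o - 1) * ((N - 2) * (N - 3))) -
      4 * (o * (o - 1) * (o - 2) * (N - 3)) + o * (o - 1) * (o - 2) * (o - 3)) * f) :=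
    mul_le_mul_of_nonneg_left h6 (Nat.cast_nonneg _)
  have h8 := mul_le_mul_of_nonneg_right hq hf.le
  rw [h4]
  nlinarith

end Pool.EG
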