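import Pool.Agent.Work.MP_46fa68_86.Unif

/-! # endgame with `β0`, `p0` free and `β1 = K1 / m`, `p1 = 1 - P1 / m` (helper86) -/

set_option autoImplicit false

open Finset Equiv

namespace Pool.EG

variable {t : ℕ}

/-- the inequalities between the constants, denominators cleared (`m = t + 1`) -/
structure Consts2 (t : ℕ) (β0 p0 K1 P1 : ℝ) : Prop where
  ht : 5 ≤ t
  hb0 : 0 ≤ β0
  hp0 : 1 / 2 < p0
  hK1 : 0 ≤ K1
  h2' : P1 < t + 1
  h3 : β0 * (2 * t) < t - 1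
  h4 : K1 < 2
  h5 : 1 < (2 * ((t : ℝ) + 1) - P1 - K1 * t) * p0
  h6 : (t : ℝ) + 1 + 3 / 8 * (t * (t - 1)) < t * (2 * (t + 1) - P1 - K1 * (t - 1)) * p0
  h7 : 9 * (t : ℝ) + 8 < 24 * (2 * (t + 1) - K1 * t) * p0
  h8 : 2 + ((t : ℝ) + 2) * (t - 1) < (2 * (t + 1) - (t + 2) * P1) * (t * (t - 1)) * p0
  h9 : β0 * (t + 1) < p0 * (t + 1 - P1)
  h10 : K1 * p0 < (t + 1) * (2 * p0 - 1)

theorem consts2_num {β0 p0 K1 P1 : ℝ} (C : Consts2 t β0 p0 K1 P1) :
    NumM t β0 p0 (K1 / (t + 1)) (K1 / (t + 1) / (1 - P1 / (t + 1)))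
      (p0 * (1 - P1 / (t + 1))) (1 - (1 - P1 / (t + 1))) ∧
    YLink t p0 (1 - P1 / (t + 1)) ∧
    β0 < p0 * (1 - P1 / (t + 1)) ∧
    K1 / (t + 1) * p0 < 2 * p0 - 1 ∧
    0 < 1 - P1 / ((t : ℝ) + 1) := by
  obtain ⟨ht, hb0, hp0, hK1, h2', h3, h4, h5, h6, h7, h8, h9, h10⟩ := C
  have htR : (5 : ℝ) ≤ t := by exact_mod_cast ht
  set m : ℝ := (t : ℝ) + 1 with hm
  have hm0 : 0 < m := by linarith
  have hmne : m ≠ 0 := hm0.ne'
  have ht0 : (0 : ℝ) < t := by linarith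
  have htne : (t : ℝ) ≠ 0 := ht0.ne'
  have hp00 : 0 < p0 := by linarith
  have hp1 : 1 - P1 / m = (m - P1) / m := by field_simp
  have hp1pos : 0 < (m - P1) / m := div_pos (by linarith) hm0
  refine ⟨⟨ht, hb0, div_nonneg hK1 hm0.le, ?_, ?_, hp0, h3, ?_, ?_, ?_, ?_⟩, ?_, ?_, ?_, ?_⟩
  · rw [hp1]
    exact div_nonneg (div_nonneg hK1 hm0.le) hp1pos.le
  · rw [hp1]
    exact mul_pos hp00 hp1pos
  · rw [← hm, div_mul_cancel₀ _ hmne]
    exact h4
  · right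
    have e : (2 - (1 - (1 - P1 / m)) - K1 / m * t) * p0 = ((2 * m - P1 - K1 * t) * p0) / m := by
      field_simp
      ring
    rw [e, ← hm]
    exact div_lt_div_of_pos_right h5 hm0
  · right
    have e : (2 - (1 - (1 - P1 / m)) - K1 / m * (t - 1)) * p0 =
        (t * (2 * m - P1 - K1 * (t - 1)) * p0) / t / m := by
      field_simp
      ring
    rw [e, ← hm]
    apply div_lt_div_of_pos_right _ hm0
    rw [lt_div_iff₀ ht0]
    have e2 : (1 + 1 / (t : ℝ) + 3 / 8 * (t - 1)) * t = t + 1 + 3 / 8 * (t * (t - 1)) := by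
      field_simp
    rw [e2]
    exact h6
  · left
    unfold phi
    have e : (2 - K1 / m * t) * p0 = (24 * (2 * m - K1 * t) * p0) / (24 * m) := by
      field_simp
    rw [e, ← hm]
    exact div_lt_div_of_pos_right h7 (by positivity)
  · unfold YLink
    have e : (2 - ((t : ℝ) + 2) * (1 - (1 - P1 / m))) * (p0 * (m * t * (t - 1))) =
        (2 * m - (t + 2) * P1) * (t * (t - 1)) * p0 := by
      field_simp
      ring
    rw [← hm, e]
    exact h8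
  · rw [hp1, mul_div_assoc', lt_div_iff₀ hm0]
    exact h9
  · rw [div_mul_eq_mul_div, div_lt_iff₀ hm0]
    linarith
  · rw [hp1]
    exact hp1pos

/-- the endgame with constants -/
theorem holds_consts2 {β0 p0 K1 P1 : ℝ} (C : Consts2 t β0 p0 K1 P1)
    (hG0 : Gap (2 * t + 1) t 1 β0 p0)
    (hG1 : Gap (2 * t) (t - 1) p0 (K1 / (t + 1)) (1 - P1 / (t + 1)))
    (hLink : Link t) (hK : ∀ n' t' : ℕ, 2 * t' + 3 ≤ n' → Holds n' t') : Holds (2 * t + 1) t := by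
  obtain ⟨N, hY, hB, hB', hp1⟩ := consts2_num C
  have ht := C.ht
  exact endM N hG0 (inputM_one (by omega) N.hb0 N.hb1 N.hp0 hp1 hB hB' hG1 (Or.inr hY)) hLink hK

/-- `β0 = 1/5`, `p0 = 1 - P0 / m` with `P0 ≤ 2`, `K1 = 1.6`, `P1 = 1.8` for all `m ≥ 16` -/
theorem consts2_a (ht : 15 ≤ t) {P0 : ℝ} (h0 : 0 ≤ P0) (h1 : P0 ≤ 2) :
    Consts2 t (1 / 5) (1 - P0 / (t + 1)) (8 / 5) (9 / 5) := by
  obtain ⟨d, rfl⟩ := Nat.exists_eq_add_of_le ht
  push_cast
  have hd : (0 : ℝ) ≤ d := Nat.cast_nonneg _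
  set m : ℝ := 15 + (d : ℝ) + 1 with hm
  have hm0 : 0 < m := by linarith
  have hp0 : 1 - P0 / m = (m - P0) / m := by field_simp
  have hle : (m - 2) / m ≤ 1 - P0 / m := by
    rw [hp0]
    exact div_le_div_of_nonneg_right (by linarith) hm0.le
  have hge : 1 - P0 / m ≤ 1 := by
    have : 0 ≤ P0 / m := div_nonneg h0 hm0.le
    linarith
  have h14 : 14 / 16 ≤ 1 - P0 / m := by
    refine le_trans ?_ hle
    rw [div_le_div_iff₀ (by norm_num) hm0]
    linarith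
  set p := 1 - P0 / m with hp
  have key : ∀ X Y : ℝ, 0 ≤ Y → X * m < Y * (m - 2) → X < Y * p := by
    intro X Y hY h
    calc X = X * m / m := by field_simp
      _ < Y * (m - 2) / m := div_lt_div_of_pos_right h hm0
      _ = Y * ((m - 2) / m) := by ring
      _ ≤ Y * p := mul_le_mul_of_nonneg_left hle hY
  refine ⟨by omega, by norm_num, by linarith, by norm_num, ?_, ?_, by norm_num,
    ?_, ?_, ?_, ?_, ?_, ?_⟩ <;> push_cast
  · linarith
  · linarith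
  · apply key
    · nlinarith
    · rw [hm]; nlinarith
  · apply key
    · have : (0 : ℝ) ≤ 2 * (15 + d + 1) - 9 / 5 - 8 / 5 * (15 + d - 1) := by linarith
      exact mul_nonneg (by linarith) this
    · rw [hm]; nlinarith [mul_nonneg hd hd, mul_nonneg (mul_nonneg hd hd) hd]
  · apply key
    · nlinarith
    · rw [hm]; nlinarith
  · apply key
    · have h2 : (0 : ℝ) ≤ 2 * (15 + d + 1) - (15 + d + 2) * (9 / 5) := by linarith
      exact mul_nonneg h2 (by nlinarith)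
    · rw [hm]; nlinarith [mul_nonneg hd hd, mul_nonneg (mul_nonneg hd hd) hd,
        mul_nonneg (mul_nonneg hd hd) (mul_nonneg hd hd)]
  · have h3 : (1 : ℝ) / 5 * (15 + d + 1) < (15 + d + 1 - 9 / 5) * p := by
      apply key
      · linarith
      · rw [hm]; nlinarith
    linarith
  · rw [← hm]
    nlinarith

/-- all large `m`: `β0 = 1/5`, `p0 = 1 - P0 / m`, `P0 ≤ 2`, level one `1.6 / m`, `1 - 1.8 / m` -/
theorem holds_large2 {t₀ : ℕ} (h15 : 15 ≤ t₀) {P0 : ℝ} (h0 : 0 ≤ P0) (h1 : P0 ≤ 2)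
    (hG0 : ∀ t : ℕ, t₀ ≤ t → Gap (2 * t + 1) t 1 (1 / 5) (1 - P0 / (t + 1)))
    (hG1 : ∀ t : ℕ, t₀ ≤ t →
      Gap (2 * t) (t - 1) (1 - P0 / (t + 1)) (8 / 5 / (t + 1)) (1 - 9 / 5 / (t + 1)))
    (hLink : ∀ t : ℕ, 1 ≤ t → Link t) (hK : ∀ n' t' : ℕ, 2 * t' + 3 ≤ n' → Holds n' t') :
    ∀ t : ℕ, t₀ ≤ t → Holds (2 * t + 1) t := fun t ht =>
  holds_consts2 (consts2_a (h15.trans ht) h0 h1) (hG0 t ht) (hG1 t ht) (hLink t (by omega)) hK

/-- test: `m = 24`, `b0 = .2`, `p0 = .92`, `K1 = 1.6`, `P1 = 1.8` -/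
theorem consts2_test : Consts2 23 (1 / 5) (92 / 100) (8 / 5) (9 / 5) := by
  refine ⟨by norm_num, by norm_num, by norm_num, by norm_num, by norm_num, by norm_num, by norm_num,
    by norm_num, by norm_num, by norm_num, by norm_num, by norm_num, by norm_num⟩

end Pool.EG
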