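import Pool.Agent.Work.MP_46fa68_86.Unif3
import Pool.Agent.Work.MP_46fa68_27.Cut

/-! # one gap for all large `m`, sharp in `m`: `K = 13 / 8 - 19 / (10 m)` (helper86) -/

set_option autoImplicit false

open Finset Equiv

namespace Pool.EG

variable {n t : ℕ}

/-- the constant `13 / 8 - 19 / (10 m)`, `m = t + 1` -/
noncomputable def KK (t : ℕ) : ℝ := 13 / 8 - 19 / 10 / (t + 1)

theorem KK_mul (t : ℕ) : KK t * ((t : ℝ) + 1) = 13 / 8 * (t + 1) - 19 / 10 := by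
  unfold KK
  have h : ((t : ℝ) + 1) ≠ 0 := by positivity
  field_simp

theorem KK_bounds (ht : 14 ≤ t) : 3 / 2 - 2 / 1000 ≤ KK t ∧ KK t < 13 / 8 ∧ 0 < 1 / ((t : ℝ) + 1) ∧
    1 / ((t : ℝ) + 1) ≤ 1 / 15 := by
  have htR : (14 : ℝ) ≤ t := by exact_mod_cast ht
  have h1 : 0 < 1 / ((t : ℝ) + 1) := by positivity
  have h2 : 1 / ((t : ℝ) + 1) ≤ 1 / 15 := by
    apply one_div_le_one_div_of_le (by norm_num)
    linarith
  have h3 : 19 / 10 / ((t : ℝ) + 1) = 19 / 10 * (1 / ((t : ℝ) + 1)) := by ring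
  unfold KK
  rw [h3]
  refine ⟨by linarith, by linarith, h1, h2⟩

theorem constsT_K (ht : 14 ≤ t) : ConstsT t (KK t) (KK t) := by
  obtain ⟨b1, b2, b3, b4⟩ := KK_bounds ht
  have htR : (14 : ℝ) ≤ t := by exact_mod_cast ht
  have hK := KK_mul t
  set K := KK t with hKd
  have hKt : K * t = 13 / 8 * (t + 1) - 19 / 10 - K := by linarith
  have hKtt : K * t * t = (13 / 8 * (t + 1) - 19 / 10 - K) * t := by rw [hKt]
  refine ⟨by omega, by linarith, by linarith, ?_, ?_, ?_, ?_, ?_, ?_, ?_⟩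
  · linarith
  · nlinarith
  · linarith
  · linarith
  · nlinarith
  · linarith
  · have e : (2 * ((t : ℝ) + 1) - (t + 3) * K) = 3 / 8 * t + 3 / 8 + 19 / 10 - 2 * K := by linarith
    rw [e]
    have h1 : 3 / 8 * (t : ℝ) - 1 ≤ 3 / 8 * t + 3 / 8 + 19 / 10 - 2 * K := by linarith
    have h2 : (0 : ℝ) ≤ (t : ℝ) * (t - 1) := mul_nonneg (by linarith) (by linarith)
    have h3 := mul_le_mul_of_nonneg_right h1 h2
    nlinarith

/-- `Holds` from one gap with the constant `K = 13 / 8 - 19 / (10 m)` at both ends -/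
theorem holds_K (ht : 14 ≤ t) (hG0 : Gap (2 * t + 1) t 1 (KK t / (t + 1)) (1 - KK t / (t + 1)))
    (hLink : Link t) (hK : ∀ n' t' : ℕ, 2 * t' + 3 ≤ n' → Holds n' t') : Holds (2 * t + 1) t :=
  holds_constsT (constsT_K ht) hG0 hLink hK

/-- `Holds` from the product bound for families of size exactly `(t + 1)!` -/
theorem holds_K_prod (ht : 14 ≤ t) {Λ : ℝ} (hP : ProdOne (2 * t + 1) t Λ)
    (hΛ : Λ ≤ KK t / (t + 1) * (1 - KK t / (t + 1)))
    (hLink : Link t) (hK : ∀ n' t' : ℕ, 2 * t' + 3 ≤ n' → Holds n' t') : Holds (2 * t + 1) t := by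
  obtain ⟨b1, b2, b3, b4⟩ := KK_bounds ht
  have htR : (14 : ℝ) ≤ t := by exact_mod_cast ht
  have hd : KK t / ((t : ℝ) + 1) = KK t * (1 / ((t : ℝ) + 1)) := by ring
  have h0 : 0 ≤ KK t / ((t : ℝ) + 1) := div_nonneg (by linarith) (by linarith)
  have h1 : KK t / ((t : ℝ) + 1) ≤ 1 / 4 := by
    rw [hd]
    calc KK t * (1 / ((t : ℝ) + 1)) ≤ 13 / 8 * (1 / 15) :=
          mul_le_mul b2.le b4 b3.le (by norm_num)
      _ ≤ 1 / 4 := by norm_num
  have hfac : (720 : ℝ) ≤ ((2 * t + 1 - t).factorial : ℝ) := by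
    have h : (6).factorial ≤ (2 * t + 1 - t).factorial := Nat.factorial_le (by omega)
    have h' : (720 : ℕ) ≤ (2 * t + 1 - t).factorial := h
    exact_mod_cast h'
  refine holds_K ht (gap_of_prodOne hP h0 (by linarith) ?_ hΛ ?_) hLink hK
  · nlinarith
  · calc Λ ≤ _ := hΛ
      _ = _ := by ring

/-- the constant of helper27 (`prodOne_of_cd`) -/
noncomputable def LamF (t : ℕ) (W η c : ℝ) : ℝ :=
  (W + η) * (W + η / t) * t / ((1 - η) ^ 2 * ((t : ℝ) + 1) ^ 2) + t * (c ^ 2 / ((t : ℝ) * (t + 1)) ^ 2)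

/-- `m` times the constant, `x = 1 / m` -/
theorem LamF_mul (ht : 1 ≤ t) (W c : ℝ) {η : ℝ} (hη : η < 1) :
    LamF t W η c * ((t : ℝ) + 1) = (W + η) / (1 - η) ^ 2 * (W * (1 - 1 / ((t : ℝ) + 1)) + η * (1 / ((t : ℝ) + 1))) +
      c ^ 2 * (((t : ℝ) + 1) / t) * (1 / ((t : ℝ) + 1)) ^ 2 := by
  have htR : (1 : ℝ) ≤ t := by exact_mod_cast ht
  have h1 : (t : ℝ) ≠ 0 := by linarith
  have h2 : (t : ℝ) + 1 ≠ 0 := by linarith
  have h3 : (1 - η) ≠ 0 := by linarith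
  unfold LamF
  field_simp
  ring

/-- the final inequality from two numerical tests (at `m = ∞` and at `m = t₀ + 1`) -/
theorem LamF_le {t₀ : ℕ} (h14 : 14 ≤ t₀) (ht : t₀ ≤ t) {W η c A C : ℝ} (hW : 0 ≤ W) (hη : 0 ≤ η) (hη1 : η < 1)
    (hA : (W + η) / (1 - η) ^ 2 ≤ A) (hC : c ^ 2 * (((t₀ : ℝ) + 1) / t₀) ≤ C) (hC2 : 247 / 40 ≤ C)
    (h0 : A * W ≤ 13 / 8)
    (h1 : A * (W * (1 - 1 / ((t₀ : ℝ) + 1)) + η * (1 / ((t₀ : ℝ) + 1))) + C * (1 / ((t₀ : ℝ) + 1)) ^ 2 ≤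
      13 / 8 - 1453 / 320 * (1 / ((t₀ : ℝ) + 1)) + 247 / 40 * (1 / ((t₀ : ℝ) + 1)) ^ 2 -
        361 / 100 * (1 / ((t₀ : ℝ) + 1)) ^ 3) :
    LamF t W η c ≤ KK t / (t + 1) * (1 - KK t / (t + 1)) := by
  have ht0R : (14 : ℝ) ≤ t₀ := by exact_mod_cast h14
  have htR : (t₀ : ℝ) ≤ t := by exact_mod_cast ht
  have hm : (0 : ℝ) < (t : ℝ) + 1 := by linarith
  have e1 := LamF_mul (t := t) (by omega) W c hη1
  set x : ℝ := 1 / ((t : ℝ) + 1) with hx
  set x0 : ℝ := 1 / ((t₀ : ℝ) + 1) with hx0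
  have hx1 : 0 < x := by rw [hx]; positivity
  have hx01 : 0 < x0 := by rw [hx0]; positivity
  have hxx : x ≤ x0 := by
    rw [hx, hx0]
    apply one_div_le_one_div_of_le <;> linarith
  have hx02 : x0 ≤ 1 / 15 := by
    rw [hx0]
    apply one_div_le_one_div_of_le <;> linarith
  have hcc : c ^ 2 * (((t : ℝ) + 1) / t) ≤ C := by
    refine le_trans (mul_le_mul_of_nonneg_left ?_ (sq_nonneg c)) hC
    rw [div_le_div_iff₀ (by linarith) (by linarith)]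
    nlinarith
  have hin : 0 ≤ W * (1 - x) + η * x := by
    apply add_nonneg (mul_nonneg hW (by linarith)) (mul_nonneg hη hx1.le)
  have hL : LamF t W η c * ((t : ℝ) + 1) ≤ A * (W * (1 - x) + η * x) + C * x ^ 2 := by
    rw [e1]
    exact add_le_add (mul_le_mul_of_nonneg_right hA hin) (mul_le_mul_of_nonneg_right hcc (sq_nonneg x))
  -- the convexity step
  have hA0 : 0 ≤ A := le_trans (div_nonneg (add_nonneg hW hη) (sq_nonneg _)) hA
  have key : A * (W * (1 - x) + η * x) + C * x ^ 2 ≤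
      13 / 8 - 1453 / 320 * x + 247 / 40 * x ^ 2 - 361 / 100 * x ^ 3 := by
    have hk : x * x0 * (x * (247 / 40 - 361 / 100 * x - C) - x0 * (247 / 40 - 361 / 100 * x0 - C)) ≥ 0 := by
      apply mul_nonneg (mul_nonneg hx1.le hx01.le)
      nlinarith [mul_nonneg (sub_nonneg.2 hxx) hx1.le, mul_nonneg (sub_nonneg.2 hxx) hx01.le,
        mul_nonneg (sub_nonneg.2 hxx) (sub_nonneg.2 hC2)]
    have hf0 : 0 ≤ (x0 - x) * (13 / 8 - A * W) := mul_nonneg (sub_nonneg.2 hxx) (sub_nonneg.2 h0)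
    have hf1 : 0 ≤ x * (13 / 8 - 1453 / 320 * x0 + 247 / 40 * x0 ^ 2 - 361 / 100 * x0 ^ 3 -
        (A * (W * (1 - x0) + η * x0) + C * x0 ^ 2)) := mul_nonneg hx1.le (sub_nonneg.2 h1)
    have hsum : 0 ≤ x0 * (13 / 8 - 1453 / 320 * x + 247 / 40 * x ^ 2 - 361 / 100 * x ^ 3 -
        (A * (W * (1 - x) + η * x) + C * x ^ 2)) := by
      calc (0 : ℝ) ≤ (x0 - x) * (13 / 8 - A * W) + x * (13 / 8 - 1453 / 320 * x0 + 247 / 40 * x0 ^ 2 -
            361 / 100 * x0 ^ 3 - (A * (W * (1 - x0) + η * x0) + C * x0 ^ 2)) +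
            x * x0 * (x * (247 / 40 - 361 / 100 * x - C) - x0 * (247 / 40 - 361 / 100 * x0 - C)) := by
            linarith
        _ = _ := by ring
    have := (mul_nonneg_iff_of_pos_left hx01).1 hsum
    linarith
  have hR : KK t / ((t : ℝ) + 1) * (1 - KK t / (t + 1)) * (t + 1) =
      13 / 8 - 1453 / 320 * x + 247 / 40 * x ^ 2 - 361 / 100 * x ^ 3 := by
    have hK : KK t = 13 / 8 - 19 / 10 * x := by
      unfold KK
      rw [hx]
      ring
    have hd : KK t / ((t : ℝ) + 1) = KK t * x := by rw [hx]; ring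
    have hd2 : KK t * x * (1 - KK t * x) * ((t : ℝ) + 1) = KK t * (1 - KK t * x) * (x * ((t : ℝ) + 1)) := by ring
    have hd3 : x * ((t : ℝ) + 1) = 1 := by
      rw [hx]
      field_simp
    rw [hd, hd2, hd3, hK]
    ring
  have hfin : LamF t W η c * ((t : ℝ) + 1) ≤ KK t / ((t : ℝ) + 1) * (1 - KK t / (t + 1)) * (t + 1) := by
    rw [hR]
    exact hL.trans key
  exact le_of_mul_le_mul_right hfin hm

/-- `W = 1.22`, rare losses `η ≤ 1 / 1000`, error term `c ≤ 2.6`: all `m ≥ 26` -/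
theorem LamF_122 (ht : 25 ≤ t) : LamF t (122 / 100) (1 / 1000) (26 / 10) ≤ KK t / (t + 1) * (1 - KK t / (t + 1)) :=
  LamF_le (t₀ := 25) (A := 12235 / 10000) (C := 704 / 100) (by norm_num) ht (by norm_num) (by norm_num)
    (by norm_num) (by norm_num) (by norm_num) (by norm_num) (by norm_num) (by norm_num)

/-- all `m > t₀` from helper27's constant with uniform `W`, `η`, `c = c₁ / q` -/
theorem holds_large_cd {t₀ : ℕ} (h14 : 14 ≤ t₀) {W η c : ℝ}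
    (hΛ : ∀ t : ℕ, t₀ ≤ t → LamF t W η c ≤ KK t / (t + 1) * (1 - KK t / (t + 1)))
    (hP : ∀ t : ℕ, t₀ ≤ t → ProdOne (2 * t + 1) t (LamF t W η c))
    (hLink : ∀ t : ℕ, 1 ≤ t → Link t) (hK : ∀ n' t' : ℕ, 2 * t' + 3 ≤ n' → Holds n' t') :
    ∀ t : ℕ, t₀ ≤ t → Holds (2 * t + 1) t := fun t ht =>
  holds_K_prod (h14.trans ht) (hP t ht) (hΛ t ht) (hLink t (by omega)) hK

end Pool.EG
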